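import Mathlib

set_option autoImplicit false

namespace Pool.Agent.Helper419.BackForth

open Classical in
/-- Abstract back-and-forth. -/
theorem backForth {V W : Type*} [Countable V] [Countable W] (P : Finset (V × W) → Prop)
    (hinj : ∀ p, P p → ∀ a ∈ p, ∀ b ∈ p, a.1 = b.1 ↔ a.2 = b.2)
    (forth : ∀ p, P p → ∀ a, ∃ b, P (insert (a, b) p))
    (back : ∀ p, P p → ∀ b, ∃ a, P (insert (a, b) p))
    (p0 : Finset (V × W)) (h0 : P p0) :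
    ∃ e : V ≃ W, (∀ x ∈ p0, e x.1 = x.2) ∧
      ∀ a b : V, ∃ q, P q ∧ (a, e a) ∈ q ∧ (b, e b) ∈ q := by
  let Q := {p : Finset (V × W) // P p}
  letI : Preorder Q := Subtype.preorder _
  haveI : Encodable (V ⊕ W) := Encodable.ofCountable _
  let D : V ⊕ W → Order.Cofinal Q := fun s =>
    match s with
    | Sum.inl a =>
      { carrier := {p | ∃ b, (a, b) ∈ p.1}
        isCofinal := fun p => by
          obtain ⟨b, hb⟩ := forth p.1 p.2 a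
          exact ⟨⟨_, hb⟩, ⟨b, Finset.mem_insert_self _ _⟩, Finset.subset_insert _ _⟩ }
    | Sum.inr b =>
      { carrier := {p | ∃ a, (a, b) ∈ p.1}
        isCofinal := fun p => by
          obtain ⟨a, ha⟩ := back p.1 p.2 b
          exact ⟨⟨_, ha⟩, ⟨a, Finset.mem_insert_self _ _⟩, Finset.subset_insert _ _⟩ }
  let I : Order.Ideal Q := Order.idealOfCofinals ⟨p0, h0⟩ D
  have hdir : ∀ x ∈ I, ∀ y ∈ I, ∃ z ∈ I, x ≤ z ∧ y ≤ z := fun x hx y hy => I.directed x hx y hy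
  have hp0 : (⟨p0, h0⟩ : Q) ∈ I := Order.mem_idealOfCofinals _ _
  have hl : ∀ a : V, ∃ b : W, ∃ p ∈ I, (a, b) ∈ p.1 := by
    intro a
    obtain ⟨p, ⟨b, hb⟩, hp⟩ := Order.cofinal_meets_idealOfCofinals ⟨p0, h0⟩ D (Sum.inl a)
    exact ⟨b, p, hp, hb⟩
  have hr : ∀ b : W, ∃ a : V, ∃ p ∈ I, (a, b) ∈ p.1 := by
    intro b
    obtain ⟨p, ⟨a, ha⟩, hp⟩ := Order.cofinal_meets_idealOfCofinals ⟨p0, h0⟩ D (Sum.inr b)
    exact ⟨a, p, hp, ha⟩
  choose f pf hfI hf using hl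
  choose g pg hgI hg using hr
  have key : ∀ (p : Q), p ∈ I → ∀ (q : Q), q ∈ I → ∀ x ∈ p.1, ∀ y ∈ q.1, (x.1 = y.1 ↔ x.2 = y.2) := by
    intro p hp q hq x hx y hy
    obtain ⟨z, hz, hpz, hqz⟩ := hdir p hp q hq
    exact hinj z.1 z.2 x (hpz hx) y (hqz hy)
  refine ⟨⟨f, g, ?_, ?_⟩, ?_, ?_⟩
  · intro a
    exact (key _ (hgI (f a)) _ (hfI a) _ (hg (f a)) _ (hf a)).mpr rfl
  · intro b
    exact (key _ (hfI (g b)) _ (hgI b) _ (hf (g b)) _ (hg b)).mp rfl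
  · intro x hx
    exact (key _ (hfI x.1) _ hp0 _ (hf x.1) x hx).mp rfl
  · intro a b
    obtain ⟨z, hz, h1, h2⟩ := hdir _ (hfI a) _ (hfI b)
    exact ⟨z.1, z.2, h1 (hf a), h2 (hf b)⟩

end Pool.Agent.Helper419.BackForth
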