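import Pool.Agent.Helper419.RTDefs

/-! Basic coarse geometry of the fibred product of a scale tree with the Heisenberg group. -/

set_option autoImplicit false

namespace Pool.Agent.Helper419.LF

open Pool.Agent.Helper419.RT (Scale)

/-- points: a level, a point of `Z` (which matters modulo the scale of the level) and
two integer coordinates -/
@[ext] structure U (Z : Type*) where
  lv : ℤ
  z : Z
  p : ℤ
  q : ℤ

variable {Z : Type*} (S : Scale Z)

/-- same vertex -/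
def Eqv (x y : U Z) : Prop := x.lv = y.lv ∧ S.r x.lv x.z y.z ∧ x.p = y.p ∧ x.q = y.q

/-- adjacency of representatives -/
def Adj0 (x y : U Z) : Prop :=
  (x.lv = y.lv ∧ S.r x.lv x.z y.z ∧
    ((y.q = x.q ∧ (y.p = x.p + 1 ∨ x.p = y.p + 1)) ∨
     (y.q = x.q + 1 ∧ y.p = x.p - x.lv) ∨ (x.q = y.q + 1 ∧ x.p = y.p - x.lv))) ∨
  (x.p = y.p ∧ x.q = y.q ∧
    ((y.lv = x.lv + 1 ∧ S.r y.lv x.z y.z) ∨ (x.lv = y.lv + 1 ∧ S.r x.lv x.z y.z)))

/-- equal or adjacent -/
def Step (x y : U Z) : Prop := Eqv S x y ∨ Adj0 S x y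

/-- joined by a path of length at most `r` -/
def Reach : ℕ → U Z → U Z → Prop
  | 0, x, y => Eqv S x y
  | (r + 1), x, y => ∃ u, Reach r x u ∧ Step S u y

variable {S}

theorem Eqv.refl (x : U Z) : Eqv S x x := ⟨rfl, S.refl _ _, rfl, rfl⟩

theorem Eqv.symm {x y : U Z} (h : Eqv S x y) : Eqv S y x := by
  obtain ⟨h1, h2, h3, h4⟩ := h
  exact ⟨h1.symm, h1 ▸ S.symm _ _ _ h2, h3.symm, h4.symm⟩

theorem Eqv.trans {x y z : U Z} (h : Eqv S x y) (h' : Eqv S y z) : Eqv S x z := by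
  obtain ⟨h1, h2, h3, h4⟩ := h
  obtain ⟨k1, k2, k3, k4⟩ := h'
  rw [← h1] at k2
  exact ⟨h1.trans k1, S.trans _ _ _ _ h2 k2, h3.trans k3, h4.trans k4⟩

theorem Adj0.symm {x y : U Z} (h : Adj0 S x y) : Adj0 S y x := by
  rcases h with ⟨h1, h2, h3⟩ | ⟨h1, h2, h3⟩
  · left
    refine ⟨h1.symm, h1 ▸ S.symm _ _ _ h2, ?_⟩
    rcases h3 with ⟨a, b⟩ | ⟨a, b⟩ | ⟨a, b⟩
    · exact Or.inl ⟨a.symm, b.symm⟩
    · exact Or.inr (Or.inr ⟨a, by rw [← h1]; exact b⟩)
    · exact Or.inr (Or.inl ⟨a, by rw [← h1]; exact b⟩)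
  · right
    refine ⟨h1.symm, h2.symm, ?_⟩
    rcases h3 with ⟨a, b⟩ | ⟨a, b⟩
    · exact Or.inr ⟨a, S.symm _ _ _ b⟩
    · exact Or.inl ⟨a, S.symm _ _ _ b⟩

theorem Adj0.eqv_left {x y z : U Z} (h : Adj0 S x y) (h' : Eqv S z x) : Adj0 S z y := by
  obtain ⟨k1, k2, k3, k4⟩ := h'
  rcases h with ⟨h1, h2, h3⟩ | ⟨h1, h2, h3⟩
  · left
    refine ⟨k1.trans h1, S.trans _ _ _ _ k2 (k1 ▸ h2), ?_⟩
    rw [k3, k4, k1]; exact h3
  · right
    refine ⟨k3.trans h1, k4.trans h2, ?_⟩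
    rcases h3 with ⟨a, b⟩ | ⟨a, b⟩
    · left
      refine ⟨by rw [k1]; exact a, ?_⟩
      exact S.trans _ _ _ _ (S.mono _ _ (by rw [a, k1]; omega) _ _ k2) b
    · right
      refine ⟨by rw [k1]; exact a, ?_⟩
      rw [k1]
      exact S.trans _ _ _ _ (k1 ▸ k2) b

theorem Step.refl (x : U Z) : Step S x x := Or.inl (Eqv.refl x)

theorem Step.symm {x y : U Z} (h : Step S x y) : Step S y x := by
  rcases h with h | h
  · exact Or.inl h.symm
  · exact Or.inr h.symm

theorem Step.eqv_left {x y z : U Z} (h : Step S x y) (h' : Eqv S z x) : Step S z y := by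
  rcases h with h | h
  · exact Or.inl (h'.trans h)
  · exact Or.inr (h.eqv_left h')

theorem Step.eqv_right {x y z : U Z} (h : Step S x y) (h' : Eqv S y z) : Step S x z :=
  (h.symm.eqv_left h'.symm).symm

theorem Reach.refl (r : ℕ) (x : U Z) : Reach S r x x := by
  induction r with
  | zero => exact Eqv.refl x
  | succ r ih => exact ⟨x, ih, Step.refl x⟩

theorem Reach.eqv_right {r : ℕ} {x y z : U Z} (h : Reach S r x y) (h' : Eqv S y z) :
    Reach S r x z := by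
  cases r with
  | zero => exact Eqv.trans h h'
  | succ r =>
    obtain ⟨u, h1, h2⟩ := h
    exact ⟨u, h1, h2.eqv_right h'⟩

theorem Reach.eqv_left {r : ℕ} {x y z : U Z} (h : Reach S r x y) (h' : Eqv S z x) :
    Reach S r z y := by
  induction r generalizing y with
  | zero => exact Eqv.trans h' h
  | succ r ih =>
    obtain ⟨u, h1, h2⟩ := h
    exact ⟨u, ih h1, h2⟩

theorem Reach.trans {r s : ℕ} {x y z : U Z} (h : Reach S r x y) (h' : Reach S s y z) :
    Reach S (r + s) x z := by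
  induction s generalizing z with
  | zero => exact h.eqv_right h'
  | succ s ih =>
    obtain ⟨u, h1, h2⟩ := h'
    exact ⟨u, ih h1, h2⟩

theorem Reach.mono {r s : ℕ} {x y : U Z} (h : Reach S r x y) (hrs : r ≤ s) : Reach S s x y := by
  obtain ⟨k, rfl⟩ := Nat.exists_eq_add_of_le hrs
  exact h.trans (Reach.refl k y)

theorem Step.reach {x y : U Z} (h : Step S x y) : Reach S 1 x y := ⟨x, Eqv.refl x, h⟩

theorem Eqv.reach {x y : U Z} (h : Eqv S x y) (r : ℕ) : Reach S r x y :=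
  (show Reach S 0 x y from h).mono (Nat.zero_le _)

theorem Reach.symm {r : ℕ} {x y : U Z} (h : Reach S r x y) : Reach S r y x := by
  induction r generalizing y with
  | zero => exact Eqv.symm h
  | succ r ih =>
    obtain ⟨u, h1, h2⟩ := h
    have := h2.symm.reach.trans (ih h1)
    rwa [add_comm] at this

/-! lower bounds -/

theorem Step.lv {x y : U Z} (h : Step S x y) : |y.lv - x.lv| ≤ 1 := by
  rcases h with ⟨h1, -⟩ | ⟨h1, -⟩ | ⟨-, -, ⟨h1, -⟩ | ⟨h1, -⟩⟩ <;> rw [abs_le] <;> omega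

theorem Reach.lv {r : ℕ} {x y : U Z} (h : Reach S r x y) : |y.lv - x.lv| ≤ r := by
  induction r generalizing y with
  | zero =>
    have : x.lv = y.lv := h.1
    simp [this]
  | succ r ih =>
    obtain ⟨u, h1, h2⟩ := h
    have a := abs_le.1 (ih h1)
    have b := abs_le.1 h2.lv
    rw [abs_le]
    push_cast
    omega

theorem Step.z {x y : U Z} (h : Step S x y) (n : ℤ) (hx : x.lv ≤ n) (hy : y.lv ≤ n) :
    S.r n x.z y.z := by
  rcases h with ⟨-, h1, -⟩ | ⟨-, h1, -⟩ | ⟨-, -, ⟨h1, h2⟩ | ⟨h1, h2⟩⟩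
  · exact S.mono _ _ hx _ _ h1
  · exact S.mono _ _ hx _ _ h1
  · exact S.mono _ _ hy _ _ h2
  · exact S.mono _ _ hx _ _ h2

theorem Reach.z {r : ℕ} {x y : U Z} (h : Reach S r x y) (n : ℤ) (hn : x.lv + r ≤ n) :
    S.r n x.z y.z := by
  induction r generalizing y with
  | zero => exact S.mono _ _ (by simpa using hn) _ _ h.2.1
  | succ r ih =>
    obtain ⟨u, h1, h2⟩ := h
    push_cast at hn
    have a := abs_le.1 h1.lv
    have b := abs_le.1 h2.lv
    refine S.trans _ _ _ _ (ih h1 (by omega)) (h2.z n (by omega) (by omega))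

theorem Step.q {x y : U Z} (h : Step S x y) : |y.q - x.q| ≤ 1 := by
  rcases h with ⟨-, -, -, h1⟩ | ⟨-, -, h1⟩ | ⟨-, h1, -⟩
  · simp [h1]
  · rcases h1 with ⟨h1, -⟩ | ⟨h1, -⟩ | ⟨h1, -⟩ <;> rw [abs_le] <;> omega
  · simp [h1]

theorem Reach.q {r : ℕ} {x y : U Z} (h : Reach S r x y) : |y.q - x.q| ≤ r := by
  induction r generalizing y with
  | zero =>
    have : x.q = y.q := h.2.2.2
    simp [this]
  | succ r ih =>
    obtain ⟨u, h1, h2⟩ := h
    have a := abs_le.1 (ih h1)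
    have b := abs_le.1 h2.q
    rw [abs_le]
    push_cast
    omega

theorem Step.p {x y : U Z} (h : Step S x y) (m : ℤ) :
    |(y.p - x.p) + m * (y.q - x.q)| ≤ 1 + |x.lv - m| := by
  rcases h with ⟨-, -, h1, h2⟩ | ⟨-, -, h1⟩ | ⟨h1, h2, -⟩
  · rw [h1, h2]; simp; positivity
  · rcases h1 with ⟨h1, h2⟩ | ⟨h1, h2⟩ | ⟨h1, h2⟩
    · rcases h2 with h2 | h2
      · rw [h1, h2]; simp
      · rw [h1, h2]; simp
    · rw [h1, h2]
      have : (x.p - x.lv - x.p) + m * (x.q + 1 - x.q) = -(x.lv - m) := by ring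
      rw [this, abs_neg]; linarith
    · rw [h1, h2]
      have : (y.p - (y.p - x.lv)) + m * (y.q - (y.q + 1)) = x.lv - m := by ring
      rw [this]; linarith
  · rw [h1, h2]; simp; positivity

theorem Reach.p {r : ℕ} {x y : U Z} (h : Reach S r x y) (m A : ℤ) (hA : |x.lv - m| ≤ A) :
    |(y.p - x.p) + m * (y.q - x.q)| ≤ r * (1 + A + r) := by
  induction r generalizing y with
  | zero =>
    have h1 : x.q = y.q := h.2.2.2
    have h2 : x.p = y.p := h.2.2.1
    simp [h1, h2]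
  | succ r ih =>
    obtain ⟨u, h1, h2⟩ := h
    have a := ih h1
    have b := h2.p m
    have c := h1.lv
    have hA0 : 0 ≤ A := le_trans (abs_nonneg _) hA
    have d : |u.lv - m| ≤ A + r := by
      have : u.lv - m = (u.lv - x.lv) + (x.lv - m) := by ring
      rw [this]
      exact (abs_add_le _ _).trans (by linarith)
    have e : (y.p - x.p) + m * (y.q - x.q) =
        ((u.p - x.p) + m * (u.q - x.q)) + ((y.p - u.p) + m * (y.q - u.q)) := by ring
    rw [e]
    refine (abs_add_le _ _).trans ?_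
    push_cast
    nlinarith [abs_nonneg (u.lv - m)]

/-! crossing -/

/-- the part at or below the tree vertex `(m, ζ)` -/
def Sub (S : Scale Z) (m : ℤ) (ζ : Z) (x : U Z) : Prop := x.lv ≤ m ∧ S.r m ζ x.z

/-- the fibre over the tree vertex `(m, ζ)` -/
def Fib (S : Scale Z) (m : ℤ) (ζ : Z) (x : U Z) : Prop := x.lv = m ∧ S.r m ζ x.z

theorem Sub.eqv {m : ℤ} {ζ : Z} {x y : U Z} (h : Sub S m ζ x) (h' : Eqv S x y) : Sub S m ζ y :=
  ⟨h'.1 ▸ h.1, S.trans _ _ _ _ h.2 (S.mono _ _ h.1 _ _ h'.2.1)⟩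

theorem crossing {m : ℤ} {ζ : Z} {r : ℕ} {x y : U Z} (h : Reach S r x y) (hx : Sub S m ζ x)
    (hy : ¬ Sub S m ζ y) : ∃ s, Fib S m ζ s ∧ Reach S r x s := by
  induction r generalizing y with
  | zero => exact absurd (hx.eqv h) hy
  | succ r ih =>
    obtain ⟨u, h1, h2⟩ := h
    by_cases hu : Sub S m ζ u
    · rcases hu.1.lt_or_eq with h3 | h3
      · exfalso
        apply hy
        have h4 := abs_le.1 h2.lv
        have h5 : y.lv ≤ m := by omega
        exact ⟨h5, S.trans _ _ _ _ hu.2 (h2.z m hu.1 h5)⟩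
      · exact ⟨u, ⟨h3, hu.2⟩, h1.mono (Nat.le_succ r)⟩
    · obtain ⟨s, h3, h4⟩ := ih h1 hu
      exact ⟨s, h3, h4.mono (Nat.le_succ r)⟩

/-! upper bounds -/

theorem reach_up (n : ℤ) (z z' : Z) (p q : ℤ) (k : ℕ) (h : S.r (n + k) z z') :
    Reach S k ⟨n, z, p, q⟩ ⟨n + k, z', p, q⟩ := by
  induction k generalizing z' with
  | zero =>
    refine ⟨by simp, by simpa using h, rfl, rfl⟩
  | succ k ih =>
    refine ⟨⟨n + k, z, p, q⟩, ih z (S.refl _ _), Or.inr (Or.inr ⟨rfl, rfl, Or.inl ⟨?_, ?_⟩⟩)⟩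
    · show n + ((k + 1 : ℕ) : ℤ) = n + k + 1
      push_cast; ring
    · exact h

theorem reach_vert (n m : ℤ) (z z' : Z) (p q : ℤ) (h : S.r (max n m) z z') :
    Reach S (n - m).natAbs ⟨n, z, p, q⟩ ⟨m, z', p, q⟩ := by
  rcases le_total n m with h1 | h1
  · obtain ⟨k, hk⟩ := Int.eq_ofNat_of_zero_le (sub_nonneg.2 h1)
    have hm : m = n + k := by omega
    subst hm
    rw [max_eq_right h1] at h
    have := reach_up n z z' p q k h
    refine this.mono (by omega)
  · obtain ⟨k, hk⟩ := Int.eq_ofNat_of_zero_le (sub_nonneg.2 h1)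
    have hm : n = m + k := by omega
    subst hm
    rw [max_eq_left h1] at h
    have := (reach_up m z' z p q k (S.symm _ _ _ h)).symm
    refine this.mono (by omega)

theorem reach_e1_nat (n : ℤ) (z : Z) (p q : ℤ) (k : ℕ) :
    Reach S k ⟨n, z, p, q⟩ ⟨n, z, p + k, q⟩ := by
  induction k with
  | zero => exact ⟨rfl, S.refl _ _, by simp, rfl⟩
  | succ k ih =>
    refine ⟨_, ih, Or.inr (Or.inl ⟨rfl, S.refl _ _, Or.inl ⟨rfl, Or.inl ?_⟩⟩)⟩
    push_cast; ring

theorem reach_e1 (n : ℤ) (z : Z) (p q a : ℤ) :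
    Reach S a.natAbs ⟨n, z, p, q⟩ ⟨n, z, p + a, q⟩ := by
  rcases le_total 0 a with h | h
  · obtain ⟨k, rfl⟩ := Int.eq_ofNat_of_zero_le h
    simpa using reach_e1_nat n z p q k
  · obtain ⟨k, hk⟩ := Int.eq_ofNat_of_zero_le (neg_nonneg.2 h)
    have : a = -k := by omega
    subst this
    have := (reach_e1_nat (S := S) n z (p + -k) q k).symm
    simpa using this

theorem reach_q_nat (n : ℤ) (z : Z) (p q : ℤ) (k : ℕ) :
    Reach S k ⟨n, z, p, q⟩ ⟨n, z, p - n * k, q + k⟩ := by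
  induction k with
  | zero => exact ⟨rfl, S.refl _ _, by simp, by simp⟩
  | succ k ih =>
    refine ⟨_, ih, Or.inr (Or.inl ⟨rfl, S.refl _ _, Or.inr (Or.inl ⟨?_, ?_⟩)⟩)⟩
    · push_cast; ring
    · push_cast; ring

theorem reach_q (n : ℤ) (z : Z) (p q b : ℤ) :
    Reach S b.natAbs ⟨n, z, p, q⟩ ⟨n, z, p - n * b, q + b⟩ := by
  rcases le_total 0 b with h | h
  · obtain ⟨k, rfl⟩ := Int.eq_ofNat_of_zero_le h
    simpa using reach_q_nat n z p q k
  · obtain ⟨k, hk⟩ := Int.eq_ofNat_of_zero_le (neg_nonneg.2 h)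
    have : b = -k := by omega
    subst this
    have := (reach_q_nat (S := S) n z (p - n * (-k)) (q + -k) k).symm
    have e1 : p - n * (-k) - n * k = p := by ring
    have e2 : q + -k + (k : ℤ) = q := by ring
    rw [e1, e2] at this
    simpa using this

/-- squares of the central direction are cheap -/
theorem reach_sq (n : ℤ) (z : Z) (p q : ℤ) (k : ℕ) :
    Reach S (4 * k) ⟨n, z, p, q⟩ ⟨n, z, p + (k : ℤ) ^ 2, q⟩ := by
  have h1 := reach_q_nat (S := S) n z p q k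
  have h2 := reach_up (S := S) n z z (p - n * k) (q + k) k (S.refl _ _)
  have h3 := (reach_q_nat (S := S) (n + k) z (p + (k : ℤ) ^ 2) q k).symm
  have h4 := (reach_up (S := S) n z z (p + (k : ℤ) ^ 2) q k (S.refl _ _)).symm
  have e : p + (k : ℤ) ^ 2 - (n + k) * k = p - n * k := by ring
  rw [e] at h3
  refine (((h1.trans h2).trans h3).trans h4).mono (by omega)

theorem reach_E (n : ℤ) (z : Z) (p q E : ℤ) :
    Reach S (6 * Nat.sqrt E.natAbs) ⟨n, z, p, q⟩ ⟨n, z, p + E, q⟩ := by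
  have key : ∀ (p : ℤ) (e : ℕ), Reach S (6 * Nat.sqrt e) ⟨n, z, p, q⟩ ⟨n, z, p + e, q⟩ := by
    intro p e
    have h1 := reach_sq (S := S) n z p q (Nat.sqrt e)
    have h2 := reach_e1_nat (S := S) n z (p + (Nat.sqrt e : ℤ) ^ 2) q (e - Nat.sqrt e ^ 2)
    have h3 : Nat.sqrt e ^ 2 ≤ e := Nat.sqrt_le' e
    have h4 : e < (Nat.sqrt e + 1) ^ 2 := Nat.lt_succ_sqrt' e
    have e1 : p + (Nat.sqrt e : ℤ) ^ 2 + ((e - Nat.sqrt e ^ 2 : ℕ) : ℤ) = p + e := by
      rw [Nat.cast_sub h3]; push_cast; ring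
    rw [e1] at h2
    refine (h1.trans h2).mono ?_
    have h5 : e < Nat.sqrt e ^ 2 + 2 * Nat.sqrt e + 1 := by nlinarith
    omega
  rcases le_total 0 E with h | h
  · obtain ⟨k, rfl⟩ := Int.eq_ofNat_of_zero_le h
    simpa using key p k
  · obtain ⟨k, hk⟩ := Int.eq_ofNat_of_zero_le (neg_nonneg.2 h)
    have : E = -k := by omega
    subst this
    have := (key (p + -k) k).symm
    simpa using this

/-- all points are joined -/
theorem exists_reach (x y : U Z) : ∃ r, Reach S r x y := by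
  obtain ⟨n0, hn0⟩ := S.exh x.z y.z
  set n := max n0 (max x.lv y.lv) with hn
  have hxy : S.r n x.z y.z := S.mono _ _ (le_max_left _ _) _ _ hn0
  have h1 := reach_vert (S := S) x.lv n x.z x.z x.p x.q (S.refl _ _)
  have h2 := reach_q (S := S) n x.z x.p x.q (y.q - x.q)
  have h3 := reach_e1 (S := S) n x.z (x.p - n * (y.q - x.q)) (x.q + (y.q - x.q))
    (y.p - (x.p - n * (y.q - x.q)))
  have h4 := reach_vert (S := S) n y.lv x.z y.z y.p y.q (by
    rw [max_eq_left ((le_max_right x.lv y.lv).trans (le_max_right _ _))]; exact hxy)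
  have e1 : x.p - n * (y.q - x.q) + (y.p - (x.p - n * (y.q - x.q))) = y.p := by ring
  have e2 : x.q + (y.q - x.q) = y.q := by ring
  rw [e1, e2] at h3
  rw [e2] at h2
  exact ⟨_, ((h1.trans h2).trans h3).trans h4⟩

end Pool.Agent.Helper419.LF
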