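import Pool.Agent.Helper419.RTDefs

set_option autoImplicit false

namespace Pool.Agent.Helper419.RT

variable {Z : Type*}

/-- the measure `μ` counts classes -/
def IsMu (S : Scale Z) (t : ℤ → ℤ) (μ : Set Z → ℝ) : Prop :=
  (∀ z n, μ (S.ball z n) = M t n) ∧
  (∀ A B, S.Clo A → S.Clo B → Disjoint A B → μ (A ∪ B) = μ A + μ B) ∧
  (∀ A m, S.Sat m A → S.Bdd A → μ A = (S.num m A : ℝ) * M t m)

open Pointwise

/-- a group acting by coarse similarities, coboundedly -/
structure Act (S : Scale Z) {G : Type*} [Group G] [MulAction G Z] (lam : G → ℤ → ℤ) (D : ℤ) :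
    Prop where
  hD : 1 ≤ D
  up : ∀ g n x y, S.r n x y → S.r (lam g n + D) (g • x) (g • y)
  low : ∀ g n x y, S.r (lam g n - D) (g • x) (g • y) → S.r n x y
  cob : ∀ z z' n n', ∃ g : G, S.r (n' + D) (g • z) z' ∧ |lam g n - n'| ≤ D
  step : ∀ g n, |lam g (n + 1) - lam g n| ≤ D

/-- the orbit of `y` under the stabilizer of `x` -/
def orb (G : Type*) {X : Type*} [Group G] [MulAction G X] (x y : X) : Set X :=
  {z | ∃ g : G, g • x = x ∧ g • y = z}

end Pool.Agent.Helper419.RT
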