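import Pool.Agent.Helper419.RTGrow
import Pool.Agent.Helper419.RTAct

/-! The boundary map of a coarse quasi-isometry and the boundary action. -/

set_option autoImplicit false

namespace Pool.Agent.Helper419.RT

variable {Z : Type*}

/-- completeness and separation -/
def Scale.Complete (S : Scale Z) : Prop :=
  ∀ ζ : ℕ → Z, (∀ j : ℕ, S.r (-(j : ℤ)) (ζ j) (ζ (j + 1))) → ∃ z, ∀ j : ℕ, S.r (-(j : ℤ)) (ζ j) z

def Scale.Sep (S : Scale Z) : Prop := ∀ x y, (∀ j : ℕ, S.r (-(j : ℤ)) x y) → x = y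

/-- the zero sequence -/
def w0 : W := ⟨fun _ => 0, 0, fun _ _ => rfl⟩

theorem D6_nonneg {A : ℤ} (hA : 1 ≤ A) : 1 ≤ D6 A := by
  unfold D6; have := D5_nonneg hA; omega

theorem eq_of_all (S : Scale Z) (hsep : S.Sep) {x y : Z} (h : ∀ m : ℤ, S.r m x y) : x = y :=
  hsep x y fun j => h _

theorem bd_exists (S : Scale Z) (hS : S.FinCls) (hsp : S.Split) (hcomp : S.Complete)
    (A : ℤ) (hA : 1 ≤ A) (F : Pt Z → Pt Z) (hF : QI S A F) (z : Z) :
    ∃ b : Z, ∀ k w, S.r ((F ⟨k, z, w⟩).lv + D6 A) (F ⟨k, z, w⟩).z b := by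
  have h1 : ∀ j : ℕ, ∃ k₀ : ℤ, ∀ k ≤ k₀, (F ⟨k, z, w0⟩).lv ≤ -(j : ℤ) - D6 A := fun j =>
    lv_tendsto S hS hsp A hA F hF z w0 _
  choose κ hκ using h1
  set K : ℕ → ℤ := fun j => -(j : ℤ) - ∑ i ∈ Finset.range (j + 1), |κ i| with hK
  have hK1 : ∀ j, K j ≤ κ j := by
    intro j
    have h2 : |κ j| ≤ ∑ i ∈ Finset.range (j + 1), |κ i| :=
      Finset.single_le_sum (f := fun i => |κ i|) (fun i _ => abs_nonneg _)
        (Finset.mem_range.mpr (Nat.lt_succ_self j))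
    have h3 := neg_abs_le (κ j)
    simp only [hK]
    omega
  have hK2 : ∀ j, K (j + 1) ≤ K j := by
    intro j
    simp only [hK]
    rw [Finset.sum_range_succ _ (j + 1)]
    have := abs_nonneg (κ (j + 1))
    push_cast
    omega
  have hK3 : ∀ j : ℕ, K j ≤ -(j : ℤ) := by
    intro j
    simp only [hK]
    have : 0 ≤ ∑ i ∈ Finset.range (j + 1), |κ i| := Finset.sum_nonneg fun i _ => abs_nonneg _
    omega
  obtain ⟨b, hb⟩ := hcomp (fun j => (F ⟨K j, z, w0⟩).z) (by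
    intro j
    have h2 := z_stable S hS hsp A hA F hF z w0 (hK2 j)
    have h3 := hκ j (K j) (hK1 j)
    exact S.mono _ _ (by omega) _ _ (S.symm _ _ _ h2))
  refine ⟨b, fun k w => ?_⟩
  obtain ⟨N, hN⟩ := w.2
  set v := (F ⟨k, z, w⟩).lv with hv
  set j : ℕ := (max (max (-k) (-(N - 1))) (max (-(v + D6 A)) (A - v - 2 * D6 A))).toNat with hj
  have hj1 : -(j : ℤ) ≤ k ∧ -(j : ℤ) ≤ N - 1 ∧ -(j : ℤ) ≤ v + D6 A ∧ -(j : ℤ) ≤ v + 2 * D6 A - A := by
    omega
  have hKj := hK3 j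
  have hlvj := hκ j (K j) (hK1 j)
  have h2 : near S 0 (⟨K j, z, w0⟩ : Pt Z) ⟨K j, z, w⟩ := by
    refine ⟨K j, K j, le_rfl, le_rfl, le_rfl, le_rfl, S.refl _ _, ?_, by omega⟩
    intro h hh
    show 0 = w.1 h
    rw [hN h (by omega)]
  have h3 := hF.1 _ _ _ h2
  have h4 : S.r (v + D6 A) (F ⟨K j, z, w0⟩).z (F ⟨K j, z, w⟩).z := by
    apply near_r S h3
    have : min (F ⟨K j, z, w0⟩).lv (F ⟨K j, z, w⟩).lv ≤ (F ⟨K j, z, w0⟩).lv := min_le_left _ _
    omega
  have h5 := z_stable S hS hsp A hA F hF z w (show K j ≤ k by omega)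
  have h6 := S.mono _ _ hj1.2.2.1 _ _ (hb j)
  exact S.trans _ _ _ _ (S.symm _ _ _ h5) (S.trans _ _ _ _ (S.symm _ _ _ h4) h6)

/-- uniqueness and perturbation invariance -/
theorem bd_unique (S : Scale Z) (hS : S.FinCls) (hsp : S.Split) (hsep : S.Sep)
    (A : ℤ) (hA : 1 ≤ A) (F F' : Pt Z → Pt Z) (hF : QI S A F) (z : Z) (B C C' : ℤ)
    (hn : ∀ k, near S B (F ⟨k, z, w0⟩) (F' ⟨k, z, w0⟩)) (b b' : Z)
    (hb : ∀ k, S.r ((F ⟨k, z, w0⟩).lv + C) (F ⟨k, z, w0⟩).z b)
    (hb' : ∀ k, S.r ((F' ⟨k, z, w0⟩).lv + C') (F' ⟨k, z, w0⟩).z b') : b = b' := by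
  apply eq_of_all S hsep
  intro m
  obtain ⟨k, hk⟩ := lv_tendsto S hS hsp A hA F hF z w0 (m - |B| - |C| - |C'|)
  have h1 := hk k le_rfl
  have h2 := near_lv S (hn k)
  rw [abs_le] at h2
  have hB := le_abs_self B
  have hC := le_abs_self C
  have hC' := le_abs_self C'
  have hB0 := abs_nonneg B
  have hC0 := abs_nonneg C
  have hC'0 := abs_nonneg C'
  refine S.trans _ _ _ _ (S.symm _ _ _ (S.mono _ _ ?_ _ _ (hb k)))
    (S.trans _ _ _ _ (near_r S (hn k) ?_) (S.mono _ _ ?_ _ _ (hb' k)))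
  · omega
  · have := min_le_left (F ⟨k, z, w0⟩).lv (F' ⟨k, z, w0⟩).lv
    omega
  · omega

/-- a family of coarse quasi-isometries which is coarsely a group action -/
structure Fam (S : Scale Z) (A : ℤ) {G : Type*} [Group G] (F : G → Pt Z → Pt Z) : Prop where
  hA : 1 ≤ A
  qi : ∀ g, QI S A (F g)
  mul : ∀ g h p, near S A (F g (F h p)) (F (g * h) p)
  one : ∀ p, near S A (F 1 p) p
  cob : ∀ p q, ∃ g, near S A (F g p) q

theorem QI_comp (S : Scale Z) {A : ℤ} (hA : 1 ≤ A) {F F' : Pt Z → Pt Z} (hF : QI S A F)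
    (hF' : QI S A F') : QI S (A * A + A) (fun p => F (F' p)) := by
  constructor
  · intro x y r h
    have h0 := near_nonneg S h
    refine near_mono S (hF.1 _ _ _ (hF'.1 _ _ _ h)) ?_
    nlinarith [mul_nonneg (show 0 ≤ A by omega) h0]
  · intro x y r h
    have h0 := near_nonneg S h
    refine near_mono S (hF'.2 _ _ _ (hF.2 _ _ _ h)) ?_
    nlinarith [mul_nonneg (show 0 ≤ A by omega) h0]

/-- the constant of the boundary action -/
def RR (A : ℤ) : ℤ := A * (3 * D1 A + D6 A + 2)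
def D7 (A : ℤ) : ℤ := D1 A + A * RR A + A

/-- the boundary map of a member of a family -/
noncomputable def bd (S : Scale Z) (hS : S.FinCls) (hsp : S.Split) (hcomp : S.Complete)
    {A : ℤ} {G : Type*} [Group G] {F : G → Pt Z → Pt Z} (hF : Fam S A F) (g : G) (z : Z) : Z :=
  (bd_exists S hS hsp hcomp A hF.hA (F g) (hF.qi g) z).choose

theorem bd_spec (S : Scale Z) (hS : S.FinCls) (hsp : S.Split) (hcomp : S.Complete)
    {A : ℤ} {G : Type*} [Group G] {F : G → Pt Z → Pt Z} (hF : Fam S A F) (g : G) (z : Z) :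
    ∀ k w, S.r ((F g ⟨k, z, w⟩).lv + D6 A) (F g ⟨k, z, w⟩).z (bd S hS hsp hcomp hF g z) :=
  (bd_exists S hS hsp hcomp A hF.hA (F g) (hF.qi g) z).choose_spec

/-- the boundary action -/
noncomputable def bdAction (S : Scale Z) (hS : S.FinCls) (hsp : S.Split) (hcomp : S.Complete)
    (hsep : S.Sep) {A : ℤ} {G : Type*} [Group G] {F : G → Pt Z → Pt Z} (hF : Fam S A F) :
    MulAction G Z where
  smul g z := bd S hS hsp hcomp hF g z
  one_smul z := by
    show bd S hS hsp hcomp hF 1 z = z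
    apply bd_unique S hS hsp hsep A hF.hA (F 1) id (hF.qi 1) z A (D6 A) 0 (fun k => hF.one _)
      _ _ (fun k => bd_spec S hS hsp hcomp hF 1 z k w0) (fun k => S.refl _ _)
  mul_smul g h z := by
    show bd S hS hsp hcomp hF (g * h) z = bd S hS hsp hcomp hF g (bd S hS hsp hcomp hF h z)
    have hA := hF.hA
    have hD6 := D6_nonneg hA
    refine (bd_unique S hS hsp hsep (A * A + A) (by nlinarith) (fun p => F g (F h p)) (F (g * h))
      (QI_comp S hA (hF.qi g) (hF.qi h)) z A (2 * (A * D6 A + A) + D6 A) (D6 A)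
      (fun k => hF.mul g h _) _ _ ?_
      (fun k => bd_spec S hS hsp hcomp hF (g * h) z k w0)).symm
    intro k
    set y := F h ⟨k, z, w0⟩ with hy
    have h1 := bd_spec S hS hsp hcomp hF h z k w0
    rw [← hy] at h1
    have h2 : near S (D6 A) y ⟨y.lv + D6 A, bd S hS hsp hcomp hF h z, y.w⟩ :=
      ⟨y.lv + D6 A, y.lv, le_rfl, by simp only; omega, by omega, le_rfl, h1, agree_refl _ _,
        by omega⟩
    have h3 := (hF.qi g).1 _ _ _ h2
    have h4 := bd_spec S hS hsp hcomp hF g (bd S hS hsp hcomp hF h z) (y.lv + D6 A) y.w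
    have h5 := near_lv S h3
    rw [abs_le] at h5
    have h6 : 0 ≤ A * D6 A := by positivity
    refine S.trans _ _ _ _ (near_r S h3 ?_) (S.mono _ _ ?_ _ _ h4)
    · have := min_le_left (F g y).lv (F g ⟨y.lv + D6 A, bd S hS hsp hcomp hF h z, y.w⟩).lv
      omega
    · omega

theorem RR_nonneg {A : ℤ} (hA : 1 ≤ A) : 0 ≤ RR A := by
  unfold RR
  have := D1_nonneg hA
  have := D6_nonneg hA
  positivity

/-- the boundary action is an action by coarse similarities -/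
theorem bd_act (S : Scale Z) (hS : S.FinCls) (hsp : S.Split) (hcomp : S.Complete)
    (hsep : S.Sep) {A : ℤ} {G : Type*} [Group G] {F : G → Pt Z → Pt Z} (hF : Fam S A F) (z₀ : Z) :
    @Act Z S G _ (bdAction S hS hsp hcomp hsep hF) (fun g n => (F g ⟨n, z₀, w0⟩).lv) (D7 A) := by
  have hA := hF.hA
  have hD1 := D1_nonneg hA
  have hD6 := D6_nonneg hA
  have hRR := RR_nonneg hA
  have hARR : RR A ≤ A * RR A := by nlinarith
  have hRR2 : 3 * D1 A + D6 A + 2 ≤ RR A := by unfold RR; nlinarith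
  letI := bdAction S hS hsp hcomp hsep hF
  have hsm : ∀ (g : G) (z : Z), g • z = bd S hS hsp hcomp hF g z := fun _ _ => rfl
  have hlf : ∀ g n z, |(F g ⟨n, z, w0⟩).lv - (F g ⟨n, z₀, w0⟩).lv| ≤ D1 A := fun g n z =>
    (leaf S hS A hA (F g) (hF.qi g) n z z₀ w0).1
  refine ⟨?_, ?_, ?_, ?_, ?_⟩
  · unfold D7; omega
  · intro g n x y hxy
    rw [hsm, hsm]
    have h1 := bd_spec S hS hsp hcomp hF g x n w0
    have h2 := bd_spec S hS hsp hcomp hF g y n w0
    have h3 : near S 0 (⟨n, x, w0⟩ : Pt Z) ⟨n, y, w0⟩ :=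
      ⟨n, n, le_rfl, le_rfl, le_rfl, le_rfl, hxy, agree_refl _ _, by omega⟩
    have h4 := (hF.qi g).1 _ _ _ h3
    have h5 := hlf g n x
    have h6 := hlf g n y
    rw [abs_le] at h5 h6
    refine S.trans _ _ _ _ (S.mono _ _ ?_ _ _ (S.symm _ _ _ h1))
      (S.trans _ _ _ _ (near_r S h4 ?_) (S.mono _ _ ?_ _ _ h2))
    · unfold D7; omega
    · have := min_le_left (F g ⟨n, x, w0⟩).lv (F g ⟨n, y, w0⟩).lv
      unfold D7; omega
    · unfold D7; omega
  · intro g n x y hxy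
    rw [hsm, hsm] at hxy
    by_contra hcon
    set k := n - RR A with hk
    have h1 := bd_spec S hS hsp hcomp hF g x k w0
    have h2 := bd_spec S hS hsp hcomp hF g y k w0
    obtain ⟨h3, h4⟩ := leaf S hS A hA (F g) (hF.qi g) k x y w0
    rw [abs_le] at h3
    have h5 := near_lv S ((hF.qi g).1 _ _ _ (vert_near S x w0 (show k ≤ n by omega)))
    rw [abs_le] at h5
    have h6 := hlf g n x
    rw [abs_le] at h6
    have hkn : n - k = RR A := by omega
    rw [hkn] at h5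
    set a := (F g ⟨k, x, w0⟩).lv with ha
    set a' := (F g ⟨k, y, w0⟩).lv with ha'
    have h7 : S.r (a + D1 A + D6 A) (F g ⟨k, x, w0⟩).z (F g ⟨k, y, w0⟩).z := by
      refine S.trans _ _ _ _ (S.mono _ _ ?_ _ _ h1) (S.trans _ _ _ _ (S.mono _ _ ?_ _ _ hxy)
        (S.mono _ _ ?_ _ _ (S.symm _ _ _ h2)))
      · omega
      · unfold D7; omega
      · omega
    have h8 : near S (3 * D1 A + D6 A) (F g ⟨k, x, w0⟩) (F g ⟨k, y, w0⟩) :=
      ⟨a + D1 A + D6 A, min a a' - D1 A, by omega, by omega, by omega, by omega, h7, h4, by omega⟩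
    obtain ⟨H, L, g1, g2, g3, g4, g5, g6, g7⟩ := (hF.qi g).2 _ _ _ h8
    simp only at g1 g2 g3 g4 g5
    have hH : n + 1 ≤ H := by
      by_contra hH
      exact hcon (S.mono _ _ (by omega) _ _ g5)
    have : RR A = A * (3 * D1 A + D6 A) + 2 * A := by unfold RR; ring
    omega
  · intro z z' n n'
    obtain ⟨g, hg⟩ := hF.cob ⟨n, z, w0⟩ ⟨n', z', w0⟩
    refine ⟨g, ?_, ?_⟩
    · rw [hsm]
      have h1 := bd_spec S hS hsp hcomp hF g z n w0
      have h2 := near_lv S hg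
      rw [abs_le] at h2
      simp only at h2
      refine S.trans _ _ _ _ (S.mono _ _ ?_ _ _ (S.symm _ _ _ h1)) (near_r S hg ?_)
      · unfold D7; omega
      · have := min_le_right (F g ⟨n, z, w0⟩).lv n'
        simp only
        unfold D7; omega
    · have h2 := near_lv S hg
      have h3 := hlf g n z
      rw [abs_le] at h2 h3 ⊢
      simp only at h2
      unfold D7
      constructor <;> omega
  · intro g n
    have h5 := near_lv S ((hF.qi g).1 _ _ _ (vert_near S z₀ w0 (show n ≤ n + 1 by omega)))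
    have e : A * (n + 1 - n) + A = 2 * A := by ring
    rw [e] at h5
    have : 2 * A ≤ D7 A := by unfold D7; nlinarith
    rw [abs_sub_comm]
    exact h5.trans this

end Pool.Agent.Helper419.RT
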