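import Pool.Agent.Helper419.LFOrient
import Pool.Agent.Helper419.RTBd

/-! The boundary maps and the boundary action. -/

set_option autoImplicit false

namespace Pool.Agent.Helper419.LF

open Pool.Agent.Helper419.RT (Scale Act)

variable {Z : Type*} {S : Scale Z}

/-- levels tend to minus infinity -/
theorem lower {K D : ℕ} {F G : U Z → U Z} (h : QIP S K F G) (hF : Reg S D F) (hG : Reg S D G)
    (z : Z) (n k M : ℤ) (hM : (D : ℤ) ≤ M) (hk : D * M + D + 2 * K < k) :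
    (F ⟨n - k, z, 0, 0⟩).lv < (F ⟨n, z, 0, 0⟩).lv - M := by
  have hk0 : 0 ≤ k := by
    have : (0 : ℤ) ≤ D * M + D + 2 * K := by
      have : (0 : ℤ) ≤ M := by omega
      positivity
    omega
  have h1 := hG.lev (F ⟨n, z, 0, 0⟩) (F ⟨n - k, z, 0, 0⟩)
  have h2 := abs_le.1 (h.gf ⟨n, z, 0, 0⟩).lv
  have h3 := abs_le.1 (h.gf ⟨n - k, z, 0, 0⟩).lv
  have h4 := hF.ord ⟨n - k, z, 0, 0⟩ ⟨n, z, 0, 0⟩ (by simp only; omega)
  simp only at h2 h3
  by_contra hcon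
  push Not at hcon
  have h5 : |(F ⟨n, z, 0, 0⟩).lv - (F ⟨n - k, z, 0, 0⟩).lv| ≤ M := by
    rw [abs_le]; omega
  have h6 := mul_le_mul_of_nonneg_left h5 (show (0 : ℤ) ≤ D by positivity)
  have h7 := (abs_le.1 h1).2
  linarith [h2.1, h2.2, h3.1, h3.2]

/-- `z'` is the boundary value at `z` -/
def Bd (S : Scale Z) (c : ℤ) (F : U Z → U Z) (z z' : Z) : Prop :=
  ∀ n : ℤ, S.r ((F ⟨n, z, 0, 0⟩).lv + c) (F ⟨n, z, 0, 0⟩).z z'

theorem bd_exists {K D : ℕ} (hcomp : S.Complete) {F G : U Z → U Z} (h : QIP S K F G)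
    (hF : Reg S D F) (hG : Reg S D G) (z : Z) : ∃ z', Bd S D F z z' := by
  set ℓ0 := (F ⟨0, z, 0, 0⟩).lv with hℓ0
  let nn : ℕ → ℤ := fun j => -(D * (|ℓ0| + 2 * D + j) + D + 2 * K + 1)
  have hnn : ∀ j : ℕ, (F ⟨nn j, z, 0, 0⟩).lv + D ≤ -(j : ℤ) := by
    intro j
    have h1 := lower h hF hG z 0 (D * (|ℓ0| + 2 * D + j) + D + 2 * K + 1) (|ℓ0| + 2 * D + j)
      (by have := abs_nonneg ℓ0; omega) (by omega)
    rw [zero_sub] at h1
    have h2 := le_abs_self ℓ0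
    show (F ⟨-(D * (|ℓ0| + 2 * D + j) + D + 2 * K + 1), z, 0, 0⟩).lv + D ≤ -(j : ℤ)
    rw [← hℓ0] at h1
    linarith
  have hmono : ∀ j : ℕ, nn (j + 1) ≤ nn j := by
    intro j
    simp only [nn]
    push_cast
    have : (0 : ℤ) ≤ D := by positivity
    nlinarith
  obtain ⟨z', hz'⟩ := hcomp (fun j => (F ⟨nn j, z, 0, 0⟩).z) (by
    intro j
    have h1 := hF.rel ⟨nn (j + 1), z, 0, 0⟩ ⟨nn j, z, 0, 0⟩ (hmono j) (S.refl _ _)
    exact S.mono _ _ (hnn j) _ _ (S.symm _ _ _ h1))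
  refine ⟨z', fun n => ?_⟩
  -- choose a large index
  have hj : ∃ j : ℕ, nn j ≤ n ∧ -(j : ℤ) ≤ (F ⟨n, z, 0, 0⟩).lv + D := by
    rcases Nat.eq_zero_or_pos D with hD | hD
    · -- then levels are bounded, impossible
      exfalso
      have h1 := lower h hF hG z 0 (2 * K + 1) 0 (by omega) (by rw [hD]; simp)
      have h2 := abs_le.1 (hF.lev ⟨0, z, 0, 0⟩ ⟨0 - (2 * K + 1), z, 0, 0⟩)
      rw [hD] at h2
      simp only [Nat.cast_zero, zero_mul, add_zero] at h2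
      omega
    · refine ⟨n.natAbs + ((F ⟨n, z, 0, 0⟩).lv + D).natAbs, ?_, ?_⟩
      · simp only [nn]
        have h1 : (1 : ℤ) ≤ D := by exact_mod_cast hD
        have h2 : (n.natAbs : ℤ) ≤ |ℓ0| + 2 * D +
            ((n.natAbs + ((F ⟨n, z, 0, 0⟩).lv + D).natAbs : ℕ) : ℤ) := by
          have := abs_nonneg ℓ0
          omega
        have h3 : |ℓ0| + 2 * D + ((n.natAbs + ((F ⟨n, z, 0, 0⟩).lv + D).natAbs : ℕ) : ℤ) ≤
          D * (|ℓ0| + 2 * D + ((n.natAbs + ((F ⟨n, z, 0, 0⟩).lv + D).natAbs : ℕ) : ℤ)) := by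
          nlinarith [abs_nonneg n]
        have h4 : -n ≤ (n.natAbs : ℤ) := by omega
        omega
      · push_cast
        have := neg_abs_le ((F ⟨n, z, 0, 0⟩).lv + D)
        have := abs_nonneg n
        omega
  obtain ⟨j, hj1, hj2⟩ := hj
  have h1 := hF.rel ⟨nn j, z, 0, 0⟩ ⟨n, z, 0, 0⟩ hj1 (S.refl _ _)
  exact S.trans _ _ _ _ (S.symm _ _ _ h1) (S.mono _ _ hj2 _ _ (hz' j))

theorem bd_unique {K D : ℕ} (hsep : S.Sep) {F G : U Z → U Z} (h : QIP S K F G)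
    (hF : Reg S D F) (hG : Reg S D G) (z z' z'' : Z) (c c' : ℤ) (h1 : Bd S c F z z')
    (h2 : Bd S c' F z z'') : z' = z'' := by
  apply hsep
  intro j
  set M : ℤ := D + |(F ⟨0, z, 0, 0⟩).lv| + |c| + |c'| + j with hM
  have h3 := lower h hF hG z 0 (D * M + D + 2 * K + 1) M (by
    have := abs_nonneg (F ⟨0, z, 0, 0⟩).lv
    have := abs_nonneg c
    have := abs_nonneg c'
    omega) (by omega)
  have h4 := h1 (0 - (D * M + D + 2 * K + 1))
  have h5 := h2 (0 - (D * M + D + 2 * K + 1))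
  have h6 := le_abs_self (F ⟨0, z, 0, 0⟩).lv
  have h7 := le_abs_self c
  have h8 := le_abs_self c'
  have h9 := abs_nonneg c
  have h10 := abs_nonneg c'
  refine S.trans _ _ _ _ (S.symm _ _ _ (S.mono _ _ ?_ _ _ h4)) (S.mono _ _ ?_ _ _ h5)
  · omega
  · omega

theorem bd_comp {D : ℕ} {F F' : U Z → U Z} (hF' : Reg S D F') {z z' z'' : Z}
    {c c' : ℕ} (h1 : Bd S c F z z') (h2 : Bd S c' F' z' z'') :
    Bd S ((D * c + 2 * D + c' : ℕ)) (fun x => F' (F x)) z z'' := by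
  intro n
  have h3 := h1 n
  set u := F ⟨n, z, 0, 0⟩ with hu
  have h4 := hF'.rel u ⟨u.lv + c, z', 0, 0⟩ (by simp only; omega) h3
  have h5 := h2 (u.lv + c)
  have h6 := abs_le.1 (hF'.lev ⟨u.lv + c, z', 0, 0⟩ u)
  simp only [add_sub_cancel_left] at h6
  rw [abs_of_nonneg (show (0 : ℤ) ≤ c by positivity)] at h6
  have h7 : (0 : ℤ) ≤ D * c := by positivity
  refine S.trans _ _ _ _ (S.mono _ _ ?_ _ _ h4) (S.mono _ _ ?_ _ _ h5)
  · push_cast; linarith [h6.2, (show (0 : ℤ) ≤ c' by positivity)]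
  · push_cast; linarith [h6.2, (show (0 : ℤ) ≤ D by positivity)]

theorem bd_pert {F F' : U Z → U Z} {z z' : Z} {c d : ℕ} (hd : ∀ x, Reach S d (F x) (F' x))
    (h1 : Bd S c F z z') : Bd S ((2 * d + c : ℕ)) F' z z' := by
  intro n
  have h2 := h1 n
  have h3 := (hd ⟨n, z, 0, 0⟩).z ((F ⟨n, z, 0, 0⟩).lv + d) le_rfl
  have h4 := abs_le.1 (hd ⟨n, z, 0, 0⟩).lv
  refine S.trans _ _ _ _ (S.symm _ _ _ (S.mono _ _ ?_ _ _ h3)) (S.mono _ _ ?_ _ _ h2)
  · push_cast; linarith [h4.1, (show (0 : ℤ) ≤ c by positivity)]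
  · push_cast; linarith [h4.1, (show (0 : ℤ) ≤ d by positivity)]

theorem bd_id {F : U Z → U Z} {d : ℕ} (hd : ∀ x, Reach S d (F x) x) (z : Z) : Bd S d F z z := by
  intro n
  exact (hd ⟨n, z, 0, 0⟩).z _ le_rfl

/-- a family of quasi-isometries which is coarsely a group action with cobounded orbits -/
structure Fam (S : Scale Z) (K : ℕ) {Γ : Type*} [Group Γ] (F : Γ → U Z → U Z) : Prop where
  qi : ∀ g, QIP S K (F g) (F g⁻¹)
  mul : ∀ g h x, Reach S K (F g (F h x)) (F (g * h) x)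
  one : ∀ x, Reach S K (F 1 x) x
  cob : ∀ x y, ∃ g, Reach S K (F g x) y

section action

variable {K D : ℕ} {Γ : Type*} [Group Γ] {F : Γ → U Z → U Z}

/-- the boundary map of a member of a family -/
noncomputable def bd (hcomp : S.Complete) (hF : Fam S K F) (hreg : ∀ g, Reg S D (F g)) (g : Γ)
    (z : Z) : Z :=
  (bd_exists hcomp (hF.qi g) (hreg g) (hreg g⁻¹) z).choose

theorem bd_spec (hcomp : S.Complete) (hF : Fam S K F) (hreg : ∀ g, Reg S D (F g)) (g : Γ)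
    (z : Z) : Bd S D (F g) z (bd hcomp hF hreg g z) :=
  (bd_exists hcomp (hF.qi g) (hreg g) (hreg g⁻¹) z).choose_spec

/-- the boundary action -/
@[reducible] noncomputable def bdAction (hcomp : S.Complete) (hsep : S.Sep) (hF : Fam S K F)
    (hreg : ∀ g, Reg S D (F g)) : MulAction Γ Z where
  smul g z := bd hcomp hF hreg g z
  one_smul z := by
    show bd hcomp hF hreg 1 z = z
    exact bd_unique hsep (hF.qi 1) (hreg 1) (hreg 1⁻¹) z _ _ _ _ (bd_spec hcomp hF hreg 1 z)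
      (bd_id hF.one z)
  mul_smul g h z := by
    show bd hcomp hF hreg (g * h) z = bd hcomp hF hreg g (bd hcomp hF hreg h z)
    refine bd_unique hsep (hF.qi (g * h)) (hreg _) (hreg _) z _ _ _ _
      (bd_spec hcomp hF hreg (g * h) z)
      (bd_pert (hF.mul g h) (bd_comp (hreg g) (bd_spec hcomp hF hreg h z)
        (bd_spec hcomp hF hreg g (bd hcomp hF hreg h z))))

/-- the boundary action is an action by coarse similarities -/
theorem bd_act (hcomp : S.Complete) (hsep : S.Sep) (hF : Fam S K F)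
    (hreg : ∀ g, Reg S D (F g)) (z₀ : Z) :
    ∃ D' : ℤ, @Act Z S Γ _ (bdAction hcomp hsep hF hreg)
      (fun g n => (F g ⟨n, z₀, 0, 0⟩).lv) D' := by
  set D' : ℤ := D * (3 * D + K) + D + 2 * K + 1 + 2 * D + K + 1 with hD'
  have hD0 : (0 : ℤ) ≤ D := by positivity
  have hK0 : (0 : ℤ) ≤ K := by positivity
  have hDD : (0 : ℤ) ≤ D * (3 * D + K) := by positivity
  let _ := bdAction hcomp hsep hF hreg
  have hsm : ∀ g z, Bd S D (F g) z (g • z) := fun g z => bd_spec hcomp hF hreg g z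
  have hup : ∀ g n x y, S.r n x y → S.r ((F g ⟨n, z₀, 0, 0⟩).lv + 2 * D) (g • x) (g • y) := by
    intro g n x y hxy
    have h1 := hsm g x n
    have h2 := hsm g y n
    have h3 : F g ⟨n, x, 0, 0⟩ = F g ⟨n, y, 0, 0⟩ := (hF.qi g).feq _ _ ⟨rfl, hxy, rfl, rfl⟩
    rw [h3] at h1
    have h4 := abs_le.1 ((hreg g).lev ⟨n, y, 0, 0⟩ ⟨n, z₀, 0, 0⟩)
    simp only [sub_self, abs_zero, mul_zero, zero_add] at h4
    exact S.mono _ _ (by linarith [h4.2]) _ _ (S.trans _ _ _ _ (S.symm _ _ _ h1) h2)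
  refine ⟨D', ?_⟩
  refine @Act.mk Z S Γ _ _ _ _ (by omega) ?_ ?_ ?_ ?_
  · intro g n x y hxy
    exact S.mono _ _ (by show _ ≤ (F g ⟨n, z₀, 0, 0⟩).lv + D'; omega) _ _ (hup g n x y hxy)
  · intro g n x y hxy
    have h1 := hup g⁻¹ _ _ _ hxy
    rw [inv_smul_smul, inv_smul_smul] at h1
    refine S.mono _ _ ?_ _ _ h1
    have hq := (hF.qi g).symm
    have h2 := lower hq (hreg g⁻¹) (hreg g) z₀ (F g ⟨n, z₀, 0, 0⟩).lv D' (3 * D + K)
      (by omega) (by omega)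
    have h3 := abs_le.1 ((hF.qi g).gf ⟨n, z₀, 0, 0⟩).lv
    have h4 := abs_le.1 ((hreg g⁻¹).lev ⟨(F g ⟨n, z₀, 0, 0⟩).lv, z₀, 0, 0⟩ (F g ⟨n, z₀, 0, 0⟩))
    simp only [sub_self, abs_zero, mul_zero, zero_add] at h3 h4
    show (F g⁻¹ ⟨(F g ⟨n, z₀, 0, 0⟩).lv - D', z₀, 0, 0⟩).lv + 2 * D ≤ n
    linarith [h3.1, h3.2, h4.1, h4.2]
  · intro z z' n n'
    obtain ⟨g, hg⟩ := hF.cob ⟨n, z, 0, 0⟩ ⟨n', z', 0, 0⟩
    refine ⟨g, ?_, ?_⟩
    · have h1 := hsm g z n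
      have h2 := hg.symm.z (n' + K) (by simp)
      have h3 := abs_le.1 hg.lv
      simp only at h2 h3
      refine S.trans _ _ _ _ (S.symm _ _ _ (S.mono _ _ ?_ _ _ h1))
        (S.symm _ _ _ (S.mono _ _ ?_ _ _ h2))
      · linarith [h3.1]
      · linarith
    · have h3 := abs_le.1 hg.lv
      have h4 := abs_le.1 ((hreg g).lev ⟨n, z, 0, 0⟩ ⟨n, z₀, 0, 0⟩)
      simp only [sub_self, abs_zero, mul_zero, zero_add] at h3 h4
      show |(F g ⟨n, z₀, 0, 0⟩).lv - n'| ≤ D'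
      rw [abs_le]
      constructor <;> linarith [h3.1, h3.2, h4.1, h4.2]
  · intro g n
    have h4 := (hreg g).lev ⟨n + 1, z₀, 0, 0⟩ ⟨n, z₀, 0, 0⟩
    simp only [add_sub_cancel_left, abs_one, mul_one] at h4
    show |(F g ⟨n + 1, z₀, 0, 0⟩).lv - (F g ⟨n, z₀, 0, 0⟩).lv| ≤ D'
    linarith

end action

end Pool.Agent.Helper419.LF
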