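import Pool.Agent.Helper419.LFBase

/-! The fibre lemma: quasi-isometries coarsely preserve the fibres over the scale tree. -/

set_option autoImplicit false

namespace Pool.Agent.Helper419.LF

open Pool.Agent.Helper419.RT (Scale)

variable {Z : Type*} {S : Scale Z}

/-- close in the tree direction -/
def NearT (S : Scale Z) (R : ℤ) (x y : U Z) : Prop :=
  ∃ H, x.lv ≤ H ∧ y.lv ≤ H ∧ S.r H x.z y.z ∧ H - x.lv ≤ R ∧ H - y.lv ≤ R

/-- a pair of coarsely inverse quasi-isometries -/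
structure QIP (S : Scale Z) (K : ℕ) (F G : U Z → U Z) : Prop where
  f : ∀ r x y, Reach S r x y → Reach S (K * r + K) (F x) (F y)
  g : ∀ r x y, Reach S r x y → Reach S (K * r + K) (G x) (G y)
  feq : ∀ x y, Eqv S x y → F x = F y
  geq : ∀ x y, Eqv S x y → G x = G y
  fg : ∀ x, Reach S K (F (G x)) x
  gf : ∀ x, Reach S K (G (F x)) x

theorem QIP.symm {K : ℕ} {F G : U Z → U Z} (h : QIP S K F G) : QIP S K G F :=
  ⟨h.g, h.f, h.geq, h.feq, h.gf, h.fg⟩

theorem NearT.symm {R : ℤ} {x y : U Z} (h : NearT S R x y) : NearT S R y x := by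
  obtain ⟨H, h1, h2, h3, h4, h5⟩ := h
  exact ⟨H, h2, h1, S.symm _ _ _ h3, h5, h4⟩

theorem NearT.mono {R R' : ℤ} {x y : U Z} (h : NearT S R x y) (hR : R ≤ R') : NearT S R' x y := by
  obtain ⟨H, h1, h2, h3, h4, h5⟩ := h
  exact ⟨H, h1, h2, h3, by omega, by omega⟩

/-- counting with a cover by balls -/
theorem cover (t : ℤ → ℤ) (ht : Monotone t) (hc : S.Count t) (z : Z) (n : ℤ) {ι : Type*}
    (J : Finset ι) (c : ι → Z) (l : ι → ℤ) (hl : ∀ j ∈ J, l j ≤ n)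
    (hcov : ∀ x, S.r n z x → ∃ j ∈ J, S.r (l j) (c j) x) :
    (1 : ℝ) ≤ ∑ j ∈ J, (2 : ℝ) ^ (l j - n) := by
  classical
  -- choose a common small level
  obtain ⟨m, hmn, hm⟩ : ∃ m, m ≤ n ∧ ∀ j ∈ J, m ≤ l j := by
    induction J using Finset.induction_on with
    | empty => exact ⟨n, le_rfl, by simp⟩
    | insert a s has ih =>
      have : ∀ s' : Finset ι, ∃ m, m ≤ n ∧ ∀ j ∈ s', m ≤ l j := by
        intro s'
        induction s' using Finset.induction_on with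
        | empty => exact ⟨n, le_rfl, by simp⟩
        | insert b s'' _ ih' =>
          obtain ⟨m, h1, h2⟩ := ih'
          refine ⟨min m (l b), (min_le_left _ _).trans h1, ?_⟩
          intro j hj
          rcases Finset.mem_insert.1 hj with rfl | hj
          · exact min_le_right _ _
          · exact (min_le_left _ _).trans (h2 j hj)
      exact this _
  have hfin : ∀ j ∈ J, ((Quotient.mk (S.st m)) '' (S.ball (c j) (l j))).Finite := by
    intro j hj
    apply Set.finite_of_ncard_ne_zero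
    have := hc (c j) m (l j) (hm j hj)
    unfold Scale.num at this
    rw [this]
    positivity
  have hsub : ((Quotient.mk (S.st m)) '' (S.ball z n)) ⊆
      ⋃ j ∈ J, ((Quotient.mk (S.st m)) '' (S.ball (c j) (l j))) := by
    rintro _ ⟨x, hx, rfl⟩
    obtain ⟨j, hj, h⟩ := hcov x hx
    simp only [Set.mem_iUnion]
    exact ⟨j, hj, x, h, rfl⟩
  have h1 : S.num m (S.ball z n) ≤
      (⋃ j ∈ J, ((Quotient.mk (S.st m)) '' (S.ball (c j) (l j)))).ncard := by
    exact Set.ncard_le_ncard hsub (J.finite_toSet.biUnion hfin)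
  have h2 : (⋃ j ∈ J, ((Quotient.mk (S.st m)) '' (S.ball (c j) (l j)))).ncard ≤
      ∑ j ∈ J, S.num m (S.ball (c j) (l j)) := by
    have : ∀ s : Finset ι, (⋃ j ∈ s, ((Quotient.mk (S.st m)) '' (S.ball (c j) (l j)))).ncard ≤
      ∑ j ∈ s, S.num m (S.ball (c j) (l j)) := by
      intro s
      induction s using Finset.induction_on with
      | empty => simp
      | insert a s has ih =>
        rw [Finset.set_biUnion_insert, Finset.sum_insert has]
        refine (Set.ncard_union_le _ _).trans ?_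
        exact Nat.add_le_add le_rfl ih
    exact this J
  have h3 := h1.trans h2
  rw [hc z m n hmn] at h3
  have h4 : ((2 : ℝ) ^ (n - m).toNat * 3 ^ (t n - t m).toNat) ≤
      ∑ j ∈ J, ((2 : ℝ) ^ (l j - m).toNat * 3 ^ (t (l j) - t m).toNat) := by
    have h5 : ((2 ^ (n - m).toNat * 3 ^ (t n - t m).toNat : ℕ) : ℝ) ≤
      ((∑ j ∈ J, S.num m (S.ball (c j) (l j)) : ℕ) : ℝ) := by exact_mod_cast h3
    push_cast at h5
    refine h5.trans (le_of_eq ?_)
    apply Finset.sum_congr rfl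
    intro j hj
    rw [hc (c j) m (l j) (hm j hj)]
    push_cast
    rfl
  have h6 : ∀ j ∈ J, ((2 : ℝ) ^ (l j - m).toNat * 3 ^ (t (l j) - t m).toNat) ≤
      ((2 : ℝ) ^ (n - m).toNat * 3 ^ (t n - t m).toNat) * (2 : ℝ) ^ (l j - n) := by
    intro j hj
    have e1 : (2 : ℝ) ^ (l j - m).toNat = (2 : ℝ) ^ (n - m).toNat * (2 : ℝ) ^ (l j - n) := by
      rw [← zpow_natCast, ← zpow_natCast, ← zpow_add₀ (by norm_num)]
      congr 1
      have := hm j hj
      have := hl j hj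
      omega
    have e2 : (3 : ℝ) ^ (t (l j) - t m).toNat ≤ 3 ^ (t n - t m).toNat := by
      apply pow_le_pow_right₀ (by norm_num)
      have := ht (hl j hj)
      omega
    rw [e1]
    have : (0 : ℝ) < (2 : ℝ) ^ (n - m).toNat * (2 : ℝ) ^ (l j - n) := by positivity
    nlinarith
  have h7 := h4.trans (Finset.sum_le_sum h6)
  rw [← Finset.mul_sum] at h7
  have h8 : (0 : ℝ) < ((2 : ℝ) ^ (n - m).toNat * 3 ^ (t n - t m).toNat) := by positivity
  by_contra hcon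
  push Not at hcon
  nlinarith

/-- the box of fibre points near `u` -/
noncomputable def box (u : U Z) (T : ℕ) : Finset (ℤ × ℤ) :=
  (Finset.Icc (-(T : ℤ)) T ×ˢ Finset.Icc (-((T : ℤ) * (1 + T))) (T * (1 + T))).image
    (fun e => (u.p + e.2 - u.lv * e.1, u.q + e.1))

theorem box_card (u : U Z) (T : ℕ) : (box u T).card ≤ (2 * T + 1) ^ 3 := by
  unfold box
  refine Finset.card_image_le.trans ?_
  rw [Finset.card_product, Int.card_Icc, Int.card_Icc]
  have e1 : ((T : ℤ) + 1 - -(T : ℤ)).toNat = 2 * T + 1 := by omega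
  have e2 : ((T : ℤ) * (1 + T) + 1 - -((T : ℤ) * (1 + T))).toNat = 2 * (T * (1 + T)) + 1 := by
    have : ((T : ℤ) * (1 + T)) = ((T * (1 + T) : ℕ) : ℤ) := by push_cast; ring
    rw [this]; omega
  rw [e1, e2]
  nlinarith

theorem mem_box {u s : U Z} {T : ℕ} (h : Reach S T u s) : (s.p, s.q) ∈ box u T := by
  unfold box
  rw [Finset.mem_image]
  have h1 := h.q
  have h2 := h.p u.lv 0 (by simp)
  refine ⟨(s.q - u.q, (s.p - u.p) + u.lv * (s.q - u.q)), ?_, ?_⟩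
  · rw [Finset.mem_product]
    refine ⟨Finset.mem_Icc.2 (abs_le.1 h1), Finset.mem_Icc.2 ?_⟩
    have := abs_le.1 h2
    constructor
    · nlinarith [this.1]
    · nlinarith [this.2]
  · ext
    · simp only; ring
    · simp only; ring

/-- along a segment whose image leaves `Sub` there is a point whose image is close to the fibre -/
theorem seg {K : ℕ} {F G : U Z → U Z} (h : QIP S K F G) {m : ℤ} {ζ : Z} (d : ℕ → U Z) (N : ℕ)
    (hd : ∀ i < N, Reach S 1 (d i) (d (i + 1))) (h0 : Sub S m ζ (F (d 0)))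
    (hN : ¬ Sub S m ζ (F (d N))) :
    ∃ i ≤ N, ∃ a b, Reach S (2 * K) (F (d i)) ⟨m, ζ, a, b⟩ := by
  have : ∃ i < N, Sub S m ζ (F (d i)) ∧ ¬ Sub S m ζ (F (d (i + 1))) := by
    by_contra hcon
    push Not at hcon
    have : ∀ i ≤ N, Sub S m ζ (F (d i)) := by
      intro i
      induction i with
      | zero => exact fun _ => h0
      | succ i ih => exact fun hi => hcon i (by omega) (ih (by omega))
    exact hN (this N le_rfl)
  obtain ⟨i, hi, h1, h2⟩ := this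
  obtain ⟨s, hs, hr⟩ := crossing (h.f 1 _ _ (hd i hi)) h1 h2
  refine ⟨i, hi.le, s.p, s.q, ?_⟩
  have hr2 := hr.mono (show K * 1 + K ≤ 2 * K by omega)
  refine hr2.eqv_right ⟨hs.1, ?_, rfl, rfl⟩
  have := S.symm _ _ _ hs.2
  rw [hs.1]; exact this

theorem seg' {K : ℕ} {F G : U Z → U Z} (h : QIP S K F G) {m : ℤ} {ζ : Z} (d : ℕ → U Z) (N : ℕ)
    (hd : ∀ i < N, Reach S 1 (d i) (d (i + 1))) (h0 : ¬ Sub S m ζ (F (d 0)))
    (hN : Sub S m ζ (F (d N))) :
    ∃ i ≤ N, ∃ a b, Reach S (2 * K) (F (d i)) ⟨m, ζ, a, b⟩ := by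
  obtain ⟨i, hi, a, b, hab⟩ := seg h (m := m) (ζ := ζ) (fun i => d (N - i)) N (by
      intro i hi
      have := (hd (N - i - 1) (by omega)).symm
      have e1 : N - i - 1 + 1 = N - i := by omega
      have e2 : N - (i + 1) = N - i - 1 := by omega
      rw [e1] at this
      rw [e2]
      exact this) (by simpa using hN) (by simpa using h0)
  exact ⟨N - i, by omega, a, b, hab⟩

/-- tail estimate -/
theorem tail_small (K ρ : ℕ) : ∃ i0 : ℕ, ∀ r : ℕ,
    ∑ i ∈ Finset.Icc i0 r, ((2 * (K * i + 3 * K) + 1 : ℕ) : ℝ) ^ 3 * (2 : ℝ) ^ ρ / (2 : ℝ) ^ i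
      < 1 / 8 := by
  have h1 : Summable (fun n : ℕ => (n : ℝ) ^ 3 * (1 / 2 : ℝ) ^ n) :=
    summable_pow_mul_geometric_of_norm_lt_one 3 (by norm_num)
  have h2 : Summable (fun n : ℕ => ((n + 1 : ℕ) : ℝ) ^ 3 * (1 / 2 : ℝ) ^ (n + 1)) :=
    (summable_nat_add_iff 1).2 h1
  have h3 : Summable (fun i : ℕ =>
      ((2 * (K * i + 3 * K) + 1 : ℕ) : ℝ) ^ 3 * (2 : ℝ) ^ ρ / (2 : ℝ) ^ i) := by
    refine Summable.of_nonneg_of_le (fun i => by positivity) (fun i => ?_)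
      (h2.mul_left ((6 * K + 1 : ℝ) ^ 3 * 2 ^ ρ * 2))
    have e1 : ((2 * (K * i + 3 * K) + 1 : ℕ) : ℝ) ≤ (6 * K + 1 : ℝ) * ((i + 1 : ℕ) : ℝ) := by
      have : (2 * (K * i + 3 * K) + 1 : ℕ) ≤ (6 * K + 1) * (i + 1) := by nlinarith
      exact_mod_cast this
    have e2 : ((2 * (K * i + 3 * K) + 1 : ℕ) : ℝ) ^ 3 ≤
        ((6 * K + 1 : ℝ) * ((i + 1 : ℕ) : ℝ)) ^ 3 := by gcongr
    calc ((2 * (K * i + 3 * K) + 1 : ℕ) : ℝ) ^ 3 * (2 : ℝ) ^ ρ / (2 : ℝ) ^ i
        ≤ ((6 * K + 1 : ℝ) * ((i + 1 : ℕ) : ℝ)) ^ 3 * (2 : ℝ) ^ ρ / (2 : ℝ) ^ i := by gcongr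
      _ = (6 * K + 1 : ℝ) ^ 3 * 2 ^ ρ * 2 * (((i + 1 : ℕ) : ℝ) ^ 3 * (1 / 2) ^ (i + 1)) := by
        rw [one_div, inv_pow, pow_succ (2:ℝ) i, mul_pow]
        field_simp
  rw [summable_iff_vanishing_norm] at h3
  obtain ⟨s, hs⟩ := h3 (1 / 8) (by norm_num)
  refine ⟨s.sup id + 1, fun r => ?_⟩
  have := hs (Finset.Icc (s.sup id + 1) r) (by
    rw [Finset.disjoint_left]
    intro a ha ha'
    have h4 := Finset.le_sup (f := id) ha'
    have h5 := (Finset.mem_Icc.1 ha).1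
    simp only [id] at h4
    omega)
  rw [Real.norm_eq_abs] at this
  exact (abs_lt.1 this).2

theorem poly_small (c ρ : ℕ) : ∃ r0 : ℕ, ∀ r ≥ r0,
    ((c * (r + 1) : ℕ) : ℝ) ^ 3 * (2 : ℝ) ^ ρ / (2 : ℝ) ^ r < 1 / 8 := by
  have h1 : Summable (fun n : ℕ => (n : ℝ) ^ 3 * (1 / 2 : ℝ) ^ n) :=
    summable_pow_mul_geometric_of_norm_lt_one 3 (by norm_num)
  have h2 : Summable (fun n : ℕ => ((n + 1 : ℕ) : ℝ) ^ 3 * (1 / 2 : ℝ) ^ (n + 1)) :=
    (summable_nat_add_iff 1).2 h1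
  have h3 := (h2.mul_left ((c : ℝ) ^ 3 * 2 ^ ρ * 2)).tendsto_atTop_zero
  have h4 := h3.eventually (gt_mem_nhds (show (0 : ℝ) < 1 / 8 by norm_num))
  rw [Filter.eventually_atTop] at h4
  obtain ⟨r0, hr0⟩ := h4
  refine ⟨r0, fun r hr => ?_⟩
  refine lt_of_le_of_lt (le_of_eq ?_) (hr0 r hr)
  rw [one_div, inv_pow, pow_succ (2:ℝ) r]
  push_cast
  rw [mul_pow]
  field_simp

end Pool.Agent.Helper419.LF
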