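import Pool.Agent.Helper419.LFFibre

/-! The fibre lemma: quasi-isometries coarsely preserve the fibres over the scale tree. -/

set_option autoImplicit false

namespace Pool.Agent.Helper419.LF

open Pool.Agent.Helper419.RT (Scale)

variable {Z : Type*} {S : Scale Z}

theorem step_q (n : ℤ) (z : Z) (p q ε : ℤ) (hε : ε = 0 ∨ ε = 1 ∨ ε = -1) (i : ℕ) :
    Reach S 1 ⟨n, z, p - n * (ε * i), q + ε * i⟩
      ⟨n, z, p - n * (ε * (i + 1 : ℕ)), q + ε * (i + 1 : ℕ)⟩ := by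
  rcases hε with rfl | rfl | rfl
  · have e : (⟨n, z, p - n * (0 * i), q + 0 * i⟩ : U Z) =
      ⟨n, z, p - n * (0 * (i + 1 : ℕ)), q + 0 * (i + 1 : ℕ)⟩ := by simp
    rw [e]; exact Reach.refl _ _
  · apply Step.reach
    refine Or.inr (Or.inl ⟨rfl, S.refl _ _, Or.inr (Or.inl ⟨?_, ?_⟩)⟩)
    · simp only; push_cast; ring
    · simp only; push_cast; ring
  · apply Step.reach
    refine Or.inr (Or.inl ⟨rfl, S.refl _ _, Or.inr (Or.inr ⟨?_, ?_⟩)⟩)
    · simp only; push_cast; ring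
    · simp only; push_cast; ring

theorem step_e1 (n : ℤ) (z : Z) (p q ε : ℤ) (hε : ε = 0 ∨ ε = 1 ∨ ε = -1) (i : ℕ) :
    Reach S 1 ⟨n, z, p + ε * i, q⟩ ⟨n, z, p + ε * (i + 1 : ℕ), q⟩ := by
  rcases hε with rfl | rfl | rfl
  · have e : (⟨n, z, p + 0 * i, q⟩ : U Z) = ⟨n, z, p + 0 * (i + 1 : ℕ), q⟩ := by simp
    rw [e]; exact Reach.refl _ _
  · apply Step.reach
    refine Or.inr (Or.inl ⟨rfl, S.refl _ _, Or.inl ⟨rfl, Or.inl ?_⟩⟩)
    simp only; push_cast; ring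
  · apply Step.reach
    refine Or.inr (Or.inl ⟨rfl, S.refl _ _, Or.inl ⟨rfl, Or.inr ?_⟩⟩)
    simp only; push_cast; ring

theorem sign_cases (a : ℤ) : a.sign = 0 ∨ a.sign = 1 ∨ a.sign = -1 := by
  rcases lt_trichotomy a 0 with h | h | h
  · exact Or.inr (Or.inr (Int.sign_eq_neg_one_of_neg h))
  · exact Or.inl (by rw [h]; rfl)
  · exact Or.inr (Or.inl (Int.sign_eq_one_of_pos h))

theorem step_down (n : ℤ) (z : Z) (p q : ℤ) (i : ℕ) :
    Reach S 1 ⟨n - i, z, p, q⟩ ⟨n - (i + 1 : ℕ), z, p, q⟩ := by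
  apply Step.reach
  refine Or.inr (Or.inr ⟨rfl, rfl, Or.inr ⟨?_, S.refl _ _⟩⟩)
  simp only; push_cast; ring

/-- the main counting argument -/
theorem fibre_core (t : ℤ → ℤ) (ht : Monotone t) (hc : S.Count t) (K ρ i1 : ℕ)
    (hρ : ρ = K + (K * (2 * K) + K)) (hi1 : ρ ≤ i1)
    (htail : ∀ r : ℕ,
    ∑ i ∈ Finset.Icc i1 r, ((2 * (K * i + 3 * K) + 1 : ℕ) : ℝ) ^ 3 * (2 : ℝ) ^ ρ / (2 : ℝ) ^ i
      < 1 / 8)
    {F G : U Z → U Z} (h : QIP S K F G) (n : ℤ) (z : Z) (p q p' q' : ℤ) (H : ℤ)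
    (hmin : ∀ H', (F ⟨n, z, p, q⟩).lv ≤ H' → (F ⟨n, z, p', q'⟩).lv ≤ H' →
      S.r H' (F ⟨n, z, p, q⟩).z (F ⟨n, z, p', q'⟩).z → H ≤ H')
    (hbig : 2 * (K * i1 + 3 * K + 1 : ℤ) < H - (F ⟨n, z, p, q⟩).lv) : False := by
  set x : U Z := ⟨n, z, p, q⟩ with hx
  set y : U Z := ⟨n, z, p', q'⟩ with hy
  set m : ℤ := (F x).lv + (K * i1 + 3 * K + 1) with hm
  set ζ : Z := (F x).z with hζ
  have hK0 : (0 : ℤ) ≤ K * i1 + 3 * K + 1 := by positivity
  have hsub0 : Sub S m ζ (F x) := ⟨by omega, S.refl _ _⟩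
  have hsub1 : ¬ Sub S m ζ (F y) := by
    rintro ⟨h1, h2⟩
    have := hmin m (by omega) h1 h2
    omega
  have far1 : ∀ T : ℕ, ∀ a b, Reach S T (F x) ⟨m, ζ, a, b⟩ → (K * i1 + 3 * K + 1 : ℤ) ≤ T := by
    intro T a b hT
    have := abs_le.1 hT.lv
    simp only at this
    omega
  have far2 : ∀ T : ℕ, ∀ a b, Reach S T (F y) ⟨m, ζ, a, b⟩ → (K * i1 + 3 * K + 1 : ℤ) ≤ T := by
    intro T a b hT
    have h1 := abs_le.1 hT.lv
    simp only at h1
    have h2 := hT.symm.z (m + T) (by simp)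
    simp only at h2
    have h3 := hmin (m + T) (by omega) (by omega) h2
    omega
  have idx : ∀ i : ℕ, (K * i1 + 3 * K + 1 : ℤ) ≤ ((K * i + K + 2 * K : ℕ) : ℤ) → i1 ≤ i := by
    intro i hi
    by_contra hcon
    push Not at hcon
    have : (K : ℤ) * i ≤ K * i1 := by
      apply mul_le_mul_of_nonneg_left _ (by positivity)
      exact_mod_cast hcon.le
    push_cast at hi
    omega
  -- the horizontal path
  set A0 : ℕ := (q' - q).natAbs + (p' - p + n * (q' - q)).natAbs with hA0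
  obtain ⟨r0, hr0⟩ := poly_small (2 * K * (A0 + 1) + 6 * K + 1) ρ
  set r : ℕ := max r0 ρ with hr
  set D : ℤ := p' - (p - (n - r) * (q' - q)) with hD
  set ℓ : ℕ := (q' - q).natAbs + D.natAbs with hℓ
  have hℓb : ℓ ≤ A0 + A0 * r := by
    have e : D = (p' - p + n * (q' - q)) - r * (q' - q) := by rw [hD]; ring
    have h1 : D.natAbs ≤ (p' - p + n * (q' - q)).natAbs + r * (q' - q).natAbs := by
      rw [e]
      refine (Int.natAbs_sub_le _ _).trans ?_
      rw [Int.natAbs_mul]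
      simp
    have h2 : r * (q' - q).natAbs ≤ A0 * r := by
      rw [mul_comm]
      exact Nat.mul_le_mul_right _ (by omega)
    omega
  -- index set
  let J1 : Finset (Σ _ : ℕ, ℤ × ℤ) := (Finset.Icc i1 r).sigma fun i => box (F x) (K * i + 3 * K)
  let J2 : Finset (Σ _ : ℕ, ℤ × ℤ) := (Finset.Icc i1 r).sigma fun i => box (F y) (K * i + 3 * K)
  let J3 : Finset (ℤ × ℤ) := box (F x) (K * (r + ℓ) + 3 * K)
  let J := J1.disjSum (J2.disjSum J3)
  let cc : (Σ _ : ℕ, ℤ × ℤ) ⊕ ((Σ _ : ℕ, ℤ × ℤ) ⊕ (ℤ × ℤ)) → Z :=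
    Sum.elim (fun j => (G ⟨m, ζ, j.2.1, j.2.2⟩).z)
      (Sum.elim (fun j => (G ⟨m, ζ, j.2.1, j.2.2⟩).z) (fun j => (G ⟨m, ζ, j.1, j.2⟩).z))
  let ll : (Σ _ : ℕ, ℤ × ℤ) ⊕ ((Σ _ : ℕ, ℤ × ℤ) ⊕ (ℤ × ℤ)) → ℤ :=
    Sum.elim (fun j => n - j.1 + ρ) (Sum.elim (fun j => n - j.1 + ρ) (fun _ => n - r + ρ))
  have hll : ∀ j ∈ J, ll j ≤ n := by
    intro j hj
    rcases Finset.mem_disjSum.1 hj with ⟨j', hj', rfl⟩ | ⟨j', hj', rfl⟩
    · simp only [ll, Sum.elim_inl]
      have := (Finset.mem_Icc.1 (Finset.mem_sigma.1 hj').1).1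
      omega
    · rcases Finset.mem_disjSum.1 hj' with ⟨j'', hj'', rfl⟩ | ⟨j'', hj'', rfl⟩
      · simp only [ll, Sum.elim_inr, Sum.elim_inl]
        have := (Finset.mem_Icc.1 (Finset.mem_sigma.1 hj'').1).1
        omega
      · simp only [ll, Sum.elim_inr]
        have : ρ ≤ r := le_max_right _ _
        omega
  have hgen : ∀ d : U Z, ∀ a b, Reach S (2 * K) (F d) ⟨m, ζ, a, b⟩ → ∀ N, d.lv + ρ ≤ N →
      S.r N (G ⟨m, ζ, a, b⟩).z d.z := by
    intro d a b hd N hN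
    have h1 := (h.gf d).symm.trans (h.g _ _ _ hd)
    rw [← hρ] at h1
    exact S.symm _ _ _ (h1.z N hN)
  have hcov : ∀ lam, S.r n z lam → ∃ j ∈ J, S.r (ll j) (cc j) lam := by
    intro lam hlam
    have hd0 : F ⟨n - (0 : ℕ), lam, p, q⟩ = F x := by
      apply h.feq
      exact ⟨by simp [hx], by simpa using S.symm _ _ _ hlam, rfl, rfl⟩
    have hd0' : F ⟨n - (0 : ℕ), lam, p', q'⟩ = F y := by
      apply h.feq
      exact ⟨by simp [hy], by simpa using S.symm _ _ _ hlam, rfl, rfl⟩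
    have hvert : ∀ (a b : ℤ) (i : ℕ), Reach S i ⟨n - (0 : ℕ), lam, a, b⟩ ⟨n - i, lam, a, b⟩ := by
      intro a b i
      have := reach_vert (S := S) (n - (0 : ℕ)) (n - i) lam lam a b (S.refl _ _)
      refine this.mono ?_
      omega
    by_cases hc1 : Sub S m ζ (F ⟨n - r, lam, p, q⟩)
    · by_cases hc2 : Sub S m ζ (F ⟨n - r, lam, p', q'⟩)
      · -- second vertical segment
        obtain ⟨i, hi, a, b, hab⟩ := seg' h (m := m) (ζ := ζ)
          (fun i => (⟨n - i, lam, p', q'⟩ : U Z)) r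
          (fun i _ => step_down n lam p' q' i) (by
            show ¬ Sub S m ζ (F ⟨n - (0 : ℕ), lam, p', q'⟩)
            rw [hd0']; exact hsub1) hc2
        have h1 : Reach S (K * i + K + 2 * K) (F y) ⟨m, ζ, a, b⟩ := by
          have := h.f _ _ _ (hvert p' q' i)
          rw [hd0'] at this
          exact this.trans hab
        have h2 := idx i (far2 _ _ _ h1)
        refine ⟨Sum.inr (Sum.inl ⟨i, (a, b)⟩), ?_, ?_⟩
        · refine Finset.inr_mem_disjSum.2 (Finset.inl_mem_disjSum.2 (Finset.mem_sigma.2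
            ⟨Finset.mem_Icc.2 ⟨h2, hi⟩, ?_⟩))
          exact mem_box (h1.mono (by simp only; omega))
        · exact hgen _ a b hab _ le_rfl
      · -- horizontal part
        have hpath : ∃ (a b a' b' : ℤ), (∃ r' ≤ r + ℓ, Reach S r' ⟨n - (0 : ℕ), lam, p, q⟩
            ⟨n - r, lam, a', b'⟩) ∧
            Reach S (2 * K) (F ⟨n - r, lam, a', b'⟩) ⟨m, ζ, a, b⟩ := by
          by_cases hc3 : Sub S m ζ (F ⟨n - r, lam, p - (n - r) * (q' - q), q'⟩)
          · -- e1 part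
            have hs := sign_cases D
            have hend : ∀ c : U Z → Prop, c ⟨n - r, lam, p', q'⟩ →
                c ⟨n - r, lam, p - (n - r) * (q' - q) + D.sign * (D.natAbs : ℕ), q'⟩ := by
              intro c hcc
              have : p - (n - r) * (q' - q) + D.sign * (D.natAbs : ℕ) = p' := by
                rw [Int.sign_mul_natAbs, hD]; ring
              rw [this]; exact hcc
            obtain ⟨i, hi, a, b, hab⟩ := seg h (m := m) (ζ := ζ)
              (fun i => (⟨n - r, lam, p - (n - r) * (q' - q) + D.sign * (i : ℕ), q'⟩ : U Z))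
              D.natAbs (fun i _ => step_e1 _ _ _ _ _ hs i) (by simpa using hc3)
              (hend (fun u => ¬ Sub S m ζ (F u)) hc2)
            refine ⟨a, b, _, _, ⟨r + ((q' - q).natAbs + i), by omega, ?_⟩, hab⟩
            have h1 := hvert p q r
            have h2 := reach_q (S := S) (n - r) lam p q (q' - q)
            have h3 := reach_e1 (S := S) (n - r) lam (p - (n - r) * (q' - q)) q'
              (D.sign * (i : ℕ))
            have e2 : q + (q' - q) = q' := by ring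
            rw [e2] at h2
            refine h1.trans ((h2.trans h3).mono ?_)
            have : (D.sign * (i : ℕ)).natAbs ≤ i := by
              rw [Int.natAbs_mul]
              rcases hs with h4 | h4 | h4 <;> rw [h4] <;> simp
            omega
          · -- q part
            have hs := sign_cases (q' - q)
            have hend : ∀ c : U Z → Prop, c ⟨n - r, lam, p - (n - r) * (q' - q), q'⟩ →
                c ⟨n - r, lam, p - (n - r) * ((q' - q).sign * ((q' - q).natAbs : ℕ)),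
                  q + (q' - q).sign * ((q' - q).natAbs : ℕ)⟩ := by
              intro c hcc
              rw [Int.sign_mul_natAbs]
              have : q + (q' - q) = q' := by ring
              rw [this]; exact hcc
            obtain ⟨i, hi, a, b, hab⟩ := seg h (m := m) (ζ := ζ)
              (fun i => (⟨n - r, lam, p - (n - r) * ((q' - q).sign * (i : ℕ)),
                q + (q' - q).sign * (i : ℕ)⟩ : U Z))
              (q' - q).natAbs (fun i _ => step_q _ _ _ _ _ hs i) (by simpa using hc1)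
              (hend (fun u => ¬ Sub S m ζ (F u)) hc3)
            refine ⟨a, b, _, _, ⟨r + i, by omega, ?_⟩, hab⟩
            have h1 := hvert p q r
            have h2 := reach_q (S := S) (n - r) lam p q ((q' - q).sign * (i : ℕ))
            refine h1.trans (h2.mono ?_)
            rw [Int.natAbs_mul]
            rcases hs with h4 | h4 | h4 <;> rw [h4] <;> simp
        obtain ⟨a, b, a', b', ⟨r', hr', h1⟩, h2⟩ := hpath
        have h3 := h.f _ _ _ h1
        rw [hd0] at h3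
        have h4 := h3.trans h2
        refine ⟨Sum.inr (Sum.inr (a, b)), ?_, ?_⟩
        · refine Finset.inr_mem_disjSum.2 (Finset.inr_mem_disjSum.2 ?_)
          apply mem_box (s := ⟨m, ζ, a, b⟩)
          refine h4.mono ?_
          have : K * r' ≤ K * (r + ℓ) := Nat.mul_le_mul_left _ hr'
          omega
        · exact hgen _ a b h2 _ le_rfl
    · obtain ⟨i, hi, a, b, hab⟩ := seg h (m := m) (ζ := ζ)
          (fun i => (⟨n - i, lam, p, q⟩ : U Z)) r
          (fun i _ => step_down n lam p q i) (by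
            show Sub S m ζ (F ⟨n - (0 : ℕ), lam, p, q⟩)
            rw [hd0]; exact hsub0) hc1
      have h1 : Reach S (K * i + K + 2 * K) (F x) ⟨m, ζ, a, b⟩ := by
        have := h.f _ _ _ (hvert p q i)
        rw [hd0] at this
        exact this.trans hab
      have h2 := idx i (far1 _ _ _ h1)
      refine ⟨Sum.inl ⟨i, (a, b)⟩, ?_, ?_⟩
      · refine Finset.inl_mem_disjSum.2 (Finset.mem_sigma.2 ⟨Finset.mem_Icc.2 ⟨h2, hi⟩, ?_⟩)
        exact mem_box (h1.mono (by simp only; omega))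
      · exact hgen _ a b hab _ le_rfl
  have hsum := cover t ht hc z n J cc ll hll hcov
  have hbox : ∀ (u : U Z) (T : ℕ) (e : ℤ), ∑ _j ∈ box u T, (2 : ℝ) ^ e ≤
      ((2 * T + 1 : ℕ) : ℝ) ^ 3 * (2 : ℝ) ^ e := by
    intro u T e
    rw [Finset.sum_const, nsmul_eq_mul]
    have h1 : ((box u T).card : ℝ) ≤ ((2 * T + 1 : ℕ) : ℝ) ^ 3 := by exact_mod_cast box_card u T
    gcongr
  have hpw : ∀ i : ℕ, (2 : ℝ) ^ (n - (i : ℤ) + ρ - n) = (2 : ℝ) ^ ρ / (2 : ℝ) ^ i := by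
    intro i
    have : n - (i : ℤ) + ρ - n = (ρ : ℤ) - i := by ring
    rw [this, zpow_sub₀ (by norm_num), zpow_natCast, zpow_natCast]
  have hvs : ∀ u : U Z, ∑ j ∈ (Finset.Icc i1 r).sigma (fun i => box u (K * i + 3 * K)),
      (2 : ℝ) ^ (n - (j.1 : ℤ) + ρ - n) < 1 / 8 := by
    intro u
    rw [Finset.sum_sigma]
    refine lt_of_le_of_lt (Finset.sum_le_sum (g := fun i : ℕ =>
      ((2 * (K * i + 3 * K) + 1 : ℕ) : ℝ) ^ 3 * (2 : ℝ) ^ ρ / (2 : ℝ) ^ i) fun i _ => ?_) (htail r)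
    have := hbox u (K * i + 3 * K) (n - (i : ℤ) + ρ - n)
    rw [hpw, ← mul_div_assoc] at this
    simp only [hpw] at this ⊢
    exact this
  have h3s : ∑ j ∈ J3, (2 : ℝ) ^ (n - (r : ℤ) + ρ - n) < 1 / 8 := by
    refine lt_of_le_of_lt (hbox _ _ _) ?_
    rw [hpw, ← mul_div_assoc]
    refine lt_of_le_of_lt ?_ (hr0 r (le_max_left _ _))
    have h5 : (2 * (K * (r + ℓ) + 3 * K) + 1 : ℕ) ≤ (2 * K * (A0 + 1) + 6 * K + 1) * (r + 1) := by
      have h6 : K * (r + ℓ) ≤ K * ((A0 + 1) * (r + 1)) := by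
        apply Nat.mul_le_mul_left
        nlinarith
      nlinarith
    have h6 : ((2 * (K * (r + ℓ) + 3 * K) + 1 : ℕ) : ℝ) ≤
        (((2 * K * (A0 + 1) + 6 * K + 1) * (r + 1) : ℕ) : ℝ) := by exact_mod_cast h5
    gcongr
  have htot : ∑ j ∈ J, (2 : ℝ) ^ (ll j - n) < 1 := by
    simp only [J]
    rw [Finset.sum_disjSum, Finset.sum_disjSum]
    simp only [ll, Sum.elim_inl, Sum.elim_inr]
    have h1 := hvs (F x)
    have h2 := hvs (F y)
    linarith
  linarith

/-- quasi-isometries coarsely preserve the fibres -/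
theorem fibre (t : ℤ → ℤ) (ht : Monotone t) (hc : S.Count t) (K : ℕ) :
    ∃ R : ℕ, ∀ F G : U Z → U Z, QIP S K F G → ∀ n z p q p' q',
      NearT S R (F ⟨n, z, p, q⟩) (F ⟨n, z, p', q'⟩) := by
  set ρ : ℕ := K + (K * (2 * K) + K) with hρ
  obtain ⟨i0, hi0⟩ := tail_small K ρ
  set i1 : ℕ := max i0 ρ with hi1
  have htail : ∀ r : ℕ, ∑ i ∈ Finset.Icc i1 r,
      ((2 * (K * i + 3 * K) + 1 : ℕ) : ℝ) ^ 3 * (2 : ℝ) ^ ρ / (2 : ℝ) ^ i < 1 / 8 := by
    intro r
    refine lt_of_le_of_lt (Finset.sum_le_sum_of_subset_of_nonneg ?_ fun i _ _ => by positivity)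
      (hi0 r)
    exact Finset.Icc_subset_Icc_left (le_max_left _ _)
  refine ⟨2 * (K * i1 + 3 * K + 1), fun F G h n z p q p' q' => ?_⟩
  by_contra hcon
  -- minimal common level
  have hex : ∃ k : ℕ, S.r (max (F ⟨n, z, p, q⟩).lv (F ⟨n, z, p', q'⟩).lv + k)
      (F ⟨n, z, p, q⟩).z (F ⟨n, z, p', q'⟩).z := by
    obtain ⟨N, hN⟩ := S.exh (F ⟨n, z, p, q⟩).z (F ⟨n, z, p', q'⟩).z
    refine ⟨(N - max (F ⟨n, z, p, q⟩).lv (F ⟨n, z, p', q'⟩).lv).toNat, S.mono _ _ ?_ _ _ hN⟩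
    omega
  classical
  set k0 := Nat.find hex with hk0
  set H : ℤ := max (F ⟨n, z, p, q⟩).lv (F ⟨n, z, p', q'⟩).lv + k0 with hH
  have hmin : ∀ H', (F ⟨n, z, p, q⟩).lv ≤ H' → (F ⟨n, z, p', q'⟩).lv ≤ H' →
      S.r H' (F ⟨n, z, p, q⟩).z (F ⟨n, z, p', q'⟩).z → H ≤ H' := by
    intro H' h1 h2 h3
    have h4 : k0 ≤ (H' - max (F ⟨n, z, p, q⟩).lv (F ⟨n, z, p', q'⟩).lv).toNat := by
      apply Nat.find_min'
      refine S.mono _ _ ?_ _ _ h3
      omega
    omega
  have h1 : ¬ (H - (F ⟨n, z, p, q⟩).lv ≤ (2 * (K * i1 + 3 * K + 1) : ℕ) ∧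
      H - (F ⟨n, z, p', q'⟩).lv ≤ (2 * (K * i1 + 3 * K + 1) : ℕ)) := by
    rintro ⟨h1, h2⟩
    exact hcon ⟨H, by omega, by omega, Nat.find_spec hex, h1, h2⟩
  rw [not_and_or] at h1
  rcases h1 with h1 | h1
  · exact fibre_core t ht hc K ρ i1 hρ (le_max_right _ _) htail h n z p q p' q' H hmin
      (by push Not at h1; push_cast at h1; linarith)
  · exact fibre_core t ht hc K ρ i1 hρ (le_max_right _ _) htail h n z p' q' p q H
      (fun H' h2 h3 h4 => hmin H' h3 h2 (S.symm _ _ _ h4))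
      (by push Not at h1; push_cast at h1; linarith)

end Pool.Agent.Helper419.LF
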