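import Pool.Agent.Helper419.LFBd

/-! The graph and its metric. -/

set_option autoImplicit false

namespace Pool.Agent.Helper419.LF

open Pool.Agent.Helper419.RT (Scale)

variable {Z : Type*} (S : Scale Z)

/-- equality of vertices -/
def eqvSetoid : Setoid (U Z) where
  r := Eqv S
  iseqv := ⟨fun x => Eqv.refl x, fun h => Eqv.symm h, fun h h' => Eqv.trans h h'⟩

/-- the vertex set -/
def Vx : Type _ := Quotient (eqvSetoid S)

/-- the vertex of a point -/
def mkV (x : U Z) : Vx S := Quotient.mk (eqvSetoid S) x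

/-- the graph -/
def graph : SimpleGraph (Vx S) where
  Adj a b := a ≠ b ∧ ∃ x y, mkV S x = a ∧ mkV S y = b ∧ Step S x y
  symm := ⟨by
    rintro a b ⟨h, x, y, h1, h2, h3⟩
    exact ⟨h.symm, y, x, h2, h1, h3.symm⟩⟩
  loopless := ⟨fun x h => h.1 rfl⟩

variable {S}

theorem mkV_eq {x y : U Z} : mkV S x = mkV S y ↔ Eqv S x y :=
  ⟨fun h => Quotient.exact h, fun h => Quotient.sound h⟩

theorem mkV_surj (v : Vx S) : ∃ x, mkV S x = v := Quotient.exists_rep v

theorem walk_reach {a b : Vx S} (w : (graph S).Walk a b) : ∀ x y, mkV S x = a → mkV S y = b →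
    Reach S w.length x y := by
  induction w with
  | nil =>
    intro x y hx hy
    exact mkV_eq.1 (hx.trans hy.symm)
  | cons h w ih =>
    intro x y hx hy
    have hh := h
    obtain ⟨-, x', y', h1, h2, h3⟩ := hh
    have h4 : Reach S 1 x y' := (h3.reach).eqv_left (mkV_eq.1 (hx.trans h1.symm))
    have := h4.trans (ih y' y h2 hy)
    rw [SimpleGraph.Walk.length_cons, add_comm]
    exact this

theorem reach_walk {r : ℕ} {x y : U Z} (h : Reach S r x y) :
    ∃ w : (graph S).Walk (mkV S x) (mkV S y), w.length ≤ r := by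
  induction r generalizing y with
  | zero =>
    have : mkV S x = mkV S y := mkV_eq.2 h
    rw [this]
    exact ⟨SimpleGraph.Walk.nil, le_rfl⟩
  | succ r ih =>
    obtain ⟨u, h1, h2⟩ := h
    obtain ⟨w, hw⟩ := ih h1
    by_cases huy : mkV S u = mkV S y
    · rw [← huy]
      exact ⟨w, by omega⟩
    · have hadj : (graph S).Adj (mkV S u) (mkV S y) := ⟨huy, u, y, rfl, rfl, h2⟩
      refine ⟨w.append (SimpleGraph.Walk.cons hadj SimpleGraph.Walk.nil), ?_⟩
      rw [SimpleGraph.Walk.length_append]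
      simp only [SimpleGraph.Walk.length_cons, SimpleGraph.Walk.length_nil]
      omega

theorem graph_preconnected : (graph S).Preconnected := by
  intro a b
  obtain ⟨x, rfl⟩ := mkV_surj a
  obtain ⟨y, rfl⟩ := mkV_surj b
  obtain ⟨r, hr⟩ := exists_reach (S := S) x y
  obtain ⟨w, -⟩ := reach_walk hr
  exact ⟨w⟩

theorem dist_le_iff {r : ℕ} {x y : U Z} :
    (graph S).dist (mkV S x) (mkV S y) ≤ r ↔ Reach S r x y := by
  constructor
  · intro h
    obtain ⟨w, hw⟩ := (graph_preconnected (S := S) (mkV S x) (mkV S y)).exists_walk_length_eq_dist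
    exact (walk_reach w x y rfl rfl).mono (hw ▸ h)
  · intro h
    obtain ⟨w, hw⟩ := reach_walk h
    exact (SimpleGraph.dist_le w).trans hw

theorem reach_dist (x y : U Z) : Reach S ((graph S).dist (mkV S x) (mkV S y)) x y :=
  dist_le_iff.1 le_rfl

/-- the degree is bounded -/
theorem degree_bound {t : ℤ → ℤ} (hc : S.Count t) (ht : ∀ n, t (n + 1) ≤ t n + 1) (v : Vx S) :
    ((graph S).neighborSet v).encard ≤ 11 := by
  obtain ⟨⟨n, z, p, q⟩, rfl⟩ := mkV_surj v
  set A : Set (Quotient (S.st (n - 1))) := (Quotient.mk (S.st (n - 1))) '' (S.ball z n) with hA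
  have hAc : A.ncard ≤ 6 := by
    have h1 := hc z (n - 1) n (by omega)
    change A.ncard = _ at h1
    rw [h1]
    have h2 : (n - (n - 1)).toNat = 1 := by omega
    have h3 : (t n - t (n - 1)).toNat ≤ 1 := by
      have := ht (n - 1)
      rw [sub_add_cancel] at this
      omega
    rw [h2]
    have h4 : 3 ^ (t n - t (n - 1)).toNat ≤ 3 ^ 1 := Nat.pow_le_pow_right (by norm_num) h3
    omega
  have hAf : A.Finite := by
    apply Set.finite_of_ncard_ne_zero
    have h1 := hc z (n - 1) n (by omega)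
    change A.ncard = _ at h1
    rw [h1]
    positivity
  have hAe : A.encard ≤ 6 := by
    rw [← hAf.cast_ncard_eq]
    exact_mod_cast hAc
  have hsub : (graph S).neighborSet (mkV S ⟨n, z, p, q⟩) ⊆
      {mkV S ⟨n, z, p + 1, q⟩, mkV S ⟨n, z, p - 1, q⟩, mkV S ⟨n, z, p - n, q + 1⟩,
        mkV S ⟨n, z, p + n, q - 1⟩, mkV S ⟨n + 1, z, p, q⟩} ∪
      (fun c : Quotient (S.st (n - 1)) => mkV S ⟨n - 1, c.out, p, q⟩) '' A := by
    rintro w ⟨hne, x, y, hx, rfl, hst⟩
    have hxe := mkV_eq.1 hx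
    have hst' : Step S ⟨n, z, p, q⟩ y := hst.eqv_left hxe.symm
    rcases hst' with h | h
    · exact absurd (mkV_eq.2 h) hne
    · obtain ⟨m, z', p', q'⟩ := y
      rcases h with ⟨h1, h2, h3⟩ | ⟨h1, h2, h3⟩
      · left
        simp only at h1 h2 h3
        subst h1
        rcases h3 with ⟨a, b | b⟩ | ⟨a, b⟩ | ⟨a, b⟩
        · left
          exact mkV_eq.2 ⟨rfl, S.symm _ _ _ h2, b, a⟩
        · right; left
          exact mkV_eq.2 ⟨rfl, S.symm _ _ _ h2, by simp only; omega, a⟩
        · right; right; left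
          exact mkV_eq.2 ⟨rfl, S.symm _ _ _ h2, b, a⟩
        · right; right; right; left
          exact mkV_eq.2 ⟨rfl, S.symm _ _ _ h2, by simp only; omega, by simp only; omega⟩
      · simp only at h1 h2 h3
        rcases h3 with ⟨a, b⟩ | ⟨a, b⟩
        · left
          right; right; right; right
          exact mkV_eq.2 ⟨a, S.symm _ _ _ b, h1.symm, h2.symm⟩
        · right
          refine ⟨Quotient.mk (S.st (n - 1)) z', ⟨z', b, rfl⟩, ?_⟩
          refine mkV_eq.2 ⟨by simp only; omega, ?_, h1, h2⟩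
          exact Quotient.exact (Quotient.out_eq (Quotient.mk (S.st (n - 1)) z'))
  refine (Set.encard_le_encard hsub).trans ((Set.encard_union_le _ _).trans ?_)
  have h5 : ({mkV S ⟨n, z, p + 1, q⟩, mkV S ⟨n, z, p - 1, q⟩, mkV S ⟨n, z, p - n, q + 1⟩,
        mkV S ⟨n, z, p + n, q - 1⟩, mkV S ⟨n + 1, z, p, q⟩} : Set (Vx S)).encard ≤ 5 := by
    refine (Set.encard_insert_le _ _).trans ?_
    have h1 : ({mkV S ⟨n, z, p - 1, q⟩, mkV S ⟨n, z, p - n, q + 1⟩,
        mkV S ⟨n, z, p + n, q - 1⟩, mkV S ⟨n + 1, z, p, q⟩} : Set (Vx S)).encard ≤ 4 := by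
      refine (Set.encard_insert_le _ _).trans ?_
      have h1 : ({mkV S ⟨n, z, p - n, q + 1⟩,
        mkV S ⟨n, z, p + n, q - 1⟩, mkV S ⟨n + 1, z, p, q⟩} : Set (Vx S)).encard ≤ 3 := by
        refine (Set.encard_insert_le _ _).trans ?_
        have h1 : ({mkV S ⟨n, z, p + n, q - 1⟩, mkV S ⟨n + 1, z, p, q⟩} : Set (Vx S)).encard
            ≤ 2 := by
          refine (Set.encard_insert_le _ _).trans ?_
          rw [Set.encard_singleton]
          norm_num
        calc _ ≤ (2 : ℕ∞) + 1 := by gcongr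
          _ = 3 := by norm_num
      calc _ ≤ (3 : ℕ∞) + 1 := by gcongr
        _ = 4 := by norm_num
    calc _ ≤ (4 : ℕ∞) + 1 := by gcongr
      _ = 5 := by norm_num
  calc _ ≤ (5 : ℕ∞) + 6 := by
        gcongr
        exact (Set.encard_image_le _ _).trans hAe
    _ = 11 := by norm_num

theorem infinite_Vx (z : Z) : Infinite (Vx S) :=
  Infinite.of_injective (fun n : ℕ => mkV S ⟨(n : ℤ), z, 0, 0⟩) (by
    intro a b h
    have h1 : Eqv S ⟨(a : ℤ), z, 0, 0⟩ ⟨(b : ℤ), z, 0, 0⟩ := mkV_eq.1 h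
    have h2 : (a : ℤ) = (b : ℤ) := h1.1
    exact_mod_cast h2)

end Pool.Agent.Helper419.LF
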