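import Pool.Agent.Helper419.LFFibre2

/-! Quasi-isometries respect the height and the tree direction. -/

set_option autoImplicit false

namespace Pool.Agent.Helper419.LF

open Pool.Agent.Helper419.RT (Scale)

variable {Z : Type*} {S : Scale Z}

theorem NearT.refl {R : ℤ} (hR : 0 ≤ R) (x : U Z) : NearT S R x x :=
  ⟨x.lv, le_rfl, le_rfl, S.refl _ _, by omega, by omega⟩

theorem NearT.trans {R R' : ℤ} {x y w : U Z} (h : NearT S R x y) (h' : NearT S R' y w) :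
    NearT S (R + R') x w := by
  obtain ⟨H, h1, h2, h3, h4, h5⟩ := h
  obtain ⟨H', k1, k2, k3, k4, k5⟩ := h'
  refine ⟨max H H', h1.trans (le_max_left _ _), k2.trans (le_max_right _ _), ?_, ?_, ?_⟩
  · exact S.trans _ _ _ _ (S.mono _ _ (le_max_left _ _) _ _ h3)
      (S.mono _ _ (le_max_right _ _) _ _ k3)
  · omega
  · omega

theorem NearT.lv {R : ℤ} {x y : U Z} (h : NearT S R x y) : |x.lv - y.lv| ≤ R := by
  obtain ⟨H, h1, h2, h3, h4, h5⟩ := h
  rw [abs_le]; omega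

theorem NearT.z {R : ℤ} {x y : U Z} (h : NearT S R x y) (n : ℤ) (hn : x.lv + R ≤ n) :
    S.r n x.z y.z := by
  obtain ⟨H, h1, h2, h3, h4, h5⟩ := h
  exact S.mono _ _ (by omega) _ _ h3

theorem Reach.nearT {r : ℕ} {x y : U Z} (h : Reach S r x y) : NearT S (2 * r) x y := by
  have h1 := abs_le.1 h.lv
  exact ⟨x.lv + r, by omega, by omega, h.z _ le_rfl, by omega, by omega⟩

/-- upper bound for the distance -/
theorem reach_upper (x y : U Z) (H : ℤ) (hx : x.lv ≤ H) (hy : y.lv ≤ H) (h : S.r H x.z y.z) :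
    Reach S ((H - x.lv).natAbs + (y.q - x.q).natAbs +
      6 * Nat.sqrt (y.p - x.p + H * (y.q - x.q)).natAbs + (H - y.lv).natAbs) x y := by
  have h1 := reach_vert (S := S) x.lv H x.z x.z x.p x.q (S.refl _ _)
  have h2 := reach_q (S := S) H x.z x.p x.q (y.q - x.q)
  have h3 := reach_E (S := S) H x.z (x.p - H * (y.q - x.q)) (x.q + (y.q - x.q))
    (y.p - x.p + H * (y.q - x.q))
  have h4 := reach_vert (S := S) H y.lv x.z y.z y.p y.q (by rw [max_eq_left hy]; exact h)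
  have e1 : x.p - H * (y.q - x.q) + (y.p - x.p + H * (y.q - x.q)) = y.p := by ring
  have e2 : x.q + (y.q - x.q) = y.q := by ring
  rw [e1, e2] at h3
  rw [e2] at h2
  refine (((h1.trans h2).trans h3).trans h4).mono ?_
  omega

/-- the same fibre coordinates -/
theorem reach_tree {r : ℕ} (n m : ℤ) (z z' : Z) (p q : ℤ) {a b c d : ℤ}
    (h : NearT S r ⟨n, z, a, b⟩ ⟨m, z', c, d⟩) :
    Reach S (2 * r) ⟨n, z, p, q⟩ ⟨m, z', p, q⟩ := by
  obtain ⟨H, h1, h2, h3, h4, h5⟩ := h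
  simp only at h1 h2 h3 h4 h5
  have := reach_upper (S := S) ⟨n, z, p, q⟩ ⟨m, z', p, q⟩ H h1 h2 h3
  simp only at this
  refine this.mono ?_
  simp
  omega

/-- statement of the fibre lemma with constants -/
def FibL (S : Scale Z) (K R : ℕ) : Prop :=
  ∀ F G : U Z → U Z, QIP S K F G → ∀ n z p q p' q',
      NearT S R (F ⟨n, z, p, q⟩) (F ⟨n, z, p', q'⟩)

theorem nearT_map {K R : ℕ} (hfib : FibL S K R) {F G : U Z → U Z} (h : QIP S K F G) (r : ℕ)
    (x y : U Z) (hxy : NearT S r x y) :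
    NearT S ((4 * K + 2 * R) * r + (4 * K + 2 * R)) (F x) (F y) := by
  have h1 := reach_tree (S := S) x.lv y.lv x.z y.z 0 0 (a := x.p) (b := x.q) (c := y.p) (d := y.q)
    hxy
  have h2 := (h.f _ _ _ h1).nearT
  have h3 := hfib F G h x.lv x.z x.p x.q 0 0
  have h4 := hfib F G h y.lv y.z 0 0 y.p y.q
  have h5 := (h3.trans h2).trans h4
  refine h5.mono ?_
  push_cast
  have : (0 : ℤ) ≤ R * r := by positivity
  nlinarith

theorem nearT_back {K R : ℕ} (hfib : FibL S K R) {F G : U Z → U Z} (h : QIP S K F G) (r : ℕ)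
    (x y : U Z) (hxy : NearT S r (F x) (F y)) :
    NearT S ((8 * K + 2 * R) * r + (8 * K + 2 * R)) x y := by
  have h1 := nearT_map hfib h.symm r _ _ hxy
  have h2 := (h.gf x).nearT
  have h3 := (h.gf y).nearT
  have h5 := (h2.symm.trans h1).trans h3
  refine h5.mono ?_
  have : (0 : ℤ) ≤ K * r := by positivity
  nlinarith

/-- the functional attached to the level of the image is linearly bounded -/
theorem lam_bound {K R : ℕ} (hfib : FibL S K R) {F G : U Z → U Z} (h : QIP S K F G) (n : ℤ) (z : Z)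
    (s : ℕ) :
    |((F ⟨n, z, -(n * s), s⟩).p - (F ⟨n, z, 0, 0⟩).p) +
      (F ⟨n, z, 0, 0⟩).lv * ((F ⟨n, z, -(n * s), s⟩).q - (F ⟨n, z, 0, 0⟩).q)|
      ≤ (2 * K * (1 + R + 2 * K)) * s := by
  induction s with
  | zero => simp
  | succ s ih =>
    have h1 := reach_q (S := S) n z (-(n * s)) s 1
    have e1 : -(n * (s : ℤ)) - n * 1 = -(n * ((s + 1 : ℕ) : ℤ)) := by push_cast; ring
    have e2 : (s : ℤ) + 1 = ((s + 1 : ℕ) : ℤ) := by push_cast; ring
    rw [e1, e2] at h1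
    have h2 := h.f _ _ _ h1
    have h3 : |(F ⟨n, z, -(n * s), s⟩).lv - (F ⟨n, z, 0, 0⟩).lv| ≤ R :=
      (hfib F G h n z (-(n * s)) s 0 0).lv
    have h4 := h2.p (F ⟨n, z, 0, 0⟩).lv R h3
    have e3 : ((F ⟨n, z, -(n * ((s + 1 : ℕ) : ℤ)), ((s + 1 : ℕ) : ℤ)⟩).p - (F ⟨n, z, 0, 0⟩).p) +
      (F ⟨n, z, 0, 0⟩).lv *
        ((F ⟨n, z, -(n * ((s + 1 : ℕ) : ℤ)), ((s + 1 : ℕ) : ℤ)⟩).q - (F ⟨n, z, 0, 0⟩).q) =
      (((F ⟨n, z, -(n * s), s⟩).p - (F ⟨n, z, 0, 0⟩).p) +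
      (F ⟨n, z, 0, 0⟩).lv * ((F ⟨n, z, -(n * s), s⟩).q - (F ⟨n, z, 0, 0⟩).q)) +
      (((F ⟨n, z, -(n * ((s + 1 : ℕ) : ℤ)), ((s + 1 : ℕ) : ℤ)⟩).p - (F ⟨n, z, -(n * s), s⟩).p) +
      (F ⟨n, z, 0, 0⟩).lv *
        ((F ⟨n, z, -(n * ((s + 1 : ℕ) : ℤ)), ((s + 1 : ℕ) : ℤ)⟩).q -
          (F ⟨n, z, -(n * s), s⟩).q)) := by ring
    rw [e3]
    refine (abs_add_le _ _).trans ?_
    have h5 : ((K * Int.natAbs 1 + K : ℕ) : ℤ) = 2 * K := by push_cast; simp; ring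
    rw [h5] at h4
    push_cast at *
    nlinarith

/-- numerical lemma -/
theorem num_lemma (K R C1 s dq e T : ℕ) (he : e ≤ C1 * s + R * dq)
    (hT : T ≤ R + dq + 6 * Nat.sqrt e + R) (hs : s ≤ K * T + 3 * K) :
    s ≤ ((6 * K * C1 + 1) * K + 6 * K * R) * dq +
      (2 * (6 * K * C1 + 1) * K * R + 6 * K * (6 * K * C1 + 1) ^ 2 + 3 * K * (6 * K * C1 + 1)) := by
  set N := 6 * K * C1 + 1 with hN
  have h1 : Nat.sqrt e * N ≤ e + N ^ 2 := by
    have h2 : Nat.sqrt e ^ 2 ≤ e := Nat.sqrt_le' e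
    nlinarith [Nat.zero_le (Nat.sqrt e), sq_nonneg ((Nat.sqrt e : ℤ) - N),
      mul_self_nonneg ((Nat.sqrt e : ℤ) - N), two_mul_le_add_sq (Nat.sqrt e) N]
  have h2 : K * T ≤ K * (R + dq + 6 * Nat.sqrt e + R) := Nat.mul_le_mul_left _ hT
  have h3 : N * s ≤ N * (K * (R + dq + 6 * Nat.sqrt e + R) + 3 * K) :=
    Nat.mul_le_mul_left _ (hs.trans (Nat.add_le_add_right h2 _))
  have h4 : N * (K * (R + dq + 6 * Nat.sqrt e + R) + 3 * K) =
      2 * N * K * R + N * K * dq + 6 * K * (Nat.sqrt e * N) + 3 * K * N := by ring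
  have h5 : 6 * K * (Nat.sqrt e * N) ≤ 6 * K * (C1 * s + R * dq + N ^ 2) :=
    Nat.mul_le_mul_left _ (h1.trans (Nat.add_le_add_right he _))
  have h6 : 6 * K * (C1 * s + R * dq + N ^ 2) = 6 * K * C1 * s + 6 * K * R * dq + 6 * K * N ^ 2 := by
    ring
  have h7 : N * s = 6 * K * C1 * s + s := by rw [hN]; ring
  have h8 : (N * K + 6 * K * R) * dq = N * K * dq + 6 * K * R * dq := by ring
  rw [h8]
  omega

/-- the images of the points of a horizontal line spread linearly -/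
theorem dq_bound {K R : ℕ} (hfib : FibL S K R) {F G : U Z → U Z} (h : QIP S K F G) (n : ℤ) (z : Z)
    (s : ℕ) (C1 : ℕ) (hC1 : C1 = 2 * K * (1 + R + 2 * K)) :
    s ≤ ((6 * K * C1 + 1) * K + 6 * K * R) *
        ((F ⟨n, z, -(n * s), s⟩).q - (F ⟨n, z, 0, 0⟩).q).natAbs +
      (2 * (6 * K * C1 + 1) * K * R + 6 * K * (6 * K * C1 + 1) ^ 2 +
        3 * K * (6 * K * C1 + 1)) := by
  obtain ⟨H, h1, h2, h3, h4, h5⟩ := hfib F G h n z 0 0 (-(n * s)) s
  have h6 := reach_upper _ _ H h1 h2 h3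
  set x := F ⟨n, z, 0, 0⟩ with hx
  set y := F ⟨n, z, -(n * s), s⟩ with hy
  have h7 := lam_bound hfib h n z s
  rw [← hx, ← hy] at h7
  have h8 := (((h.gf ⟨n, z, 0, 0⟩).symm.trans (h.g _ _ _ h6)).trans (h.gf ⟨n, z, -(n * s), s⟩)).q
  simp only [sub_zero] at h8
  rw [abs_of_nonneg (by positivity)] at h8
  refine num_lemma K R C1 s _ (y.p - x.p + H * (y.q - x.q)).natAbs
    ((H - x.lv).natAbs + (y.q - x.q).natAbs +
      6 * Nat.sqrt (y.p - x.p + H * (y.q - x.q)).natAbs + (H - y.lv).natAbs) ?_ ?_ ?_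
  · zify
    have e1 : y.p - x.p + H * (y.q - x.q) = (y.p - x.p + x.lv * (y.q - x.q)) +
      (H - x.lv) * (y.q - x.q) := by ring
    rw [e1]
    refine (abs_add_le _ _).trans ?_
    rw [abs_mul]
    have h9 : |H - x.lv| ≤ R := by rw [abs_le]; omega
    have h10 := mul_le_mul_of_nonneg_right h9 (abs_nonneg (y.q - x.q))
    rw [hC1]
    push_cast
    linarith
  · omega
  · have h9 : (s : ℤ) ≤ ((K + (K * ((H - x.lv).natAbs + (y.q - x.q).natAbs +
      6 * Nat.sqrt (y.p - x.p + H * (y.q - x.q)).natAbs + (H - y.lv).natAbs) + K) + K : ℕ) : ℤ) := h8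
    have h10 : s ≤ K + (K * ((H - x.lv).natAbs + (y.q - x.q).natAbs +
      6 * Nat.sqrt (y.p - x.p + H * (y.q - x.q)).natAbs + (H - y.lv).natAbs) + K) + K := by
      exact_mod_cast h9
    omega

end Pool.Agent.Helper419.LF
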