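import Pool.Agent.Helper419.LFLevel

/-! Quasi-isometries respect the height. -/

set_option autoImplicit false

namespace Pool.Agent.Helper419.LF

open Pool.Agent.Helper419.RT (Scale)

variable {Z : Type*} {S : Scale Z}

theorem level0 {K R : ℕ} (hfib : FibL S K R) : ∃ C : ℕ, ∀ F G : U Z → U Z, QIP S K F G →
    ∀ n z z', |(F ⟨n, z, 0, 0⟩).lv - (F ⟨n, z', 0, 0⟩).lv| ≤ C := by
  set C1 : ℕ := 2 * K * (1 + R + 2 * K) with hC1
  set A : ℕ := (6 * K * C1 + 1) * K + 6 * K * R with hA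
  set B : ℕ := 2 * (6 * K * C1 + 1) * K * R + 6 * K * (6 * K * C1 + 1) ^ 2 +
        3 * K * (6 * K * C1 + 1) with hB
  refine ⟨2 * A * C1, fun F G h n z z' => ?_⟩
  by_contra hcon
  push Not at hcon
  obtain ⟨H0, hH0⟩ := S.exh z z'
  set H := max H0 n with hH
  have hzz : S.r H z z' := S.mono _ _ (le_max_left _ _) _ _ hH0
  set T0 : ℕ := (H - n).natAbs + (H - n).natAbs with hT0
  have hreach : ∀ p q : ℤ, Reach S T0 ⟨n, z, p, q⟩ ⟨n, z', p, q⟩ := by
    intro p q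
    have := reach_upper (S := S) ⟨n, z, p, q⟩ ⟨n, z', p, q⟩ H (le_max_right _ _)
      (le_max_right _ _) hzz
    refine this.mono ?_
    simp [hT0]
  set W : ℕ := K * T0 + K with hW
  set m := (F ⟨n, z, 0, 0⟩).lv with hm
  set m' := (F ⟨n, z', 0, 0⟩).lv with hm'
  have hcmp : ∀ s : ℕ, |((F ⟨n, z', -(n * s), s⟩).p - (F ⟨n, z, -(n * s), s⟩).p) +
      m * ((F ⟨n, z', -(n * s), s⟩).q - (F ⟨n, z, -(n * s), s⟩).q)| ≤ W * (1 + R + W) := by
    intro s
    have h1 := h.f _ _ _ (hreach (-(n * s)) s)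
    exact h1.p m R (hfib F G h n z (-(n * s)) s 0 0).lv
  have hcmp0 := hcmp 0
  simp only [Nat.cast_zero, mul_zero, neg_zero] at hcmp0
  set s : ℕ := 2 * A * (W * (1 + R + W)) + (m - m').natAbs * B + 1 with hs
  have h1 := hcmp s
  have h2 := lam_bound hfib h n z s
  have h3 := lam_bound hfib h n z' s
  have h4 := dq_bound hfib h n z' s C1 hC1
  rw [← hA, ← hB] at h4
  rw [← hm] at h2
  rw [← hm'] at h3
  set y := F ⟨n, z, -(n * s), s⟩ with hy
  set y' := F ⟨n, z', -(n * s), s⟩ with hy'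
  set x := F ⟨n, z, 0, 0⟩ with hx
  set x' := F ⟨n, z', 0, 0⟩ with hx'
  have e1 : (m - m') * (y'.q - x'.q) =
      (((y'.p - y.p) + m * (y'.q - y.q)) + ((y.p - x.p) + m * (y.q - x.q)) +
        (-((x'.p - x.p) + m * (x'.q - x.q)))) + (-((y'.p - x'.p) + m' * (y'.q - x'.q))) := by ring
  have h5 : |(m - m') * (y'.q - x'.q)| ≤ 2 * C1 * s + 2 * (W * (1 + R + W)) := by
    rw [e1]
    refine (abs_add_le _ _).trans ?_
    have h6 := abs_add_three ((y'.p - y.p) + m * (y'.q - y.q)) ((y.p - x.p) + m * (y.q - x.q))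
      (-((x'.p - x.p) + m * (x'.q - x.q)))
    rw [abs_neg] at h6 ⊢
    have e2 : (C1 : ℤ) = 2 * K * (1 + R + 2 * K) := by rw [hC1]; push_cast; ring
    rw [e2]
    linarith
  rw [abs_mul] at h5
  -- conclude
  have h6 : (s : ℤ) ≤ A * |y'.q - x'.q| + B := by
    have : (s : ℤ) ≤ ((A * (y'.q - x'.q).natAbs + B : ℕ) : ℤ) := by exact_mod_cast h4
    push_cast at this
    exact this
  have h7 : |m - m'| * s ≤ |m - m'| * (A * |y'.q - x'.q| + B) :=
    mul_le_mul_of_nonneg_left h6 (abs_nonneg _)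
  have h8 : |m - m'| * (A * |y'.q - x'.q| + B) = A * (|m - m'| * |y'.q - x'.q|) + |m - m'| * B := by
    ring
  have h9 : (A : ℤ) * (|m - m'| * |y'.q - x'.q|) ≤ A * (2 * C1 * s + 2 * (W * (1 + R + W))) :=
    mul_le_mul_of_nonneg_left h5 (by positivity)
  have h10 : (2 * A * C1 + 1) * (s : ℤ) ≤ |m - m'| * s := by
    apply mul_le_mul_of_nonneg_right _ (by positivity)
    have := hcon
    push_cast at this
    omega
  have h11 : (s : ℤ) = 2 * A * (W * (1 + R + W)) + |m - m'| * B + 1 := by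
    rw [hs]; push_cast; ring
  nlinarith

/-- statement of the level lemma with constants -/
def LevL (S : Scale Z) (K C : ℕ) : Prop :=
  ∀ F G : U Z → U Z, QIP S K F G → ∀ x y : U Z,
    |(F x).lv - (F y).lv| ≤ C * |x.lv - y.lv| + C

theorem level {K R : ℕ} (hfib : FibL S K R) : ∃ C : ℕ, LevL S K C := by
  obtain ⟨C, hC⟩ := level0 hfib
  refine ⟨C + K + 2 * R, fun F G h x y => ?_⟩
  have h1 : Reach S (x.lv - y.lv).natAbs ⟨x.lv, x.z, 0, 0⟩ ⟨y.lv, x.z, 0, 0⟩ :=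
    reach_vert _ _ _ _ _ _ (S.refl _ _)
  have h2 := abs_le.1 (h.f _ _ _ h1).lv
  have h3 := abs_le.1 (hC F G h y.lv x.z y.z)
  have h4 := abs_le.1 (hfib F G h x.lv x.z x.p x.q 0 0).lv
  have h5 := abs_le.1 (hfib F G h y.lv y.z y.p y.q 0 0).lv
  have e : ((K * (x.lv - y.lv).natAbs + K : ℕ) : ℤ) = K * |x.lv - y.lv| + K := by
    push_cast; ring
  rw [e] at h2
  have h6 : (0 : ℤ) ≤ (C + 2 * R) * |x.lv - y.lv| := by positivity
  have h7 : ((C + K + 2 * R : ℕ) : ℤ) * |x.lv - y.lv| =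
      K * |x.lv - y.lv| + (C + 2 * R) * |x.lv - y.lv| := by push_cast; ring
  rw [abs_le, h7]
  push_cast
  set a := (K : ℤ) * |x.lv - y.lv|
  set b := ((C : ℤ) + 2 * R) * |x.lv - y.lv|
  change -(a + b + _) ≤ (F ⟨x.lv, x.z, x.p, x.q⟩).lv - (F ⟨y.lv, y.z, y.p, y.q⟩).lv ∧
    (F ⟨x.lv, x.z, x.p, x.q⟩).lv - (F ⟨y.lv, y.z, y.p, y.q⟩).lv ≤ _
  constructor <;> linarith

end Pool.Agent.Helper419.LF
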