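import Pool.Agent.Helper419.LFGraph
import Pool.Agent.Helper419.RTMain

/-! The bounded degree example: rough transitivity and rigidity. -/

set_option autoImplicit false

namespace Pool.Agent.Helper419.LF

open Pool.Agent.Helper419.RT (Scale ZZ SS tt count_SS tt_mono tt_step split_SS SS_complete SS_sep
  no_act phi phi_self phi_inv tt_super tt_sub tt_two)

/-- there is no coarse action with cobounded orbits -/
theorem no_fam {K : ℕ} {Γ : Type*} [Group Γ] (F : Γ → U ZZ → U ZZ) (hF : Fam SS K F) : False := by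
  obtain ⟨R, hR⟩ := fibre (S := SS) tt tt_mono count_SS K
  obtain ⟨D, hD⟩ := reg_of_fib (S := SS) hR split_SS
  have hreg : ∀ g, Reg SS D (F g) := fun g => hD _ _ (hF.qi g)
  obtain ⟨D', hA⟩ := bd_act SS_complete SS_sep hF hreg (Classical.arbitrary ZZ)
  let _ := bdAction SS_complete SS_sep hF hreg
  exact no_act _ _ hA

/-- the vertex set of the example -/
def V0 : Type := Vx SS

/-- the example -/
noncomputable def G0 : SimpleGraph V0 := graph SS

/-- `f` satisfies the rough isometry conditions with constant `C` to a homogeneous space -/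
theorem not_homogeneous (Y : Type*) [MetricSpace Y] (hY : ∀ y y' : Y, ∃ g : Y ≃ᵢ Y, g y = y')
    (C : ℝ) (hC : 0 < C) (f : V0 → Y)
    (h1 : ∀ x y, C⁻¹ * dist (f x) (f y) - C ≤ (G0.dist x y : ℝ))
    (h2 : ∀ x y, (G0.dist x y : ℝ) ≤ C * dist (f x) (f y) + C)
    (h3 : ∀ y, ∃ x, dist (f x) y < C) : False := by
  have h1' : ∀ x y, dist (f x) (f y) ≤ C * (G0.dist x y : ℝ) + C ^ 2 := by
    intro x y
    have := h1 x y
    have e : C⁻¹ * dist (f x) (f y) ≤ (G0.dist x y : ℝ) + C := by linarith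
    have := mul_le_mul_of_nonneg_left e hC.le
    rw [← mul_assoc, mul_inv_cancel₀ hC.ne', one_mul] at this
    nlinarith
  -- quasi-inverse
  have hk : ∀ y : Y, ∃ x : U ZZ, dist (f (mkV SS x)) y < C := by
    intro y
    obtain ⟨v, hv⟩ := h3 y
    obtain ⟨x, rfl⟩ := mkV_surj (S := SS) v
    exact ⟨x, hv⟩
  choose k hk using hk
  let F : (Y ≃ᵢ Y) → U ZZ → U ZZ := fun g x => k (g (f (mkV SS x)))
  have hF : ∀ (g : Y ≃ᵢ Y) (x : U ZZ), dist (f (mkV SS (F g x))) (g (f (mkV SS x))) < C :=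
    fun g x => hk _
  obtain ⟨K, hK⟩ := exists_nat_gt (C ^ 3 + C ^ 2 + 3 * C ^ 2 + 3 * C)
  have hC2 : 0 < C ^ 2 := by positivity
  have hC3 : 0 < C ^ 3 := by positivity
  have toReach : ∀ (a b : U ZZ) (r : ℕ), dist (f (mkV SS a)) (f (mkV SS b)) ≤
      C * r + (C ^ 2 + 3 * C) → Reach SS (K * r + K) a b := by
    intro a b r h
    apply dist_le_iff.1
    have e1 := h2 (mkV SS a) (mkV SS b)
    have e2 : C * dist (f (mkV SS a)) (f (mkV SS b)) ≤ C * (C * r + (C ^ 2 + 3 * C)) :=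
      mul_le_mul_of_nonneg_left h hC.le
    have e3 : (G0.dist (mkV SS a) (mkV SS b) : ℝ) ≤ C ^ 2 * r + (C ^ 3 + 3 * C ^ 2 + C) := by
      nlinarith
    have e4 : C ^ 2 * (r : ℝ) ≤ K * r := by
      apply mul_le_mul_of_nonneg_right _ (Nat.cast_nonneg r)
      nlinarith
    have e5 : ((graph SS).dist (mkV SS a) (mkV SS b) : ℝ) ≤ ((K * r + K : ℕ) : ℝ) := by
      push_cast
      refine e3.trans ?_
      nlinarith
    exact_mod_cast e5
  have fromReach : ∀ (a b : U ZZ) (r : ℕ), Reach SS r a b →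
      dist (f (mkV SS a)) (f (mkV SS b)) ≤ C * r + C ^ 2 := by
    intro a b r h
    have e1 : ((graph SS).dist (mkV SS a) (mkV SS b) : ℝ) ≤ r := by
      exact_mod_cast dist_le_iff.2 h
    refine (h1' _ _).trans ?_
    have : C * ((graph SS).dist (mkV SS a) (mkV SS b) : ℝ) ≤ C * r :=
      mul_le_mul_of_nonneg_left e1 hC.le
    change C * ((graph SS).dist (mkV SS a) (mkV SS b) : ℝ) + C ^ 2 ≤ _
    linarith
  have hmap : ∀ (g : Y ≃ᵢ Y) (r : ℕ) (x y : U ZZ), Reach SS r x y →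
      Reach SS (K * r + K) (F g x) (F g y) := by
    intro g r x y h
    apply toReach
    have t1 := hF g x
    have t2 := hF g y
    have t3 : dist (g (f (mkV SS x))) (g (f (mkV SS y))) = dist (f (mkV SS x)) (f (mkV SS y)) :=
      g.dist_eq _ _
    have t4 := dist_triangle4 (f (mkV SS (F g x))) (g (f (mkV SS x))) (g (f (mkV SS y)))
      (f (mkV SS (F g y)))
    rw [dist_comm (g (f (mkV SS y))) (f (mkV SS (F g y)))] at t4
    have t5 := fromReach x y r h
    linarith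
  have hcomp : ∀ (g h : Y ≃ᵢ Y) (x : U ZZ), Reach SS K (F g (F h x)) (F (g * h) x) := by
    intro g h x
    have : Reach SS (K * 0 + K) (F g (F h x)) (F (g * h) x) := by
      apply toReach
      have t1 := hF g (F h x)
      have t2 := hF h x
      have t3 := hF (g * h) x
      have t4 : dist (g (f (mkV SS (F h x)))) (g (h (f (mkV SS x)))) =
        dist (f (mkV SS (F h x))) (h (f (mkV SS x))) := g.dist_eq _ _
      have t5 : (g * h) (f (mkV SS x)) = g (h (f (mkV SS x))) := rfl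
      rw [t5] at t3
      have t6 := dist_triangle4 (f (mkV SS (F g (F h x)))) (g (f (mkV SS (F h x))))
        (g (h (f (mkV SS x)))) (f (mkV SS (F (g * h) x)))
      rw [dist_comm (g (h (f (mkV SS x)))) (f (mkV SS (F (g * h) x)))] at t6
      simp only [Nat.cast_zero, mul_zero, zero_add]
      linarith
    simpa using this
  have hone : ∀ x : U ZZ, Reach SS K (F 1 x) x := by
    intro x
    have : Reach SS (K * 0 + K) (F 1 x) x := by
      apply toReach
      have t1 := hF 1 x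
      have t5 : (1 : Y ≃ᵢ Y) (f (mkV SS x)) = f (mkV SS x) := rfl
      rw [t5] at t1
      simp only [Nat.cast_zero, mul_zero, zero_add]
      linarith
    simpa using this
  have hinv : ∀ (g h : Y ≃ᵢ Y), g * h = 1 → ∀ x : U ZZ, Reach SS K (F g (F h x)) x := by
    intro g h hgh x
    have : Reach SS (K * 0 + K) (F g (F h x)) x := by
      apply toReach
      have t1 := hF g (F h x)
      have t2 := hF h x
      have t4 : dist (g (f (mkV SS (F h x)))) (g (h (f (mkV SS x)))) =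
        dist (f (mkV SS (F h x))) (h (f (mkV SS x))) := g.dist_eq _ _
      have t5 : g (h (f (mkV SS x))) = f (mkV SS x) := by
        change (g * h) (f (mkV SS x)) = _
        rw [hgh]; rfl
      have t6 := dist_triangle (f (mkV SS (F g (F h x)))) (g (f (mkV SS (F h x))))
        (g (h (f (mkV SS x))))
      rw [t5] at t6 t4
      simp only [Nat.cast_zero, mul_zero, zero_add]
      linarith
    simpa using this
  have heq : ∀ (g : Y ≃ᵢ Y) (x y : U ZZ), Eqv SS x y → F g x = F g y := by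
    intro g x y h
    show k (g (f (mkV SS x))) = k (g (f (mkV SS y)))
    rw [mkV_eq.2 h]
  refine no_fam F (K := K) ⟨fun g => ⟨hmap g, hmap g⁻¹, heq g, heq g⁻¹, hinv g g⁻¹ (mul_inv_cancel g),
    hinv g⁻¹ g (inv_mul_cancel g)⟩, hcomp, hone, ?_⟩
  intro x y
  obtain ⟨g, hg⟩ := hY (f (mkV SS x)) (f (mkV SS y))
  refine ⟨g, ?_⟩
  have : Reach SS (K * 0 + K) (F g x) y := by
    apply toReach
    have t1 := hF g x
    rw [hg] at t1
    simp only [Nat.cast_zero, mul_zero, zero_add]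
    linarith
  simpa using this

theorem phi_r (a : ℤ) (p q A B : ZZ) (H : ℤ) (h : SS.r H A B) :
    SS.r (H + a) (phi a (tt a) p q A) (phi a (tt a) p q B) := by
  obtain ⟨h5, h5'⟩ := h
  refine ⟨?_, ?_⟩
  · intro h hh
    show Equiv.swap (p.1.1 (h - a)) (q.1.1 h) (A.1.1 (h - a)) =
      Equiv.swap (p.1.1 (h - a)) (q.1.1 h) (B.1.1 (h - a))
    rw [h5 (h - a) (by omega)]
  · intro i hi
    show Equiv.swap (p.1.2 (i - tt a)) (q.1.2 i) (A.1.2 (i - tt a)) =
      Equiv.swap (p.1.2 (i - tt a)) (q.1.2 i) (B.1.2 (i - tt a))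
    have := tt_super H a
    rw [h5' (i - tt a) (by omega)]

theorem phi_r_inv (a : ℤ) (p q A B : ZZ) (H : ℤ) (h : SS.r H A B) :
    SS.r (H - a + 2) (phi (-a) (-tt a) q p A) (phi (-a) (-tt a) q p B) := by
  obtain ⟨h5, h5'⟩ := h
  refine ⟨?_, ?_⟩
  · intro h hh
    show Equiv.swap (q.1.1 (h - -a)) (p.1.1 h) (A.1.1 (h - -a)) =
      Equiv.swap (q.1.1 (h - -a)) (p.1.1 h) (B.1.1 (h - -a))
    rw [h5 (h - -a) (by omega)]
  · intro i hi
    show Equiv.swap (q.1.2 (i - -tt a)) (p.1.2 i) (A.1.2 (i - -tt a)) =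
      Equiv.swap (q.1.2 (i - -tt a)) (p.1.2 i) (B.1.2 (i - -tt a))
    have q1 := tt_sub (H - a) a
    rw [sub_add_cancel] at q1
    have q2 := tt_super (H - a) 2
    have q3 := tt_two
    rw [h5' (i - -tt a) (by omega)]

/-- the shift map -/
noncomputable def Phi (a : ℤ) (z w : ZZ) (p0 q0 : ℤ) (x : U ZZ) : U ZZ :=
  ⟨x.lv + a, phi a (tt a) z w x.z, x.p - a * x.q + p0, x.q + q0⟩

/-- the inverse map -/
noncomputable def Psi (a : ℤ) (z w : ZZ) (p0 q0 : ℤ) (x : U ZZ) : U ZZ :=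
  ⟨x.lv - a, phi (-a) (-tt a) w z x.z, x.p - p0 + a * (x.q - q0), x.q - q0⟩

theorem Psi_Phi (a : ℤ) (z w : ZZ) (p0 q0 : ℤ) (x : U ZZ) :
    Psi a z w p0 q0 (Phi a z w p0 q0 x) = x := by
  apply U.ext
  · show x.lv + a - a = x.lv
    ring
  · exact phi_inv a (tt a) z w x.z
  · show x.p - a * x.q + p0 - p0 + a * (x.q + q0 - q0) = x.p
    ring
  · show x.q + q0 - q0 = x.q
    ring

theorem Phi_Psi (a : ℤ) (z w : ZZ) (p0 q0 : ℤ) (x : U ZZ) :
    Phi a z w p0 q0 (Psi a z w p0 q0 x) = x := by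
  apply U.ext
  · show x.lv - a + a = x.lv
    ring
  · have := phi_inv (-a) (-tt a) w z x.z
    rwa [neg_neg, neg_neg] at this
  · show x.p - p0 + a * (x.q - q0) - a * (x.q - q0) + p0 = x.p
    ring
  · show x.q - q0 + q0 = x.q
    ring

theorem Phi_step (a : ℤ) (z w : ZZ) (p0 q0 : ℤ) {x y : U ZZ} (h : Step SS x y) :
    Step SS (Phi a z w p0 q0 x) (Phi a z w p0 q0 y) := by
  rcases h with ⟨h1, h2, h3, h4⟩ | h
  · left
    refine ⟨?_, phi_r a z w _ _ _ h2, ?_, ?_⟩
    · show x.lv + a = y.lv + a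
      rw [h1]
    · show x.p - a * x.q + p0 = y.p - a * y.q + p0
      rw [h3, h4]
    · show x.q + q0 = y.q + q0
      rw [h4]
  · right
    rcases h with ⟨h1, h2, h3⟩ | ⟨h1, h2, h3⟩
    · left
      refine ⟨?_, phi_r a z w _ _ _ h2, ?_⟩
      · show x.lv + a = y.lv + a
        rw [h1]
      · show (y.q + q0 = x.q + q0 ∧ (y.p - a * y.q + p0 = x.p - a * x.q + p0 + 1 ∨
            x.p - a * x.q + p0 = y.p - a * y.q + p0 + 1)) ∨
          (y.q + q0 = x.q + q0 + 1 ∧ y.p - a * y.q + p0 = x.p - a * x.q + p0 - (x.lv + a)) ∨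
          (x.q + q0 = y.q + q0 + 1 ∧ x.p - a * x.q + p0 = y.p - a * y.q + p0 - (x.lv + a))
        rcases h3 with ⟨e, e' | e'⟩ | ⟨e, e'⟩ | ⟨e, e'⟩
        · left
          exact ⟨by rw [e], Or.inl (by rw [e, e']; ring)⟩
        · left
          exact ⟨by rw [e], Or.inr (by rw [e, e']; ring)⟩
        · right; left
          exact ⟨by rw [e]; ring, by rw [e, e']; ring⟩
        · right; right
          exact ⟨by rw [e]; ring, by rw [e, e']; ring⟩
    · right
      refine ⟨?_, ?_, ?_⟩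
      · show x.p - a * x.q + p0 = y.p - a * y.q + p0
        rw [h1, h2]
      · show x.q + q0 = y.q + q0
        rw [h2]
      · show (y.lv + a = x.lv + a + 1 ∧ SS.r (y.lv + a) (phi a (tt a) z w x.z)
            (phi a (tt a) z w y.z)) ∨
          (x.lv + a = y.lv + a + 1 ∧ SS.r (x.lv + a) (phi a (tt a) z w x.z)
            (phi a (tt a) z w y.z))
        rcases h3 with ⟨e, e'⟩ | ⟨e, e'⟩
        · left
          exact ⟨by rw [e]; ring, phi_r a z w _ _ _ e'⟩
        · right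
          exact ⟨by rw [e]; ring, phi_r a z w _ _ _ e'⟩

theorem Phi_reach (a : ℤ) (z w : ZZ) (p0 q0 : ℤ) {r : ℕ} {x y : U ZZ} (h : Reach SS r x y) :
    Reach SS r (Phi a z w p0 q0 x) (Phi a z w p0 q0 y) := by
  induction r generalizing y with
  | zero =>
    have h' : Step SS x y := Or.inl h
    rcases Phi_step a z w p0 q0 h' with h1 | h1
    · exact h1
    · exfalso
      obtain ⟨h2, h3, h4, h5⟩ := h
      rcases h1 with ⟨-, -, h6⟩ | ⟨-, -, h6⟩
      · have e1 : (Phi a z w p0 q0 x).p = (Phi a z w p0 q0 y).p := by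
          show x.p - a * x.q + p0 = y.p - a * y.q + p0
          rw [h4, h5]
        have e2 : (Phi a z w p0 q0 x).q = (Phi a z w p0 q0 y).q := by
          show x.q + q0 = y.q + q0
          rw [h5]
        rcases h6 with ⟨_, _ | _⟩ | ⟨_, _⟩ | ⟨_, _⟩ <;> omega
      · have e1 : (Phi a z w p0 q0 x).lv = (Phi a z w p0 q0 y).lv := by
          show x.lv + a = y.lv + a
          rw [h2]
        rcases h6 with ⟨_, _⟩ | ⟨_, _⟩ <;> omega
  | succ r ih =>
    obtain ⟨u, h1, h2⟩ := h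
    exact ⟨_, ih h1, Phi_step a z w p0 q0 h2⟩

theorem Psi_eqv (a : ℤ) (z w : ZZ) (p0 q0 : ℤ) {x y : U ZZ} (h : Eqv SS x y) :
    Reach SS 4 (Psi a z w p0 q0 x) (Psi a z w p0 q0 y) := by
  obtain ⟨h1, h2, h3, h4⟩ := h
  have h5 := phi_r_inv a z w x.z y.z x.lv h2
  have h6 := reach_upper (S := SS) (Psi a z w p0 q0 x) (Psi a z w p0 q0 y) (x.lv - a + 2)
    (by show x.lv - a ≤ _; omega) (by show y.lv - a ≤ _; omega) h5
  refine h6.mono ?_
  have e1 : (Psi a z w p0 q0 x).lv = x.lv - a := rfl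
  have e2 : (Psi a z w p0 q0 y).lv = x.lv - a := by rw [h1]; rfl
  have e3 : (Psi a z w p0 q0 y).q - (Psi a z w p0 q0 x).q = 0 := by
    show (y.q - q0) - (x.q - q0) = 0
    rw [h4]; ring
  have e4 : (Psi a z w p0 q0 y).p - (Psi a z w p0 q0 x).p = 0 := by
    show (y.p - p0 + a * (y.q - q0)) - (x.p - p0 + a * (x.q - q0)) = 0
    rw [h4, h3]; ring
  rw [e1, e2, e3, e4]
  simp

/-- one adjacency after changing the point of the tree -/
theorem Psi_adj (a : ℤ) (z w : ZZ) (p0 q0 : ℤ) {x y : U ZZ} (h : Adj0 SS x y) :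
    Reach SS 5 (Psi a z w p0 q0 x) (Psi a z w p0 q0 y) := by
  rcases h with ⟨h1, h2, h3⟩ | ⟨h1, h2, h3⟩
  · -- horizontal edge: first change the base point
    have h4 : Reach SS 4 (Psi a z w p0 q0 x) (Psi a z w p0 q0 ⟨x.lv, y.z, x.p, x.q⟩) :=
      Psi_eqv a z w p0 q0 ⟨rfl, h2, rfl, rfl⟩
    refine h4.trans (s := 1) (Step.reach (Or.inr (Or.inl ⟨?_, SS.refl _ _, ?_⟩)))
    · show x.lv - a = y.lv - a
      rw [h1]
    · show (y.q - q0 = x.q - q0 ∧ (y.p - p0 + a * (y.q - q0) = x.p - p0 + a * (x.q - q0) + 1 ∨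
            x.p - p0 + a * (x.q - q0) = y.p - p0 + a * (y.q - q0) + 1)) ∨
          (y.q - q0 = x.q - q0 + 1 ∧
            y.p - p0 + a * (y.q - q0) = x.p - p0 + a * (x.q - q0) - (x.lv - a)) ∨
          (x.q - q0 = y.q - q0 + 1 ∧
            x.p - p0 + a * (x.q - q0) = y.p - p0 + a * (y.q - q0) - (x.lv - a))
      rcases h3 with ⟨e, e' | e'⟩ | ⟨e, e'⟩ | ⟨e, e'⟩
      · left
        exact ⟨by rw [e], Or.inl (by rw [e, e']; ring)⟩
      · left
        exact ⟨by rw [e], Or.inr (by rw [e, e']; ring)⟩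
      · right; left
        exact ⟨by rw [e]; ring, by rw [e, e']; ring⟩
      · right; right
        exact ⟨by rw [e]; ring, by rw [e, e']; ring⟩
  · have key : ∀ H : ℤ, SS.r H x.z y.z → x.lv ≤ H → y.lv ≤ H →
        Reach SS ((H + 2 - x.lv).natAbs + (H + 2 - y.lv).natAbs) (Psi a z w p0 q0 x)
          (Psi a z w p0 q0 y) := by
      intro H hH hx hy
      have h5 := phi_r_inv a z w x.z y.z H hH
      have h6 := reach_upper (S := SS) (Psi a z w p0 q0 x) (Psi a z w p0 q0 y) (H - a + 2)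
        (by show x.lv - a ≤ _; omega) (by show y.lv - a ≤ _; omega) h5
      refine h6.mono ?_
      have e1 : (Psi a z w p0 q0 x).lv = x.lv - a := rfl
      have e2 : (Psi a z w p0 q0 y).lv = y.lv - a := rfl
      have e3 : (Psi a z w p0 q0 y).q - (Psi a z w p0 q0 x).q = 0 := by
        show (y.q - q0) - (x.q - q0) = 0
        rw [h2]; ring
      have e4 : (Psi a z w p0 q0 y).p - (Psi a z w p0 q0 x).p = 0 := by
        show (y.p - p0 + a * (y.q - q0)) - (x.p - p0 + a * (x.q - q0)) = 0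
        rw [h1, h2]; ring
      rw [e1, e2, e3, e4]
      simp
      omega
    rcases h3 with ⟨e, e'⟩ | ⟨e, e'⟩
    · refine (key y.lv e' (by omega) le_rfl).mono ?_
      omega
    · refine (key x.lv e' le_rfl (by omega)).mono ?_
      omega

theorem Psi_reach (a : ℤ) (z w : ZZ) (p0 q0 : ℤ) {r : ℕ} {x y : U ZZ} (h : Reach SS r x y) :
    Reach SS (5 * r + 4) (Psi a z w p0 q0 x) (Psi a z w p0 q0 y) := by
  induction r generalizing y with
  | zero => simpa using Psi_eqv a z w p0 q0 h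
  | succ r ih =>
    obtain ⟨u, h1, h2⟩ := h
    have h3 : Reach SS 5 (Psi a z w p0 q0 u) (Psi a z w p0 q0 y) := by
      rcases h2 with h2 | h2
      · exact (Psi_eqv a z w p0 q0 h2).mono (by norm_num)
      · exact Psi_adj a z w p0 q0 h2
    exact ((ih h1).trans h3).mono (by omega)

/-- rough transitivity -/
theorem roughly_transitive (x y : V0) : ∃ f : V0 → V0,
    (∀ a b, (6 : ℝ)⁻¹ * (G0.dist (f a) (f b) : ℝ) - 6 ≤ (G0.dist a b : ℝ)) ∧
    (∀ a b, (G0.dist a b : ℝ) ≤ 6 * (G0.dist (f a) (f b) : ℝ) + 6) ∧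
    (∀ b, ∃ a, (G0.dist (f a) b : ℝ) < 6) ∧ f x = y := by
  obtain ⟨x, rfl⟩ := mkV_surj (S := SS) x
  obtain ⟨y, rfl⟩ := mkV_surj (S := SS) y
  set P := Phi (y.lv - x.lv) x.z y.z (y.p - x.p + (y.lv - x.lv) * x.q) (y.q - x.q) with hP
  set Q := Psi (y.lv - x.lv) x.z y.z (y.p - x.p + (y.lv - x.lv) * x.q) (y.q - x.q) with hQ
  have hPQ : ∀ u, P (Q u) = u := fun u => Phi_Psi _ _ _ _ _ u
  have hQP : ∀ u, Q (P u) = u := fun u => Psi_Phi _ _ _ _ _ u
  have hPr : ∀ {r : ℕ} {u v : U ZZ}, Reach SS r u v → Reach SS r (P u) (P v) :=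
    fun h => Phi_reach _ _ _ _ _ h
  have hQr : ∀ {r : ℕ} {u v : U ZZ}, Reach SS r u v → Reach SS (5 * r + 4) (Q u) (Q v) :=
    fun h => Psi_reach _ _ _ _ _ h
  let f : Vx SS → Vx SS := Quotient.lift (fun u => mkV SS (P u)) (by
    intro u v h
    exact mkV_eq.2 (hPr (r := 0) h))
  have hf : ∀ u, f (mkV SS u) = mkV SS (P u) := fun u => rfl
  refine ⟨f, ?_, ?_, ?_, ?_⟩
  · intro a b
    obtain ⟨u, rfl⟩ := mkV_surj (S := SS) a
    obtain ⟨v, rfl⟩ := mkV_surj (S := SS) b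
    rw [hf, hf]
    have h1 : G0.dist (mkV SS (P u)) (mkV SS (P v)) ≤ G0.dist (mkV SS u) (mkV SS v) :=
      dist_le_iff.2 (hPr (reach_dist u v))
    have h2 : (G0.dist (mkV SS (P u)) (mkV SS (P v)) : ℝ) ≤ G0.dist (mkV SS u) (mkV SS v) := by
      exact_mod_cast h1
    have h3 : (0 : ℝ) ≤ G0.dist (mkV SS (P u)) (mkV SS (P v)) := Nat.cast_nonneg _
    linarith
  · intro a b
    obtain ⟨u, rfl⟩ := mkV_surj (S := SS) a
    obtain ⟨v, rfl⟩ := mkV_surj (S := SS) b
    rw [hf, hf]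
    have h1 := hQr (reach_dist (S := SS) (P u) (P v))
    rw [hQP, hQP] at h1
    have h2 : G0.dist (mkV SS u) (mkV SS v) ≤ 5 * G0.dist (mkV SS (P u)) (mkV SS (P v)) + 4 :=
      dist_le_iff.2 h1
    have h3 : (G0.dist (mkV SS u) (mkV SS v) : ℝ) ≤
      5 * G0.dist (mkV SS (P u)) (mkV SS (P v)) + 4 := by exact_mod_cast h2
    have h4 : (0 : ℝ) ≤ G0.dist (mkV SS (P u)) (mkV SS (P v)) := Nat.cast_nonneg _
    linarith
  · intro b
    obtain ⟨v, rfl⟩ := mkV_surj (S := SS) b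
    refine ⟨mkV SS (Q v), ?_⟩
    rw [hf, hPQ]
    have : G0.dist (mkV SS v) (mkV SS v) = 0 := SimpleGraph.dist_self
    rw [this]
    norm_num
  · rw [hf]
    congr 1
    apply U.ext
    · show x.lv + (y.lv - x.lv) = y.lv
      ring
    · exact phi_self _ _ x.z y.z
    · show x.p - (y.lv - x.lv) * x.q + (y.p - x.p + (y.lv - x.lv) * x.q) = y.p
      ring
    · show x.q + (y.q - x.q) = y.q
      ring

theorem G0_connected : G0.Connected := by
  have : Nonempty V0 := ⟨mkV SS ⟨0, Classical.arbitrary ZZ, 0, 0⟩⟩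
  exact SimpleGraph.Connected.mk (graph_preconnected (S := SS))

theorem G0_degree (v : V0) : (G0.neighborSet v).encard ≤ 11 := degree_bound count_SS tt_step v

theorem V0_infinite : Infinite V0 := infinite_Vx (Classical.arbitrary ZZ)

end Pool.Agent.Helper419.LF
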