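import Pool.Agent.Helper419.LFLevel2

/-! Quasi-isometries respect the order of the heights. -/

set_option autoImplicit false

namespace Pool.Agent.Helper419.LF

open Pool.Agent.Helper419.RT (Scale)

variable {Z : Type*} {S : Scale Z}

theorem chain {K : ℕ} {F G : U Z → U Z} (h : QIP S K F G) (n : ℤ) (z : Z) (k : ℕ) (N : ℤ)
    (hN : ∀ i ≤ k, (F ⟨n + (i : ℕ), z, 0, 0⟩).lv + 2 * K ≤ N) :
    S.r N (F ⟨n + (0 : ℕ), z, 0, 0⟩).z (F ⟨n + (k : ℕ), z, 0, 0⟩).z := by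
  induction k with
  | zero => exact S.refl _ _
  | succ k ih =>
    have h1 := ih (fun i hi => hN i (by omega))
    have h2 : Reach S 1 ⟨n + (k : ℕ), z, 0, 0⟩ ⟨n + ((k + 1 : ℕ) : ℤ), z, 0, 0⟩ := by
      have := reach_vert (S := S) (n + (k : ℕ)) (n + ((k + 1 : ℕ) : ℤ)) z z 0 0 (S.refl _ _)
      refine this.mono ?_
      omega
    have h3 := h.f _ _ _ h2
    have h4 := h3.z N (by
      have := hN k (Nat.le_succ k)
      push_cast
      linarith)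
    exact S.trans _ _ _ _ h1 h4

theorem grow {K R C : ℕ} (hfib : FibL S K R) (hlev : LevL S K C) (hsp : S.Split) :
    ∃ δ : ℕ, ∀ F G : U Z → U Z, QIP S K F G → ∀ n z, ∃ i : ℕ, 1 ≤ i ∧ i ≤ δ ∧
      (F ⟨n, z, 0, 0⟩).lv ≤ (F ⟨n + (i : ℕ), z, 0, 0⟩).lv := by
  set c : ℕ := (8 * K + 2 * R) * (2 * C + 2 * K) + (8 * K + 2 * R) with hc
  refine ⟨c + 1, fun F G h n z => ?_⟩
  by_contra hcon
  push Not at hcon
  obtain ⟨z', hz1, hz2⟩ := hsp z (n + ((c + 1 : ℕ) : ℤ))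
  set θ := (F ⟨n, z, 0, 0⟩).lv with hθ
  have e0 : n + ((0 : ℕ) : ℤ) = n := by simp
  have h1 : ∀ i ≤ c + 1, (F ⟨n + (i : ℕ), z, 0, 0⟩).lv ≤ θ := by
    intro i hi
    rcases Nat.eq_zero_or_pos i with h0 | h0
    · subst h0
      rw [e0]
    · exact (hcon i h0 hi).le
  have h2 : ∀ i ≤ c + 1, (F ⟨n + (i : ℕ), z', 0, 0⟩).lv ≤ θ + C := by
    intro i hi
    have h3 := abs_le.1 (hlev F G h ⟨n + (i : ℕ), z', 0, 0⟩ ⟨n + (i : ℕ), z, 0, 0⟩)
    simp only [sub_self, abs_zero, mul_zero, zero_add] at h3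
    have := h1 i hi
    omega
  have h3 := chain h n z (c + 1) (θ + C + 2 * K) (fun i hi => by
    have := h1 i hi
    omega)
  have h4 := chain h n z' (c + 1) (θ + C + 2 * K) (fun i hi => by
    have := h2 i hi
    omega)
  have h5 : F ⟨n + ((c + 1 : ℕ) : ℤ), z, 0, 0⟩ = F ⟨n + ((c + 1 : ℕ) : ℤ), z', 0, 0⟩ :=
    h.feq _ _ ⟨rfl, hz1, rfl, rfl⟩
  rw [h5, e0] at h3
  rw [e0] at h4
  have h6 : S.r (θ + C + 2 * K) (F ⟨n, z, 0, 0⟩).z (F ⟨n, z', 0, 0⟩).z :=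
    S.trans _ _ _ _ h3 (S.symm _ _ _ h4)
  have h7 := abs_le.1 (hlev F G h ⟨n, z', 0, 0⟩ ⟨n, z, 0, 0⟩)
  simp only [sub_self, abs_zero, mul_zero, zero_add] at h7
  have h8 : NearT S ((2 * C + 2 * K : ℕ) : ℤ) (F ⟨n, z, 0, 0⟩) (F ⟨n, z', 0, 0⟩) := by
    refine ⟨θ + C + 2 * K, ?_, ?_, h6, ?_, ?_⟩
    · omega
    · omega
    · push_cast; omega
    · push_cast; omega
  obtain ⟨H, k1, k2, k3, k4, k5⟩ := nearT_back hfib h _ _ _ h8
  simp only at k1 k2 k3 k4 k5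
  have h9 : H - n ≤ (c : ℤ) := by
    rw [hc]; push_cast at k4 ⊢; exact k4
  apply hz2
  refine S.mono _ _ ?_ _ _ k3
  push_cast
  omega

theorem mono_fibre {K C δ : ℕ} (hlev : LevL S K C) {F G : U Z → U Z} (h : QIP S K F G) (z : Z)
    (hδ : ∀ n, ∃ i : ℕ, 1 ≤ i ∧ i ≤ δ ∧ (F ⟨n, z, 0, 0⟩).lv ≤ (F ⟨n + (i : ℕ), z, 0, 0⟩).lv)
    (k : ℕ) : ∀ n, (F ⟨n, z, 0, 0⟩).lv ≤ (F ⟨n + (k : ℕ), z, 0, 0⟩).lv + (C * δ + C) := by
  induction k using Nat.strong_induction_on with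
  | _ k ih =>
    intro n
    by_cases hk : k ≤ δ
    · have h1 := abs_le.1 (hlev F G h ⟨n, z, 0, 0⟩ ⟨n + (k : ℕ), z, 0, 0⟩)
      simp only at h1
      have h2 : |n - (n + (k : ℤ))| = k := by
        rw [show n - (n + (k : ℤ)) = -k by ring, abs_neg, abs_of_nonneg (by positivity)]
      rw [h2] at h1
      have h3 : (C : ℤ) * k ≤ C * δ := by
        apply mul_le_mul_of_nonneg_left _ (by positivity)
        exact_mod_cast hk
      linarith [h1.2]
    · obtain ⟨i, hi1, hi2, hi3⟩ := hδ n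
      have h1 := ih (k - i) (by omega) (n + (i : ℕ))
      have e : n + (i : ℕ) + ((k - i : ℕ) : ℤ) = n + (k : ℕ) := by omega
      rw [e] at h1
      linarith

/-- regularity of a map with respect to the height and the tree -/
structure Reg (S : Scale Z) (D : ℕ) (F : U Z → U Z) : Prop where
  lev : ∀ x y, |(F x).lv - (F y).lv| ≤ D * |x.lv - y.lv| + D
  ord : ∀ x y, x.lv ≤ y.lv → (F x).lv ≤ (F y).lv + D
  rel : ∀ x y, x.lv ≤ y.lv → S.r y.lv x.z y.z → S.r ((F y).lv + D) (F x).z (F y).z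

theorem reg_of_fib {K R : ℕ} (hfib : FibL S K R) (hsp : S.Split) :
    ∃ D : ℕ, ∀ F G : U Z → U Z, QIP S K F G → Reg S D F := by
  obtain ⟨C, hlev⟩ := level hfib
  obtain ⟨δ, hδ⟩ := grow hfib hlev hsp
  set c : ℕ := (C * δ + C) + 2 * C with hc
  have hord : ∀ F G : U Z → U Z, QIP S K F G → ∀ x y : U Z, x.lv ≤ y.lv →
      (F x).lv ≤ (F y).lv + c := by
    intro F G h x y hxy
    have h1 := mono_fibre hlev h x.z (fun n => hδ F G h n x.z) (y.lv - x.lv).toNat x.lv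
    have e : x.lv + (((y.lv - x.lv).toNat : ℕ) : ℤ) = y.lv := by omega
    rw [e] at h1
    have h2 := abs_le.1 (hlev F G h x ⟨x.lv, x.z, 0, 0⟩)
    have h3 := abs_le.1 (hlev F G h y ⟨y.lv, x.z, 0, 0⟩)
    simp only [sub_self, abs_zero, mul_zero, zero_add] at h2 h3
    push_cast [hc]
    linarith [h2.2, h3.1]
  refine ⟨c + 2 * K + R + C, fun F G h => ⟨?_, ?_, ?_⟩⟩
  · intro x y
    refine (hlev F G h x y).trans ?_
    have : (0 : ℤ) ≤ |x.lv - y.lv| := abs_nonneg _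
    push_cast
    have h1 : (C : ℤ) * |x.lv - y.lv| ≤ (c + 2 * K + R + C) * |x.lv - y.lv| := by
      apply mul_le_mul_of_nonneg_right _ this
      have : (0 : ℤ) ≤ c + 2 * K + R := by positivity
      linarith
    have : (0 : ℤ) ≤ c + 2 * K + R := by positivity
    linarith
  · intro x y hxy
    have := hord F G h x y hxy
    push_cast
    have : (0 : ℤ) ≤ 2 * K + R + C := by positivity
    linarith
  · intro x y hxy hr
    have h1 := chain h x.lv x.z (y.lv - x.lv).toNat ((F y).lv + c + 2 * K) (fun i hi => by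
      have := hord F G h ⟨x.lv + (i : ℕ), x.z, 0, 0⟩ y (by simp only; omega)
      linarith)
    have e : x.lv + (((y.lv - x.lv).toNat : ℕ) : ℤ) = y.lv := by omega
    have e0 : x.lv + ((0 : ℕ) : ℤ) = x.lv := by simp
    rw [e, e0] at h1
    have h2 : F ⟨y.lv, x.z, 0, 0⟩ = F ⟨y.lv, y.z, 0, 0⟩ := h.feq _ _ ⟨rfl, hr, rfl, rfl⟩
    rw [h2] at h1
    have h3 := hord F G h x y hxy
    have h4 := (hfib F G h x.lv x.z x.p x.q 0 0).z ((F y).lv + ((c + 2 * K + R + C : ℕ) : ℤ)) (by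
      change (F x).lv + R ≤ _
      push_cast
      have : (0 : ℤ) ≤ 2 * K + C := by positivity
      linarith)
    have h5 := (hfib F G h y.lv y.z y.p y.q 0 0).z ((F y).lv + ((c + 2 * K + R + C : ℕ) : ℤ)) (by
      change (F y).lv + R ≤ _
      push_cast
      have : (0 : ℤ) ≤ c + 2 * K + C := by positivity
      linarith)
    refine S.trans _ _ _ _ h4 (S.trans _ _ _ _ (S.mono _ _ ?_ _ _ h1) (S.symm _ _ _ h5))
    push_cast
    have : (0 : ℤ) ≤ R + C := by positivity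
    linarith

end Pool.Agent.Helper419.LF
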