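import Pool.Agent.Helper419.RTAct

set_option autoImplicit false

namespace Pool.Agent.Helper419.RT

variable {Z : Type*}

open Pointwise
theorem orb_ncard {G X : Type*} [Group G] [MulAction G X] (x y : X) :
    (orb G x y).ncard = (MulAction.stabilizer G y).relIndex (MulAction.stabilizer G x) := by
  have h1 : orb G x y = MulAction.orbit (MulAction.stabilizer G x) y := by
    ext z
    constructor
    · rintro ⟨g, hg, rfl⟩
      exact ⟨⟨g, hg⟩, rfl⟩
    · rintro ⟨⟨g, hg⟩, rfl⟩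
      exact ⟨g, hg, rfl⟩
  rw [h1, ← MulAction.index_stabilizer, Subgroup.relIndex]
  congr 1

theorem pair_aux {G : Type*} [Group G] (A B C : Subgroup G) (hAB : B.relIndex A ≠ 0)
    (hBA : A.relIndex B ≠ 0) (hAC : C.relIndex A ≠ 0) :
    B.relIndex A * (A ⊓ B ⊓ C).relIndex B = A.relIndex B * (A ⊓ B ⊓ C).relIndex A ∧
    (A ⊓ B ⊓ C).relIndex A ≠ 0 ∧ (A ⊓ B ⊓ C).relIndex B ≠ 0 := by
  have h1 : (A ⊓ B ⊓ C).relIndex (A ⊓ B) * (A ⊓ B).relIndex A = (A ⊓ B ⊓ C).relIndex A :=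
    Subgroup.relIndex_mul_relIndex _ _ _ inf_le_left inf_le_left
  have h2 : (A ⊓ B ⊓ C).relIndex (A ⊓ B) * (A ⊓ B).relIndex B = (A ⊓ B ⊓ C).relIndex B :=
    Subgroup.relIndex_mul_relIndex _ _ _ inf_le_left inf_le_right
  have h3 : (A ⊓ B).relIndex A = B.relIndex A := Subgroup.inf_relIndex_left A B
  have h4 : (A ⊓ B).relIndex B = A.relIndex B := Subgroup.inf_relIndex_right A B
  have h5 : (A ⊓ B ⊓ C).relIndex (A ⊓ B) = C.relIndex (A ⊓ B) := Subgroup.inf_relIndex_left _ _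
  have h6 : C.relIndex (A ⊓ B) ≠ 0 := fun h =>
    hAC (Subgroup.relIndex_eq_zero_of_le_right inf_le_left h)
  rw [h3] at h1
  rw [h4] at h2
  rw [h5] at h1 h2
  refine ⟨?_, ?_, ?_⟩
  · rw [← h1, ← h2]; ring
  · rw [← h1]; exact mul_ne_zero h6 hAB
  · rw [← h2]; exact mul_ne_zero h6 hBA

/-- cocycle identity for orbit counts (modular function of commensurable stabilizers) -/
theorem orb_cocycle {G X : Type*} [Group G] [MulAction G X] (P : Set X)
    (hfin : ∀ x ∈ P, ∀ y ∈ P, (orb G x y).Finite) :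
    (∀ x ∈ P, ∀ y ∈ P, ∀ z ∈ P,
      (orb G x y).ncard * (orb G y z).ncard * (orb G z x).ncard
        = (orb G y x).ncard * (orb G z y).ncard * (orb G x z).ncard) ∧
    (∀ x y : X, ∀ g : G, (orb G (g • x) (g • y)).ncard = (orb G x y).ncard) ∧
    (∀ x ∈ P, ∀ y ∈ P, 0 < (orb G x y).ncard) := by
  have hpos : ∀ x ∈ P, ∀ y ∈ P, 0 < (orb G x y).ncard := by
    intro x hx y hy
    rw [Set.ncard_pos (hfin x hx y hy)]
    exact ⟨y, 1, one_smul _ _, one_smul _ _⟩
  refine ⟨?_, ?_, hpos⟩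
  · intro x hx y hy z hz
    have hne : ∀ x ∈ P, ∀ y ∈ P,
        (MulAction.stabilizer G y).relIndex (MulAction.stabilizer G x) ≠ 0 := by
      intro x hx y hy
      rw [← orb_ncard]
      exact (hpos x hx y hy).ne'
    simp only [orb_ncard]
    set A := MulAction.stabilizer G x
    set B := MulAction.stabilizer G y
    set C := MulAction.stabilizer G z
    obtain ⟨e1, a1, b1⟩ := pair_aux A B C (hne x hx y hy) (hne y hy x hx) (hne x hx z hz)
    obtain ⟨e2, a2, b2⟩ := pair_aux B C A (hne y hy z hz) (hne z hz y hy) (hne y hy x hx)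
    obtain ⟨e3, a3, b3⟩ := pair_aux C A B (hne z hz x hx) (hne x hx z hz) (hne z hz y hy)
    have r2 : B ⊓ C ⊓ A = A ⊓ B ⊓ C := by rw [inf_comm, inf_assoc]
    have r3 : C ⊓ A ⊓ B = A ⊓ B ⊓ C := by rw [inf_comm C A, inf_assoc, inf_comm C B, ← inf_assoc]
    rw [r2] at e2 b2
    rw [r3] at e3
    have hne3 : (A ⊓ B ⊓ C).relIndex A * (A ⊓ B ⊓ C).relIndex B * (A ⊓ B ⊓ C).relIndex C ≠ 0 :=
      mul_ne_zero (mul_ne_zero a1 b1) b2
    apply mul_right_cancel₀ hne3
    calc B.relIndex A * C.relIndex B * A.relIndex C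
          * ((A ⊓ B ⊓ C).relIndex A * (A ⊓ B ⊓ C).relIndex B * (A ⊓ B ⊓ C).relIndex C)
        = (B.relIndex A * (A ⊓ B ⊓ C).relIndex B) * (C.relIndex B * (A ⊓ B ⊓ C).relIndex C)
          * (A.relIndex C * (A ⊓ B ⊓ C).relIndex A) := by ring
      _ = (A.relIndex B * (A ⊓ B ⊓ C).relIndex A) * (B.relIndex C * (A ⊓ B ⊓ C).relIndex B)
          * (C.relIndex A * (A ⊓ B ⊓ C).relIndex C) := by rw [e1, e2, e3]
      _ = _ := by ring
  · intro x y g
    have h1 : orb G (g • x) (g • y) = (fun z => g • z) '' orb G x y := by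
      ext z
      constructor
      · rintro ⟨k, hk, rfl⟩
        refine ⟨g⁻¹ • k • g • y, ⟨g⁻¹ * k * g, ?_, ?_⟩, ?_⟩
        · rw [mul_smul, mul_smul, hk, inv_smul_smul]
        · rw [mul_smul, mul_smul]
        · simp only [smul_inv_smul]
      · rintro ⟨_, ⟨k, hk, rfl⟩, rfl⟩
        refine ⟨g * k * g⁻¹, ?_, ?_⟩
        · rw [mul_smul, mul_smul, inv_smul_smul, hk]
        · rw [mul_smul, mul_smul, inv_smul_smul]
    rw [h1]
    exact Set.ncard_image_of_injective _ (MulAction.injective g)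

end Pool.Agent.Helper419.RT
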