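import Pool.Agent.Helper419.RTNear

set_option autoImplicit false

namespace Pool.Agent.Helper419.RT

variable {Z : Type*}

open Pointwise
theorem near_symm_d (S : Scale Z) {r : ℤ} {x y : Pt Z} (h : near S r x y) : near S r y x := by
  obtain ⟨H, L, h1, h2, h3, h4, h5, h6, h7⟩ := h
  exact ⟨H, L, h2, h1, h4, h3, S.symm _ _ _ h5, fun k hk => (h6 k hk).symm, h7⟩

theorem near_refl_d (S : Scale Z) (x : Pt Z) : near S 0 x x :=
  ⟨x.lv, x.lv, le_refl _, le_refl _, le_refl _, le_refl _, S.refl _ _, fun _ _ => rfl, by simp⟩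

theorem near_mono_d (S : Scale Z) {r r' : ℤ} {x y : Pt Z} (h : near S r x y) (hr : r ≤ r') :
    near S r' x y := by
  obtain ⟨H, L, h1, h2, h3, h4, h5, h6, h7⟩ := h
  exact ⟨H, L, h1, h2, h3, h4, h5, h6, le_trans h7 hr⟩

theorem near_nonneg_d (S : Scale Z) {r : ℤ} {x y : Pt Z} (h : near S r x y) : 0 ≤ r := by
  obtain ⟨H, L, h1, h2, h3, h4, h5, h6, h7⟩ := h
  omega

theorem near_trans_d (S : Scale Z) {r s : ℤ} {x y z : Pt Z} (h : near S r x y) (h' : near S s y z) :
    near S (r + s) x z := by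
  obtain ⟨H, L, h1, h2, h3, h4, h5, h6, h7⟩ := h
  obtain ⟨H', L', g1, g2, g3, g4, g5, g6, g7⟩ := h'
  refine ⟨max H H', min L L', ?_, ?_, ?_, ?_, ?_, ?_, ?_⟩
  · exact le_trans (min_le_left _ _) h1
  · exact le_trans (min_le_right _ _) g2
  · exact le_trans h3 (le_max_left _ _)
  · exact le_trans g4 (le_max_right _ _)
  · exact S.trans _ _ _ _ (S.mono _ _ (le_max_left _ _) _ _ h5) (S.mono _ _ (le_max_right _ _) _ _ g5)
  · intro k hk
    rw [h6 k (le_trans hk (min_le_left _ _)), g6 k (le_trans hk (min_le_right _ _))]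
  · rcases le_total H H' with a | a <;> rcases le_total L L' with b | b
    · rw [max_eq_right a, min_eq_left b]; omega
    · rw [max_eq_right a, min_eq_right b]; omega
    · rw [max_eq_left a, min_eq_left b]; omega
    · rw [max_eq_left a, min_eq_right b]; omega

theorem exists_near (S : Scale Z) (x y : Pt Z) : ∃ r, near S r x y := by
  obtain ⟨n, hn⟩ := S.exh x.z y.z
  obtain ⟨N1, hN1⟩ := x.w.2
  obtain ⟨N2, hN2⟩ := y.w.2
  refine ⟨_, max n (max x.lv y.lv), min (min N1 N2 - 1) (min x.lv y.lv), ?_, ?_, ?_, ?_, ?_, ?_, le_refl _⟩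
  · exact le_trans (min_le_right _ _) (min_le_left _ _)
  · exact le_trans (min_le_right _ _) (min_le_right _ _)
  · exact le_trans (le_max_left _ _) (le_max_right _ _)
  · exact le_trans (le_max_right _ _) (le_max_right _ _)
  · exact S.mono _ _ (le_max_left _ _) _ _ hn
  · intro k hk
    have h1 : k ≤ min N1 N2 - 1 := le_trans hk (min_le_left _ _)
    have h2 : min N1 N2 ≤ N1 := min_le_left _ _
    have h3 : min N1 N2 ≤ N2 := min_le_right _ _
    rw [hN1 k (by omega), hN2 k (by omega)]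

/-- vertical walk -/
theorem vert (S : Scale Z) (z : Z) (w : W) (n : ℕ) :
    ∀ k : ℤ, ∃ p : (graph S).Walk ⟨k, z, w⟩ ⟨k + n, z, w⟩, p.length = n := by
  induction n with
  | zero =>
    intro k
    have e : (k + ((0 : ℕ) : ℤ)) = k := by simp
    rw [e]
    exact ⟨SimpleGraph.Walk.nil, rfl⟩
  | succ n ih =>
    intro k
    obtain ⟨p, hp⟩ := ih (k + 1)
    have e : (k + ((n + 1 : ℕ) : ℤ)) = k + 1 + (n : ℤ) := by push_cast; ring
    rw [e]
    have ha : (graph S).Adj ⟨k, z, w⟩ ⟨k + 1, z, w⟩ := by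
      refine ⟨?_, k + 1, k, ?_, ?_, ?_, ?_, S.refl _ _, fun _ _ => rfl, ?_⟩
      · intro h
        have := congrArg Pt.lv h
        simp at this
      · exact le_refl _
      · simp
      · simp
      · exact le_refl _
      · simp
    exact ⟨SimpleGraph.Walk.cons ha p, by simp [hp]⟩

theorem horz (S : Scale Z) (k : ℤ) (z z' : Z) (w w' : W) (h : S.r k z z') (h' : agree k w w') :
    ∃ p : (graph S).Walk ⟨k, z, w⟩ ⟨k, z', w'⟩, p.length ≤ 1 := by
  by_cases e : (⟨k, z, w⟩ : Pt Z) = ⟨k, z', w'⟩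
  · rw [← e]
    exact ⟨SimpleGraph.Walk.nil, by simp⟩
  · have ha : (graph S).Adj ⟨k, z, w⟩ ⟨k, z', w'⟩ :=
      ⟨e, k, k, le_refl _, le_refl _, le_refl _, le_refl _, h, h', by simp⟩
    exact ⟨SimpleGraph.Walk.cons ha SimpleGraph.Walk.nil, by simp⟩

theorem walk_of_near (S : Scale Z) {r : ℤ} {x y : Pt Z} (h : near S r x y) :
    ∃ p : (graph S).Walk x y, (p.length : ℤ) ≤ 3 * r + 2 := by
  obtain ⟨H, L, h1, h2, h3, h4, h5, h6, h7⟩ := h
  obtain ⟨n, z, w⟩ := x
  obtain ⟨n', z', w'⟩ := y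
  simp only at h1 h2 h3 h4 h5 h6
  obtain ⟨p1, hp1⟩ := vert S z w (H - n).toNat n
  have e1 : n + ((H - n).toNat : ℤ) = H := by omega
  rw [e1] at p1
  obtain ⟨p1, hp1⟩ : ∃ p : (graph S).Walk ⟨n, z, w⟩ ⟨H, z, w⟩, p.length = (H - n).toNat := by
    have := vert S z w (H - n).toNat n
    rwa [e1] at this
  obtain ⟨p2, hp2⟩ := horz S H z z' w w h5 (fun _ _ => rfl)
  obtain ⟨p3, hp3⟩ : ∃ p : (graph S).Walk ⟨L, z', w⟩ ⟨H, z', w⟩, p.length = (H - L).toNat := by
    have e : L + ((H - L).toNat : ℤ) = H := by omega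
    have := vert S z' w (H - L).toNat L
    rwa [e] at this
  obtain ⟨p4, hp4⟩ := horz S L z' z' w w' (S.refl _ _) h6
  obtain ⟨p5, hp5⟩ : ∃ p : (graph S).Walk ⟨L, z', w'⟩ ⟨n', z', w'⟩, p.length = (n' - L).toNat := by
    have e : L + ((n' - L).toNat : ℤ) = n' := by omega
    have := vert S z' w' (n' - L).toNat L
    rwa [e] at this
  refine ⟨p1.append (p2.append (p3.reverse.append (p4.append p5))), ?_⟩
  simp only [SimpleGraph.Walk.length_append, SimpleGraph.Walk.length_reverse, hp1, hp3, hp5]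
  push_cast
  omega

theorem graph_connected (S : Scale Z) [Nonempty Z] : (graph S).Connected := by
  have hne : Nonempty (Pt Z) := ⟨⟨0, Classical.arbitrary Z, ⟨fun _ => 0, 0, fun _ _ => rfl⟩⟩⟩
  refine { preconnected := ?_, nonempty := hne }
  intro x y
  obtain ⟨r, hr⟩ := exists_near S x y
  obtain ⟨p, _⟩ := walk_of_near S hr
  exact ⟨p⟩

theorem near_of_walk (S : Scale Z) {x y : Pt Z} (p : (graph S).Walk x y) :
    near S (p.length : ℤ) x y := by
  induction p with
  | nil => simpa using near_refl_d S _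
  | cons h p ih =>
    have := near_trans_d S h.2 ih
    refine near_mono_d S this ?_
    simp only [SimpleGraph.Walk.length_cons]
    push_cast
    omega

/-- distance at most the graph distance -/
theorem near_dist (S : Scale Z) [Nonempty Z] (x y : Pt Z) : near S ((graph S).dist x y) x y := by
  obtain ⟨p, hp⟩ := (graph_connected S).exists_walk_length_eq_dist x y
  rw [← hp]
  exact near_of_walk S p

theorem dist_le (S : Scale Z) [Nonempty Z] {r : ℤ} {x y : Pt Z} (h : near S r x y) :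
    ((graph S).dist x y : ℤ) ≤ 3 * r + 2 := by
  obtain ⟨p, hp⟩ := walk_of_near S h
  have := SimpleGraph.dist_le p
  omega

end Pool.Agent.Helper419.RT

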