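import Pool.Agent.Helper419.RTAct

set_option autoImplicit false

namespace Pool.Agent.Helper419.RT

variable {Z : Type*}

open Pointwise
section muProof

variable {S : Scale Z}

theorem Scale.Sat.mono' {S : Scale Z} {m m2 : ℤ} {A : Set Z} (h : S.Sat m A) (h2 : m2 ≤ m) :
    S.Sat m2 A := fun x y hx hr => h x y hx (S.mono m2 m h2 x y hr)

theorem Scale.mk_eq_iff (S : Scale Z) (m : ℤ) (x y : Z) :
    (Quotient.mk (S.st m) x = Quotient.mk (S.st m) y) ↔ S.r m x y :=
  ⟨fun h => Quotient.exact h, fun h => Quotient.sound h⟩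

theorem Scale.ball_mono (S : Scale Z) (z : Z) {m n : ℤ} (h : m ≤ n) :
    S.ball z m ⊆ S.ball z n := fun x hx => S.mono m n h z x hx

theorem fin_cls (S : Scale Z) (t : ℤ → ℤ) (hc : S.Count t) (m : ℤ) {A : Set Z} (hA : S.Bdd A) :
    ((Quotient.mk (S.st m)) '' A).Finite := by
  obtain ⟨z, n, hz⟩ := hA
  have h1 : ((Quotient.mk (S.st m)) '' (S.ball z (max n m))).Finite := by
    apply Set.finite_of_ncard_pos
    have := hc z m (max n m) (le_max_right _ _)
    unfold Scale.num at this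
    rw [this]
    positivity
  exact h1.subset (Set.image_mono (hz.trans (S.ball_mono z (le_max_left _ _))))

theorem num_scale (S : Scale Z) (t : ℤ → ℤ) (hc : S.Count t) {m m2 : ℤ} {A : Set Z}
    (hs : S.Sat m A) (hA : S.Bdd A) (h2 : m2 ≤ m) :
    S.num m2 A = S.num m A * (2 ^ (m - m2).toNat * 3 ^ (t m - t m2).toNat) := by
  classical
  have hf2 := fin_cls S t hc m2 hA
  have hf := fin_cls S t hc m hA
  let f : Quotient (S.st m2) → Quotient (S.st m) :=
    Quotient.lift (fun x => Quotient.mk (S.st m) x)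
      (fun x y h => Quotient.sound (S.mono m2 m h2 x y h))
  have hfmk : ∀ x, f (Quotient.mk (S.st m2) x) = Quotient.mk (S.st m) x := fun x => rfl
  have hmaps : ∀ a ∈ hf2.toFinset, f a ∈ hf.toFinset := by
    intro a ha
    rw [Set.Finite.mem_toFinset] at ha ⊢
    obtain ⟨x, hx, rfl⟩ := ha
    exact ⟨x, hx, rfl⟩
  have hsum := Finset.card_eq_sum_card_fiberwise (f := f) (s := hf2.toFinset) (t := hf.toFinset)
    (fun a ha => hmaps a ha)
  have hfib : ∀ b ∈ hf.toFinset, (hf2.toFinset.filter (fun a => f a = b)).card =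
      2 ^ (m - m2).toNat * 3 ^ (t m - t m2).toNat := by
    intro b hb
    rw [Set.Finite.mem_toFinset] at hb
    obtain ⟨z, hz, rfl⟩ := hb
    have hbf := fin_cls S t hc m2 (A := S.ball z m) ⟨z, m, le_rfl⟩
    have heq : hf2.toFinset.filter (fun a => f a = Quotient.mk (S.st m) z) = hbf.toFinset := by
      ext a
      simp only [Finset.mem_filter, Set.Finite.mem_toFinset]
      constructor
      · rintro ⟨⟨x, hx, rfl⟩, h⟩
        rw [hfmk, S.mk_eq_iff] at h
        exact ⟨x, S.symm _ _ _ h, rfl⟩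
      · rintro ⟨x, hx, rfl⟩
        refine ⟨⟨x, hs z x hz hx, rfl⟩, ?_⟩
        rw [hfmk, S.mk_eq_iff]
        exact S.symm _ _ _ hx
    rw [heq, ← Set.ncard_eq_toFinset_card _ hbf]
    exact hc z m2 m h2
  rw [Finset.sum_congr rfl hfib, Finset.sum_const, smul_eq_mul] at hsum
  unfold Scale.num
  rw [Set.ncard_eq_toFinset_card _ hf2, Set.ncard_eq_toFinset_card _ hf]
  exact hsum

theorem M_scale (t : ℤ → ℤ) (ht : Monotone t) {m m2 : ℤ} (h2 : m2 ≤ m) :
    M t m = M t m2 * ((2 ^ (m - m2).toNat * 3 ^ (t m - t m2).toNat : ℕ) : ℝ) := by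
  have e1 : (2 : ℝ) ^ m = (2 : ℝ) ^ m2 * (2 : ℝ) ^ (m - m2).toNat := by
    rw [← zpow_natCast, ← zpow_add₀ (by norm_num), Int.toNat_of_nonneg (by omega)]
    congr 1
    ring
  have e2 : (3 : ℝ) ^ (t m) = (3 : ℝ) ^ (t m2) * (3 : ℝ) ^ (t m - t m2).toNat := by
    have := ht h2
    rw [← zpow_natCast, ← zpow_add₀ (by norm_num), Int.toNat_of_nonneg (by omega)]
    congr 1
    ring
  unfold M
  rw [e1, e2]
  push_cast
  ring

theorem numM_scale (S : Scale Z) (t : ℤ → ℤ) (ht : Monotone t) (hc : S.Count t) {m m2 : ℤ}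
    {A : Set Z} (hs : S.Sat m A) (hA : S.Bdd A) (h2 : m2 ≤ m) :
    (S.num m2 A : ℝ) * M t m2 = (S.num m A : ℝ) * M t m := by
  rw [num_scale S t hc hs hA h2, M_scale t ht h2]
  push_cast
  ring

theorem numM_eq (S : Scale Z) (t : ℤ → ℤ) (ht : Monotone t) (hc : S.Count t) {m m2 : ℤ}
    {A : Set Z} (hs : S.Sat m A) (hs2 : S.Sat m2 A) (hA : S.Bdd A) :
    (S.num m2 A : ℝ) * M t m2 = (S.num m A : ℝ) * M t m := by
  rcases le_total m2 m with h | h
  · exact numM_scale S t ht hc hs hA h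
  · exact (numM_scale S t ht hc hs2 hA h).symm

end muProof

/-- existence of the counting measure -/
theorem exists_mu (S : Scale Z) (t : ℤ → ℤ) (ht : Monotone t) (hc : S.Count t) :
    ∃ μ : Set Z → ℝ, IsMu S t μ := by
  classical
  let μ : Set Z → ℝ := fun A =>
    if h : ∃ m, S.Sat m A then (S.num h.choose A : ℝ) * M t h.choose else 0
  have hμ : ∀ A m, S.Sat m A → S.Bdd A → μ A = (S.num m A : ℝ) * M t m := by
    intro A m hs hA
    have h : ∃ m, S.Sat m A := ⟨m, hs⟩
    simp only [μ, dif_pos h]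
    exact numM_eq S t ht hc hs h.choose_spec hA
  refine ⟨μ, ?_, ?_, hμ⟩
  · intro z n
    have hs : S.Sat n (S.ball z n) := fun x y hx hr => S.trans n z x y hx hr
    rw [hμ _ n hs ⟨z, n, le_rfl⟩, hc z n n le_rfl]
    simp
  · rintro A B ⟨⟨a, ha⟩, hA⟩ ⟨⟨b, hb⟩, hB⟩ hd
    have ha' : S.Sat (min a b) A := ha.mono' (min_le_left _ _)
    have hb' : S.Sat (min a b) B := hb.mono' (min_le_right _ _)
    set m := min a b with hm
    have hAB : S.Sat m (A ∪ B) := by
      rintro x y (hx | hx) hr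
      · exact Or.inl (ha' x y hx hr)
      · exact Or.inr (hb' x y hx hr)
    have hBd : S.Bdd (A ∪ B) := by
      obtain ⟨z, n, hz⟩ := hA
      obtain ⟨z', n', hz'⟩ := hB
      obtain ⟨k, hk⟩ := S.exh z z'
      refine ⟨z, max n (max n' k), ?_⟩
      rintro x (hx | hx)
      · exact S.ball_mono z (le_max_left _ _) (hz hx)
      · have h1 : S.r (max n (max n' k)) z' x :=
          S.ball_mono z' ((le_max_left _ _).trans (le_max_right _ _)) (hz' hx)
        have h2 : S.r (max n (max n' k)) z z' :=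
          S.mono k _ ((le_max_right _ _).trans (le_max_right _ _)) _ _ hk
        exact S.trans _ _ _ _ h2 h1
    rw [hμ _ m hAB hBd, hμ _ m ha' hA, hμ _ m hb' hB]
    have : S.num m (A ∪ B) = S.num m A + S.num m B := by
      unfold Scale.num
      rw [Set.image_union]
      apply Set.ncard_union_eq _ (fin_cls S t hc m hA) (fin_cls S t hc m hB)
      rw [Set.disjoint_left]
      rintro _ ⟨x, hx, rfl⟩ ⟨y, hy, hxy⟩
      rw [S.mk_eq_iff] at hxy
      exact Set.disjoint_left.1 hd hx (hb' y x hy hxy)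
    rw [this]
    push_cast
    ring

end Pool.Agent.Helper419.RT
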