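import Pool.Agent.Helper419.RTModel

set_option autoImplicit false

namespace Pool.Agent.Helper419.RT

variable {Z : Type*}

open Pointwise
theorem tt_super (a b : ℤ) : tt a + tt b ≤ tt (a + b) := by
  unfold tt
  rw [Int.le_floor]
  push_cast
  have h1 := Int.floor_le ((a : ℝ) * θ₀)
  have h2 := Int.floor_le ((b : ℝ) * θ₀)
  nlinarith

theorem tt_sub (a b : ℤ) : tt (a + b) ≤ tt a + tt b + 1 := by
  unfold tt
  have h1 := Int.lt_floor_add_one ((a : ℝ) * θ₀)
  have h2 := Int.lt_floor_add_one ((b : ℝ) * θ₀)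
  have h3 := Int.floor_le (((a + b : ℤ) : ℝ) * θ₀)
  have h4 : ((⌊((a + b : ℤ) : ℝ) * θ₀⌋ : ℤ) : ℝ) < ((⌊(a : ℝ) * θ₀⌋ + ⌊(b : ℝ) * θ₀⌋ + 2 : ℤ) : ℝ) := by
    push_cast at h3 ⊢
    nlinarith
  have h5 : ⌊((a + b : ℤ) : ℝ) * θ₀⌋ < ⌊(a : ℝ) * θ₀⌋ + ⌊(b : ℝ) * θ₀⌋ + 2 := by
    exact_mod_cast h4
  omega

theorem tt_two : 1 ≤ tt 2 := by
  unfold tt θ₀
  rw [Int.le_floor]
  push_cast
  have h0 : (0 : ℝ) < Real.sqrt 2 := by positivity
  have h1 : Real.sqrt 2 ≤ 2 := by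
    rw [Real.sqrt_le_left (by norm_num)]
    norm_num
  rw [mul_one_div, le_div_iff₀ h0]
  linarith

/-- the map on `ZZ` -/
noncomputable def phi (a b : ℤ) (p q : ZZ) (z : ZZ) : ZZ :=
  ⟨(fun h => Equiv.swap (p.1.1 (h - a)) (q.1.1 h) (z.1.1 (h - a)),
    fun i => Equiv.swap (p.1.2 (i - b)) (q.1.2 i) (z.1.2 (i - b))), by
    obtain ⟨N1, h1⟩ := p.2
    obtain ⟨N2, h2⟩ := q.2
    obtain ⟨N3, h3⟩ := z.2
    refine ⟨max N2 (max (max (N1 + a) (N1 + b)) (max (N3 + a) (N3 + b))), fun h hh => ?_⟩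
    simp only [gt_iff_lt, max_lt_iff] at hh
    obtain ⟨k1, ⟨k2, k3⟩, k4, k5⟩ := hh
    constructor
    · show Equiv.swap (p.1.1 (h - a)) (q.1.1 h) (z.1.1 (h - a)) = 0
      rw [(h1 (h - a) (by omega)).1, (h2 h k1).1, (h3 (h - a) (by omega)).1]
      simp
    · show Equiv.swap (p.1.2 (h - b)) (q.1.2 h) (z.1.2 (h - b)) = 0
      rw [(h1 (h - b) (by omega)).2, (h2 h k1).2, (h3 (h - b) (by omega)).2]
      simp⟩

/-- the map on `W` -/
noncomputable def psi (a : ℤ) (p q : W) (w : W) : W :=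
  ⟨fun h => Equiv.swap (p.1 (h - a)) (q.1 h) (w.1 (h - a)), by
    obtain ⟨N1, h1⟩ := p.2
    obtain ⟨N2, h2⟩ := q.2
    obtain ⟨N3, h3⟩ := w.2
    refine ⟨min N2 (min (N1 + a) (N3 + a)), fun h hh => ?_⟩
    simp only [lt_min_iff] at hh
    obtain ⟨k1, k2, k3⟩ := hh
    show Equiv.swap (p.1 (h - a)) (q.1 h) (w.1 (h - a)) = 0
    rw [h1 (h - a) (by omega), h2 h k1, h3 (h - a) (by omega)]
    simp⟩

theorem phi_inv (a b : ℤ) (p q z : ZZ) : phi (-a) (-b) q p (phi a b p q z) = z := by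
  apply Subtype.ext
  apply Prod.ext
  · funext h
    show Equiv.swap (q.1.1 (h - -a)) (p.1.1 h)
      (Equiv.swap (p.1.1 (h - -a - a)) (q.1.1 (h - -a)) (z.1.1 (h - -a - a))) = z.1.1 h
    rw [show h - -a - a = h by ring, Equiv.swap_comm (p.1.1 h), Equiv.swap_apply_self]
  · funext h
    show Equiv.swap (q.1.2 (h - -b)) (p.1.2 h)
      (Equiv.swap (p.1.2 (h - -b - b)) (q.1.2 (h - -b)) (z.1.2 (h - -b - b))) = z.1.2 h
    rw [show h - -b - b = h by ring, Equiv.swap_comm (p.1.2 h), Equiv.swap_apply_self]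

theorem psi_inv (a : ℤ) (p q w : W) : psi (-a) q p (psi a p q w) = w := by
  apply Subtype.ext
  funext h
  show Equiv.swap (q.1 (h - -a)) (p.1 h)
    (Equiv.swap (p.1 (h - -a - a)) (q.1 (h - -a)) (w.1 (h - -a - a))) = w.1 h
  rw [show h - -a - a = h by ring, Equiv.swap_comm (p.1 h), Equiv.swap_apply_self]

theorem phi_self (a b : ℤ) (p q : ZZ) : phi a b p q p = q := by
  apply Subtype.ext
  apply Prod.ext
  · funext h
    show Equiv.swap (p.1.1 (h - a)) (q.1.1 h) (p.1.1 (h - a)) = q.1.1 h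
    rw [Equiv.swap_apply_left]
  · funext h
    show Equiv.swap (p.1.2 (h - b)) (q.1.2 h) (p.1.2 (h - b)) = q.1.2 h
    rw [Equiv.swap_apply_left]

theorem psi_self (a : ℤ) (p q : W) : psi a p q p = q := by
  apply Subtype.ext
  funext h
  show Equiv.swap (p.1 (h - a)) (q.1 h) (p.1 (h - a)) = q.1 h
  rw [Equiv.swap_apply_left]

/-- the map on points -/
noncomputable def FF (a : ℤ) (b : ℤ) (p q : ZZ) (u v : W) : Pt ZZ ≃ Pt ZZ where
  toFun x := ⟨x.lv + a, phi a b p q x.z, psi a u v x.w⟩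
  invFun x := ⟨x.lv - a, phi (-a) (-b) q p x.z, psi (-a) v u x.w⟩
  left_inv x := by
    apply Pt.ext
    · show x.lv + a - a = x.lv
      ring
    · exact phi_inv a b p q x.z
    · exact psi_inv a u v x.w
  right_inv x := by
    apply Pt.ext
    · show x.lv - a + a = x.lv
      ring
    · have := phi_inv (-a) (-b) q p x.z
      rwa [neg_neg, neg_neg] at this
    · have := psi_inv (-a) v u x.w
      rwa [neg_neg] at this

/-- coarse transitivity -/
theorem rough_trans : ∃ s : ℤ, 0 ≤ s ∧ ∀ x y : Pt ZZ, ∃ F : Pt ZZ ≃ Pt ZZ, F x = y ∧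
    (∀ a b r, near SS r a b → near SS r (F a) (F b)) ∧
    (∀ a b r, near SS r (F a) (F b) → near SS (r + s) a b) := by
  refine ⟨2, by norm_num, fun x y => ?_⟩
  set a := y.lv - x.lv with ha
  set b := tt a with hb
  refine ⟨FF a b x.z y.z x.w y.w, ?_, ?_, ?_⟩
  · apply Pt.ext
    · show x.lv + a = y.lv
      rw [ha]; ring
    · exact phi_self a b x.z y.z
    · exact psi_self a x.w y.w
  · rintro A B r ⟨H, L, h1, h2, h3, h4, ⟨h5, h5'⟩, h6, h7⟩
    refine ⟨H + a, L + a, ?_, ?_, ?_, ?_, ⟨?_, ?_⟩, ?_, ?_⟩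
    · show L + a ≤ A.lv + a
      omega
    · show L + a ≤ B.lv + a
      omega
    · show A.lv + a ≤ H + a
      omega
    · show B.lv + a ≤ H + a
      omega
    · intro h hh
      show Equiv.swap (x.z.1.1 (h - a)) (y.z.1.1 h) (A.z.1.1 (h - a)) =
        Equiv.swap (x.z.1.1 (h - a)) (y.z.1.1 h) (B.z.1.1 (h - a))
      rw [h5 (h - a) (by omega)]
    · intro i hi
      show Equiv.swap (x.z.1.2 (i - b)) (y.z.1.2 i) (A.z.1.2 (i - b)) =
        Equiv.swap (x.z.1.2 (i - b)) (y.z.1.2 i) (B.z.1.2 (i - b))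
      have := tt_super H a
      rw [h5' (i - b) (by omega)]
    · intro h hh
      show Equiv.swap (x.w.1 (h - a)) (y.w.1 h) (A.w.1 (h - a)) =
        Equiv.swap (x.w.1 (h - a)) (y.w.1 h) (B.w.1 (h - a))
      rw [h6 (h - a) (by omega)]
    · omega
  · rintro A B r ⟨H, L, h1, h2, h3, h4, ⟨h5, h5'⟩, h6, h7⟩
    replace h1 : L ≤ A.lv + a := h1
    replace h2 : L ≤ B.lv + a := h2
    replace h3 : A.lv + a ≤ H := h3
    replace h4 : B.lv + a ≤ H := h4
    refine ⟨H - a + 2, L - a, by omega, by omega, by omega, by omega, ⟨?_, ?_⟩, ?_, by omega⟩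
    · intro k hk
      have e := h5 (k + a) (by omega)
      replace e : Equiv.swap (x.z.1.1 (k + a - a)) (y.z.1.1 (k + a)) (A.z.1.1 (k + a - a)) =
        Equiv.swap (x.z.1.1 (k + a - a)) (y.z.1.1 (k + a)) (B.z.1.1 (k + a - a)) := e
      have e' := (Equiv.injective _) e
      rwa [add_sub_cancel_right] at e'
    · intro i hi
      have q1 := tt_sub (H - a) a
      rw [sub_add_cancel] at q1
      have q2 := tt_super (H - a) 2
      have q3 := tt_two
      have e := h5' (i + b) (by omega)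
      replace e : Equiv.swap (x.z.1.2 (i + b - b)) (y.z.1.2 (i + b)) (A.z.1.2 (i + b - b)) =
        Equiv.swap (x.z.1.2 (i + b - b)) (y.z.1.2 (i + b)) (B.z.1.2 (i + b - b)) := e
      have e' := (Equiv.injective _) e
      rwa [add_sub_cancel_right] at e'
    · intro k hk
      have e := h6 (k + a) (by omega)
      replace e : Equiv.swap (x.w.1 (k + a - a)) (y.w.1 (k + a)) (A.w.1 (k + a - a)) =
        Equiv.swap (x.w.1 (k + a - a)) (y.w.1 (k + a)) (B.w.1 (k + a - a)) := e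
      have e' := (Equiv.injective _) e
      rwa [add_sub_cancel_right] at e'

end Pool.Agent.Helper419.RT
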