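import Pool.Agent.Helper419.RTNear

/-! Leaf lemma: points with the same level and the same upper branch go to points with coarsely the
same level and the same upper branch. -/

set_option autoImplicit false

namespace Pool.Agent.Helper419.RT

variable {Z : Type*}

/-- constant of the core lemma -/
def D2 (A : ℤ) : ℤ := 2 * A * (4 * A ^ 2 + A + 2) + 2 * A

theorem core (S : Scale Z) (hS : S.FinCls) (A : ℤ) (hA : 1 ≤ A) (F : Pt Z → Pt Z)
    (hF : QI S A F) (n : ℤ) (z : Z) (w : W) (T : ℕ) (q : ℕ → Pt Z) (l : ℤ) (I : Set ℕ)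
    (hI : I.Infinite) (hlv : ∀ i ∈ I, l ≤ (q i).lv)
    (hag : ∀ i ∈ I, ∀ j ∈ I, agree (l - 1) (q i).w (q j).w)
    (hne : ∀ i ∈ I, ∀ j ∈ I, i ≠ j → (q i).w.1 l ≠ (q j).w.1 l)
    (hq : ∀ i ∈ I, near S A (F ⟨n + T, z, upd w (n + 1) i⟩) (q i)) :
    ∀ i₀ ∈ I, |(F ⟨n, z, w⟩).lv - l| ≤ D2 A ∧
      agree (l - D2 A) (F ⟨n, z, w⟩).w (q i₀).w := by
  classical
  intro i₀ hi₀
  -- the chains
  set p : ℕ → ℕ → Pt Z := fun i k => if k = 0 then F ⟨n, z, w⟩
    else if k ≤ T + 1 then F ⟨n + ((k - 1 : ℕ) : ℤ), z, upd w (n + 1) i⟩ else q i with hp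
  have hp0 : ∀ i, p i 0 = F ⟨n, z, w⟩ := fun i => by simp [hp]
  have hp1 : ∀ i k, k ≤ T → p i (k + 1) = F ⟨n + (k : ℤ), z, upd w (n + 1) i⟩ := by
    intro i k hk
    simp only [hp]
    rw [if_neg (by omega), if_pos (by omega)]
    simp
  have hp2 : ∀ i, p i (T + 2) = q i := by
    intro i
    simp only [hp]
    rw [if_neg (by omega), if_neg (by omega)]
  have hstep : ∀ i ∈ I, ∀ k ≤ T + 1, near S (2 * A) (p i k) (p i (k + 1)) := by
    intro i hi k hk
    rcases Nat.eq_zero_or_pos k with rfl | hk0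
    · rw [hp0, hp1 i 0 (by omega)]
      have : near S 0 (⟨n, z, w⟩ : Pt Z) ⟨n + ((0 : ℕ) : ℤ), z, upd w (n + 1) i⟩ :=
        ⟨n, n, le_rfl, by simp, le_rfl, by simp, S.refl _ _, agree_upd _ _ _, by omega⟩
      exact near_mono S (hF.1 _ _ _ this) (by omega)
    · rcases eq_or_lt_of_le hk with rfl | hk'
      · have e1 : p i (T + 1) = F ⟨n + (T : ℤ), z, upd w (n + 1) i⟩ := hp1 i T le_rfl
        rw [e1, hp2]
        exact near_mono S (hq i hi) (by omega)
      · obtain ⟨k', rfl⟩ : ∃ k', k = k' + 1 := ⟨k - 1, by omega⟩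
        rw [hp1 i k' (by omega), hp1 i (k' + 1) (by omega)]
        have : near S 1 (⟨n + (k' : ℤ), z, upd w (n + 1) i⟩ : Pt Z)
            ⟨n + ((k' + 1 : ℕ) : ℤ), z, upd w (n + 1) i⟩ :=
          ⟨n + k' + 1, n + k', le_rfl, by push_cast; omega, by simp only; omega, by push_cast; omega,
            S.refl _ _, agree_refl _ _, by omega⟩
        have := hF.1 _ _ _ this
        exact near_mono S this (by omega)
  have hchain : ∀ i ∈ I, ∀ k ≤ T + 2, near S (2 * A * k) (F ⟨n, z, w⟩) (p i k) := by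
    intro i hi k
    induction k with
    | zero => intro _; rw [hp0]; simpa using near_refl S _
    | succ k ih =>
      intro hk
      have h1 := ih (by omega)
      have h2 := hstep i hi k (by omega)
      refine near_mono S (near_trans S h1 h2) ?_
      push_cast
      ring_nf
      omega
  -- exclude at most one index
  set Bad : Set ℕ := {i ∈ I | agree l (F ⟨n, z, w⟩).w (q i).w} with hBad
  have hBadfin : Bad.Finite := by
    apply Set.Subsingleton.finite
    intro i hi j hj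
    by_contra hij
    refine hne i hi.1 j hj.1 hij ?_
    rw [← hi.2 l le_rfl, ← hj.2 l le_rfl]
  have hI1 : (I \ Bad).Infinite := hI.sdiff hBadfin
  -- first passage
  have hk : ∀ i ∈ I \ Bad, ∃ k, k ≤ T + 1 ∧
      |(p i k).lv - l| ≤ 2 * A ∧ agree (l - 2 * A) (p i k).w (q i).w := by
    intro i hi
    obtain ⟨k, hk1, hk2, hk3⟩ := first_pass
      (fun k => l ≤ (p i k).lv ∧ agree l (p i k).w (q i).w) (T + 2)
      (by
        intro h
        apply hi.2
        rw [hp0] at h
        exact ⟨hi.1, h.2⟩)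
      (by rw [hp2]; exact ⟨hlv i hi.1, agree_refl _ _⟩)
    refine ⟨k, by omega, ?_⟩
    obtain ⟨H, L, h1, h2, h3, h4, h5, h6, h7⟩ := hstep i hi.1 k (by omega)
    have hL : L ≤ l - 1 := by
      by_contra hcon
      apply hk2
      refine ⟨by omega, ?_⟩
      exact agree_trans (agree_mono h6 (by omega)) hk3.2
    have hk31 := hk3.1
    refine ⟨?_, ?_⟩
    · rw [abs_le]; constructor <;> omega
    · exact agree_trans (agree_mono h6 (by omega)) (agree_mono hk3.2 (by omega))
  choose! κ hκ using hk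
  -- pigeonhole
  obtain ⟨c, -, hc⟩ := pigeon hI1 (fun i => (κ i, col S (p i (κ i))))
    (T := (Set.Iic (T + 1)) ×ˢ {c | ∃ y, near S (2 * A * (T + 2)) (F ⟨n, z, w⟩) y ∧ col S y = c})
    ((Set.finite_Iic _).prod (col_finite S hS _ _)) (by
      intro i hi
      refine ⟨(hκ i hi).1, p i (κ i), ?_, rfl⟩
      have h1 := (hκ i hi).1
      refine near_mono S (hchain i hi.1 (κ i) (by omega)) ?_
      have : (κ i : ℤ) ≤ T + 2 := by exact_mod_cast (by omega : κ i ≤ T + 2)
      nlinarith)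
  obtain ⟨i, hi⟩ := hc.nonempty
  obtain ⟨j, hj, hij⟩ := (hc.sdiff (Set.finite_singleton i)).nonempty
  have hij' : i ≠ j := fun h => hij h.symm
  have hiI := hi.1
  have hjI := hj.1
  have hi2 := hi.2
  have hj2 := hj.2
  rw [← hj2] at hi2
  simp only [Prod.mk.injEq] at hi2
  obtain ⟨hκij, hcol⟩ := hi2
  obtain ⟨hlvij, hrij⟩ := col_eq S hcol
  obtain ⟨-, hi3, hi4⟩ := hκ i hiI
  obtain ⟨hkT, hj3, hj4⟩ := hκ j hjI
  have hagij : agree (l - 2 * A) (p i (κ i)).w (p j (κ j)).w := by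
    refine agree_trans hi4 (agree_trans ?_ (agree_symm hj4))
    exact agree_mono (hag i hiI.1 j hjI.1) (by omega)
  -- bound on the time
  have hnear : near S (4 * A) (p i (κ i)) (p j (κ j)) := by
    rw [abs_le] at hi3
    exact ⟨(p i (κ i)).lv, l - 2 * A, by omega, by omega, le_rfl, by omega, hrij, hagij, by omega⟩
  have htime : (κ i : ℤ) ≤ 4 * A ^ 2 + A + 1 := by
    rcases Nat.eq_zero_or_pos (κ i) with h0 | hpos
    · rw [h0]; push_cast; positivity
    · obtain ⟨k', hk'⟩ : ∃ k', κ i = k' + 1 := ⟨κ i - 1, by omega⟩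
      have hkj : κ j = k' + 1 := by omega
      rw [hk', hkj, hp1 i k' (by omega), hp1 j k' (by omega)] at hnear
      have := near_upd_upd S hij' (hF.2 _ _ _ hnear)
      rw [hk']
      push_cast
      nlinarith
  have hfin := hchain i hiI.1 (κ i) (by omega)
  have hD0 : 2 * A * (κ i : ℤ) ≤ 2 * A * (4 * A ^ 2 + A + 2) := by
    apply mul_le_mul_of_nonneg_left _ (by omega)
    omega
  have h1 := near_lv S hfin
  rw [abs_le] at h1 hi3
  refine ⟨?_, ?_⟩
  · rw [abs_le]
    unfold D2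
    constructor <;> omega
  · have h2 : agree (l - D2 A) (F ⟨n, z, w⟩).w (p i (κ i)).w := by
      apply near_w S hfin
      unfold D2
      omega
    have hpos : 0 ≤ 2 * A * (4 * A ^ 2 + A + 2) := by positivity
    refine agree_trans h2 (agree_trans (agree_mono hi4 ?_) (agree_mono (hag i hiI.1 i₀ hi₀) ?_))
    · unfold D2; omega
    · unfold D2; omega

/-- constant of the leaf lemma -/
def D1 (A : ℤ) : ℤ := 2 * D2 A

theorem leaf (S : Scale Z) (hS : S.FinCls) (A : ℤ) (hA : 1 ≤ A) (F : Pt Z → Pt Z)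
    (hF : QI S A F) (n : ℤ) (z z' : Z) (w : W) :
    |(F ⟨n, z, w⟩).lv - (F ⟨n, z', w⟩).lv| ≤ D1 A ∧
    agree (min (F ⟨n, z, w⟩).lv (F ⟨n, z', w⟩).lv - D1 A) (F ⟨n, z, w⟩).w (F ⟨n, z', w⟩).w := by
  obtain ⟨H, hH⟩ := S.exh z z'
  set T : ℕ := (H - n).toNat with hT
  have hr : S.r (n + T) z z' := S.mono _ _ (by omega) _ _ hH
  have hpos : 0 ≤ 2 * A * (4 * A ^ 2 + A + 2) := by positivity
  by_cases hTA : (T : ℤ) ≤ A
  · have : near S T (⟨n, z, w⟩ : Pt Z) ⟨n, z', w⟩ :=
      ⟨n + T, n, le_rfl, le_rfl, by simp only; omega, by simp only; omega, hr, agree_refl _ _,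
        by omega⟩
    have h := hF.1 _ _ _ this
    have hb : A * T + A ≤ D1 A := by
      unfold D1 D2
      nlinarith
    refine ⟨(near_lv S h).trans hb, near_w S h ?_⟩
    omega
  · push Not at hTA
    have hnn : ∀ i j, near S T (⟨n + T, z, upd w (n + 1) i⟩ : Pt Z) ⟨n + T, z, upd w (n + 1) j⟩ := by
      intro i j
      refine ⟨n + T, n, by simp only; omega, by simp only; omega, le_rfl, le_rfl, S.refl _ _, ?_,
        by omega⟩
      exact agree_trans (agree_symm (agree_upd w n i)) (agree_upd w n j)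
    set q : ℕ → Pt Z := fun i => F ⟨n + T, z, upd w (n + 1) i⟩ with hq
    have hqq : ∀ i j, near S (A * T + A) (q i) (q j) := fun i j => hF.1 _ _ _ (hnn i j)
    obtain ⟨c, -, hc⟩ := pigeon (Set.infinite_univ (α := ℕ)) (fun i => col S (q i))
      (col_finite S hS (q 0) (A * T + A)) (fun i _ => ⟨q i, hqq 0 i, rfl⟩)
    set I₀ : Set ℕ := {i ∈ Set.univ | col S (q i) = c} with hI₀
    obtain ⟨i₁, hi₁⟩ := hc.nonempty
    have hcol : ∀ i ∈ I₀, ∀ j ∈ I₀, (q i).lv = (q j).lv ∧ S.r (q i).lv (q i).z (q j).z := by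
      intro i hi j hj
      exact col_eq S (hi.2.trans hj.2.symm)
    set m := (q i₁).lv with hm
    have hlvm : ∀ i ∈ I₀, (q i).lv = m := fun i hi => (hcol i hi i₁ hi₁).1
    obtain ⟨R, hR⟩ : ∃ R : ℕ, (R : ℤ) = A * T + A := ⟨(A * T + A).toNat, by
      rw [Int.toNat_of_nonneg]; positivity⟩
    obtain ⟨l, hl1, hl2, I', hI', hI'inf, hI'3⟩ := split (fun i => (q i).w) m R I₀ hc
      (by
        intro i hi j hj
        apply near_w S (hqq i j)
        rw [hlvm i hi, hlvm j hj, hR]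
        simp)
      (by
        intro i hi j hj hij hag
        have h0 : near S 0 (q i) (q j) := by
          refine ⟨m, m, by rw [hlvm i hi], by rw [hlvm j hj], by rw [hlvm i hi], by rw [hlvm j hj],
            ?_, hag, by omega⟩
          have := (hcol i hi j hj).2
          rwa [hlvm i hi] at this
        have := near_upd_upd S hij (hF.2 _ _ _ h0)
        omega)
    obtain ⟨i₀, hi₀⟩ := hI'inf.nonempty
    have hlv' : ∀ i ∈ I', l ≤ (q i).lv := fun i hi => by rw [hlvm i (hI' hi)]; exact hl2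
    have c1 := core S hS A hA F hF n z w T q l I' hI'inf hlv'
      (fun i hi j hj => (hI'3 i hi j hj).1) (fun i hi j hj => (hI'3 i hi j hj).2)
      (fun i _ => near_mono S (near_refl S _) (by omega)) i₀ hi₀
    have c2 := core S hS A hA F hF n z' w T q l I' hI'inf hlv'
      (fun i hi j hj => (hI'3 i hi j hj).1) (fun i hi j hj => (hI'3 i hi j hj).2)
      (fun i _ => by
        have : near S 0 (⟨n + T, z', upd w (n + 1) i⟩ : Pt Z) ⟨n + T, z, upd w (n + 1) i⟩ :=
          ⟨n + T, n + T, le_rfl, le_rfl, le_rfl, le_rfl, S.symm _ _ _ hr, agree_refl _ _, by omega⟩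
        exact near_mono S (hF.1 _ _ _ this) (by omega)) i₀ hi₀
    obtain ⟨c11, c12⟩ := c1
    obtain ⟨c21, c22⟩ := c2
    rw [abs_le] at c11 c21
    refine ⟨?_, ?_⟩
    · rw [abs_le]; unfold D1; constructor <;> omega
    · refine agree_mono (agree_trans c12 (agree_symm c22)) ?_
      unfold D1
      omega

end Pool.Agent.Helper419.RT
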