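import Mathlib
import Pool.Agent.Helper419.BackForth

set_option autoImplicit false

namespace Pool.Agent.Helper419.Rado

open Pool.Agent.Helper419.BackForth

/-- one-point extension property between two coloured graphs -/
def Step {V W : Type*} (cV : V → ℕ) (rW : W → W → Prop) (cW : W → ℕ) : Prop :=
  ∀ (a : V) (U U' : Finset W), Disjoint U U' → (∀ u ∈ U, cV a = 0 ∨ cW u = 0) →
    ∃ b : W, b ∉ U ∧ b ∉ U' ∧ cW b = cV a ∧ (∀ u ∈ U, rW b u) ∧ (∀ u ∈ U', ¬ rW b u)

/-- finite partial isomorphism -/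
def PIso {V W : Type*} (rV : V → V → Prop) (cV : V → ℕ) (rW : W → W → Prop) (cW : W → ℕ)
    (p : Finset (V × W)) : Prop :=
  (∀ a ∈ p, cV a.1 = cW a.2) ∧
    ∀ a ∈ p, ∀ b ∈ p, (a.1 = b.1 ↔ a.2 = b.2) ∧ (rV a.1 b.1 ↔ rW a.2 b.2)

open Classical in
theorem forth {V W : Type*} (rV : V → V → Prop) (cV : V → ℕ) (rW : W → W → Prop) (cW : W → ℕ)
    (symV : ∀ a b, rV a b → rV b a) (symW : ∀ a b, rW a b → rW b a)
    (irrV : ∀ a, ¬ rV a a) (irrW : ∀ a, ¬ rW a a)
    (hV : ∀ a b, rV a b → cV a = 0 ∨ cV b = 0)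
    (hs : Step cV rW cW) (p : Finset (V × W)) (hp : PIso rV cV rW cW p) (a : V) :
    ∃ b, PIso rV cV rW cW (insert (a, b) p) := by
  by_cases h : ∃ b, (a, b) ∈ p
  · obtain ⟨b, hb⟩ := h
    exact ⟨b, by rw [Finset.insert_eq_of_mem hb]; exact hp⟩
  have hna : ∀ x ∈ p, x.1 ≠ a := by
    rintro ⟨x, y⟩ hx rfl
    exact h ⟨y, hx⟩
  obtain ⟨hc, hr⟩ := hp
  obtain ⟨b, hb1, hb2, hb3, hb4, hb5⟩ := hs a ((p.filter (fun x => rV a x.1)).image Prod.snd)
    ((p.filter (fun x => ¬ rV a x.1)).image Prod.snd)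
    (by
      rw [Finset.disjoint_left]
      intro y hy hy'
      simp only [Finset.mem_image, Finset.mem_filter] at hy hy'
      obtain ⟨x, ⟨hx, hxa⟩, rfl⟩ := hy
      obtain ⟨x', ⟨hx', hxa'⟩, he⟩ := hy'
      have := (hr x hx x' hx').1.mpr he.symm
      exact hxa' (this ▸ hxa))
    (by
      intro u hu
      simp only [Finset.mem_image, Finset.mem_filter] at hu
      obtain ⟨x, ⟨hx, hxa⟩, rfl⟩ := hu
      rw [← hc x hx]
      exact hV _ _ hxa)
  have hbn : ∀ x ∈ p, x.2 ≠ b := by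
    intro x hx he
    by_cases hxa : rV a x.1
    · exact hb1 (Finset.mem_image.mpr ⟨x, Finset.mem_filter.mpr ⟨hx, hxa⟩, he⟩)
    · exact hb2 (Finset.mem_image.mpr ⟨x, Finset.mem_filter.mpr ⟨hx, hxa⟩, he⟩)
  have hrel : ∀ x ∈ p, (rV a x.1 ↔ rW b x.2) := by
    intro x hx
    by_cases hxa : rV a x.1
    · exact ⟨fun _ => hb4 _ (Finset.mem_image.mpr ⟨x, Finset.mem_filter.mpr ⟨hx, hxa⟩, rfl⟩),
        fun _ => hxa⟩
    · exact ⟨fun h' => absurd h' hxa, fun h' => absurd h'
        (hb5 _ (Finset.mem_image.mpr ⟨x, Finset.mem_filter.mpr ⟨hx, hxa⟩, rfl⟩))⟩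
  refine ⟨b, ?_, ?_⟩
  · intro x hx
    rw [Finset.mem_insert] at hx
    rcases hx with rfl | hx
    · exact hb3.symm
    · exact hc x hx
  · intro x hx y hy
    rw [Finset.mem_insert] at hx hy
    rcases hx with rfl | hx <;> rcases hy with rfl | hy
    · exact ⟨by simp, by simp [irrV, irrW]⟩
    · refine ⟨⟨fun he => absurd he.symm (hna y hy), fun he => absurd he.symm (hbn y hy)⟩, hrel y hy⟩
    · refine ⟨⟨fun he => absurd he (hna x hx), fun he => absurd he (hbn x hx)⟩, ?_⟩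
      constructor
      · intro h'; exact symW _ _ ((hrel x hx).mp (symV _ _ h'))
      · intro h'; exact symV _ _ ((hrel x hx).mpr (symW _ _ h'))
    · exact hr x hx y hy

open Classical in
theorem PIso.swap {V W : Type*} {rV : V → V → Prop} {cV : V → ℕ} {rW : W → W → Prop} {cW : W → ℕ}
    {p : Finset (V × W)} (hp : PIso rV cV rW cW p) :
    PIso rW cW rV cV (p.image Prod.swap) := by
  refine ⟨?_, ?_⟩
  · intro x hx
    obtain ⟨y, hy, rfl⟩ := Finset.mem_image.mp hx
    exact (hp.1 y hy).symm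
  · intro x hx x' hx'
    obtain ⟨y, hy, rfl⟩ := Finset.mem_image.mp hx
    obtain ⟨y', hy', rfl⟩ := Finset.mem_image.mp hx'
    exact ⟨(hp.2 y hy y' hy').1.symm, (hp.2 y hy y' hy').2.symm⟩

/-- homogeneity / uniqueness by back-and-forth -/
theorem exists_iso {V W : Type*} [Countable V] [Countable W]
    (rV : V → V → Prop) (cV : V → ℕ) (rW : W → W → Prop) (cW : W → ℕ)
    (symV : ∀ a b, rV a b → rV b a) (symW : ∀ a b, rW a b → rW b a)
    (irrV : ∀ a, ¬ rV a a) (irrW : ∀ a, ¬ rW a a)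
    (hV : ∀ a b, rV a b → cV a = 0 ∨ cV b = 0)
    (hW : ∀ a b, rW a b → cW a = 0 ∨ cW b = 0)
    (hs : Step cV rW cW) (hs' : Step cW rV cV)
    (p : Finset (V × W)) (hp : PIso rV cV rW cW p) :
    ∃ e : V ≃ W, (∀ x ∈ p, e x.1 = x.2) ∧ (∀ a, cW (e a) = cV a) ∧
      ∀ a b, rV a b ↔ rW (e a) (e b) := by
  classical
  obtain ⟨e, he, hq⟩ := backForth (PIso rV cV rW cW)
    (fun p hp a ha b hb => (hp.2 a ha b hb).1)
    (fun p hp a => forth rV cV rW cW symV symW irrV irrW hV hs p hp a)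
    (fun p hp b => by
      obtain ⟨a, ha⟩ := forth rW cW rV cV symW symV irrW irrV hW hs' _ hp.swap b
      refine ⟨a, ?_⟩
      have := ha.swap
      rw [Finset.image_insert, Finset.image_image] at this
      simpa using this) p hp
  refine ⟨e, he, ?_, ?_⟩
  · intro a
    obtain ⟨q, h1, h2, h3⟩ := hq a a
    exact (h1.1 _ h2).symm
  · intro a b
    obtain ⟨q, h1, h2, h3⟩ := hq a b
    exact (h1.2 _ h2 _ h3).2

/-- the graph used in the frozen statements -/
abbrev R : SimpleGraph ℕ := SimpleGraph.fromRel (fun i j : ℕ => Nat.testBit j i = true)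

lemma exists_bits (S : Finset ℕ) : ∃ m : ℕ, ∀ i, Nat.testBit m i = true ↔ i ∈ S := by
  induction S using Finset.induction_on with
  | empty => exact ⟨0, by simp⟩
  | insert a S ha ih =>
    obtain ⟨m, hm⟩ := ih
    refine ⟨m ||| 2 ^ a, fun i => ?_⟩
    rw [Nat.testBit_or, Nat.testBit_two_pow, Bool.or_eq_true, hm i, Finset.mem_insert]
    simp only [decide_eq_true_eq]
    constructor
    · rintro (h | h)
      · exact Or.inr h
      · exact Or.inl h.symm
    · rintro (h | h)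
      · exact Or.inr h.symm
      · exact Or.inl h

/-- extension property of the testBit graph with control of the leading bit -/
lemma ext_log (U U' : Finset ℕ) (hd : Disjoint U U') (N : ℕ) (hN : ∀ x ∈ U ∪ U', x < N) :
    ∃ z : ℕ, z ∉ U ∧ z ∉ U' ∧ Nat.log2 z = N ∧ (∀ u ∈ U, R.Adj z u) ∧ (∀ u ∈ U', ¬ R.Adj z u) := by
  obtain ⟨z, hz⟩ := exists_bits (insert N U)
  have hzN : 2 ^ N ≤ z := Nat.ge_two_pow_of_testBit ((hz N).mpr (Finset.mem_insert_self _ _))
  have hzlt : z < 2 ^ (N + 1) := by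
    apply Nat.lt_pow_two_of_testBit
    intro i hi
    by_contra hne
    have h1 : Nat.testBit z i = true := by
      cases h : Nat.testBit z i
      · exact absurd h hne
      · rfl
    have h2 := (hz i).mp h1
    rw [Finset.mem_insert] at h2
    rcases h2 with h2 | h2
    · omega
    · have := hN i (Finset.mem_union_left _ h2); omega
  have hzgt : N < z := lt_of_lt_of_le Nat.lt_two_pow_self hzN
  have hbig : ∀ x ∈ U ∪ U', x < z := fun x hx => lt_trans (hN x hx) hzgt
  refine ⟨z, ?_, ?_, ?_, ?_, ?_⟩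
  · intro h; exact lt_irrefl _ (hbig z (Finset.mem_union_left _ h))
  · intro h; exact lt_irrefl _ (hbig z (Finset.mem_union_right _ h))
  · rw [Nat.log2_eq_iff (by omega)]
    exact ⟨hzN, hzlt⟩
  · intro u hu
    rw [SimpleGraph.fromRel_adj]
    refine ⟨ne_of_gt (hbig u (Finset.mem_union_left _ hu)), Or.inr ?_⟩
    exact (hz u).mpr (Finset.mem_insert_of_mem hu)
  · intro u hu h
    rw [SimpleGraph.fromRel_adj] at h
    have hlt := hbig u (Finset.mem_union_right _ hu)
    rcases h.2 with h | h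
    · have : Nat.testBit u z = false :=
        Nat.testBit_lt_two_pow (lt_trans hlt Nat.lt_two_pow_self)
      rw [this] at h
      exact absurd h (by simp)
    · have h2 := (hz u).mp h
      rw [Finset.mem_insert] at h2
      rcases h2 with h2 | h2
      · have := hN u (Finset.mem_union_right _ hu); omega
      · exact Finset.disjoint_left.mp hd h2 hu

end Pool.Agent.Helper419.Rado
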