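import Mathlib
import Pool.Agent.Helper419.Rado

set_option autoImplicit false

namespace Pool.Agent.Helper419.TwoGraph

open Pool.Agent.Helper419.Rado

open Classical

noncomputable section

/-- sign of a pair of vertices of the random graph -/
def sg (e : Sym2 ℕ) : ℚ := if e ∈ R.edgeSet then -1 else 1

/-- character attached to a set of pairs, evaluated at a placement -/
def chi {V : Type} (E : Finset (Sym2 V)) (φ : V → ℕ) : ℚ := ∏ e ∈ E, sg (Sym2.map φ e)

/-- the exponent vector of a placement -/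
def typ {V : Type} [Fintype V] (φ : V → ℕ) : ℕ →₀ ℕ := ∑ v, Finsupp.single (φ v) 1

lemma typ_apply {V : Type} [Fintype V] (φ : V → ℕ) (i : ℕ) :
    typ φ i = (Finset.univ.filter (fun v => φ v = i)).card := by
  unfold typ
  rw [Finsupp.finsetSum_apply]
  simp only [Finsupp.single_apply]
  rw [Finset.card_filter]

/-- placements with given exponent vector -/
def fib (V : Type) [Fintype V] (s : ℕ →₀ ℕ) : Finset (V → ℕ) :=
  (Fintype.piFinset (fun _ : V => s.support)).filter (fun φ => typ φ = s)

lemma mem_fib {V : Type} [Fintype V] {s : ℕ →₀ ℕ} {φ : V → ℕ} : φ ∈ fib V s ↔ typ φ = s := by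
  unfold fib
  rw [Finset.mem_filter, Fintype.mem_piFinset]
  constructor
  · exact fun h => h.2
  · intro h
    refine ⟨fun v => ?_, h⟩
    rw [Finsupp.mem_support_iff, ← h, typ_apply]
    exact Finset.card_ne_zero_of_mem (Finset.mem_filter.mpr ⟨Finset.mem_univ v, rfl⟩)

/-- the basic invariant function attached to a finite labelled graph -/
def fE {V : Type} [Fintype V] (E : Finset (Sym2 V)) : MvPowerSeries ℕ ℚ :=
  fun s => ∑ φ ∈ fib V s, chi E φ

lemma coeff_fE {V : Type} [Fintype V] (E : Finset (Sym2 V)) (s : ℕ →₀ ℕ) :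
    MvPowerSeries.coeff s (fE E) = ∑ φ ∈ fib V s, chi E φ := rfl

/-- disjoint union of sets of pairs -/
def dU {V W : Type} (E : Finset (Sym2 V)) (E' : Finset (Sym2 W)) : Finset (Sym2 (V ⊕ W)) :=
  E.image (Sym2.map Sum.inl) ∪ E'.image (Sym2.map Sum.inr)

lemma map_inl_inj {V W : Type} : Function.Injective (Sym2.map (Sum.inl : V → V ⊕ W)) :=
  Sym2.map.injective Sum.inl_injective

lemma map_inr_inj {V W : Type} : Function.Injective (Sym2.map (Sum.inr : W → V ⊕ W)) :=
  Sym2.map.injective Sum.inr_injective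

lemma inl_ne_inr {V W : Type} (e : Sym2 V) (e' : Sym2 W) :
    Sym2.map (Sum.inl : V → V ⊕ W) e ≠ Sym2.map (Sum.inr : W → V ⊕ W) e' := by
  induction e using Sym2.ind with
  | _ a b =>
    induction e' using Sym2.ind with
    | _ c d =>
      rw [Sym2.map_mk, Sym2.map_mk]
      intro h
      rw [Sym2.eq_iff] at h
      simp at h

lemma chi_dU {V W : Type} (E : Finset (Sym2 V)) (E' : Finset (Sym2 W)) (ψ : V ⊕ W → ℕ) :
    chi (dU E E') ψ = chi E (ψ ∘ Sum.inl) * chi E' (ψ ∘ Sum.inr) := by
  unfold chi dU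
  rw [Finset.prod_union, Finset.prod_image, Finset.prod_image]
  · simp only [Sym2.map_map]
  · exact fun a _ b _ h => map_inr_inj h
  · exact fun a _ b _ h => map_inl_inj h
  · rw [Finset.disjoint_left]
    intro x hx hx'
    obtain ⟨e, -, rfl⟩ := Finset.mem_image.mp hx
    obtain ⟨e', -, h⟩ := Finset.mem_image.mp hx'
    exact inl_ne_inr e e' h.symm

lemma typ_sum {V W : Type} [Fintype V] [Fintype W] (ψ : V ⊕ W → ℕ) :
    typ ψ = typ (ψ ∘ Sum.inl) + typ (ψ ∘ Sum.inr) := by
  unfold typ
  rw [Fintype.sum_sum_type]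
  rfl

/-- multiplicativity -/
lemma fE_mul {V W : Type} [Fintype V] [Fintype W] (E : Finset (Sym2 V)) (E' : Finset (Sym2 W)) :
    fE E * fE E' = fE (dU E E') := by
  ext s
  rw [MvPowerSeries.coeff_mul, coeff_fE]
  rw [← Finset.sum_fiberwise_of_maps_to (s := fib (V ⊕ W) s) (t := Finset.HasAntidiagonal.antidiagonal s)
    (g := fun ψ => (typ (ψ ∘ Sum.inl), typ (ψ ∘ Sum.inr)))
    (fun ψ hψ => by
      rw [Finset.HasAntidiagonal.mem_antidiagonal]
      rw [mem_fib] at hψ
      rw [← typ_sum, hψ])]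
  refine Finset.sum_congr rfl fun p hp => ?_
  rw [Finset.HasAntidiagonal.mem_antidiagonal] at hp
  rw [coeff_fE, coeff_fE, Finset.sum_mul_sum, ← Finset.sum_product']
  refine Finset.sum_bij' (fun q _ => Sum.elim q.1 q.2) (fun ψ _ => (ψ ∘ Sum.inl, ψ ∘ Sum.inr))
    ?_ ?_ ?_ ?_ ?_
  · rintro ⟨φ1, φ2⟩ h
    rw [Finset.mem_product, mem_fib, mem_fib] at h
    rw [Finset.mem_filter, mem_fib, typ_sum]
    simp only [Sum.elim_comp_inl, Sum.elim_comp_inr]
    simp only at h
    rw [h.1, h.2]
    exact ⟨hp, rfl⟩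
  · intro ψ h
    rw [Finset.mem_filter] at h
    rw [Finset.mem_product, mem_fib, mem_fib]
    exact ⟨congrArg Prod.fst h.2, congrArg Prod.snd h.2⟩
  · rintro ⟨φ1, φ2⟩ _
    simp
  · intro ψ _
    exact Sum.elim_comp_inl_inr ψ
  · rintro ⟨φ1, φ2⟩ _
    rw [chi_dU]
    simp

/-- relabelling -/
def rel {V W : Type} (θ : V ≃ W) (E : Finset (Sym2 V)) : Finset (Sym2 W) := E.image (Sym2.map θ)

lemma chi_rel {V W : Type} (θ : V ≃ W) (E : Finset (Sym2 V)) (φ : W → ℕ) :
    chi (rel θ E) φ = chi E (φ ∘ θ) := by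
  unfold chi rel
  rw [Finset.prod_image]
  · simp only [Sym2.map_map]
  · exact fun a _ b _ h => Sym2.map.injective θ.injective h

lemma typ_comp_equiv {V W : Type} [Fintype V] [Fintype W] (θ : V ≃ W) (φ : W → ℕ) :
    typ (φ ∘ θ) = typ φ := by
  unfold typ
  exact Equiv.sum_comp θ (fun w => Finsupp.single (φ w) 1)

lemma fE_rel {V W : Type} [Fintype V] [Fintype W] (θ : V ≃ W) (E : Finset (Sym2 V)) :
    fE (rel θ E) = fE E := by
  ext s
  rw [coeff_fE, coeff_fE]
  refine Finset.sum_bij' (fun φ _ => φ ∘ θ) (fun ψ _ => ψ ∘ θ.symm) ?_ ?_ ?_ ?_ ?_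
  · intro φ h
    rw [mem_fib] at h ⊢
    rw [typ_comp_equiv, h]
  · intro φ h
    rw [mem_fib] at h ⊢
    rw [typ_comp_equiv, h]
  · intro φ _; ext; simp
  · intro φ _; ext; simp
  · intro φ _
    exact chi_rel θ E φ

/-- the automorphism-type condition of the frozen statement -/
def Gperm (σ : Equiv.Perm ℕ) : Prop :=
  ∃ S : Set ℕ, ∀ i j : ℕ, i ≠ j → (R.Adj (σ i) (σ j) ↔ (R.Adj i j ↔ (i ∈ S ↔ j ∈ S)))

/-- no loops and all degrees even -/
def Ev {V : Type} (E : Finset (Sym2 V)) : Prop :=
  (∀ e ∈ E, ¬ e.IsDiag) ∧ ∀ v : V, Even ((E.filter (fun e => v ∈ e)).card)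

lemma sg_mk (i j : ℕ) : sg s(i, j) = if R.Adj i j then -1 else 1 := by
  unfold sg
  simp only [SimpleGraph.mem_edgeSet]

lemma chi_switch {V : Type} [Fintype V] {E : Finset (Sym2 V)} (hE : Ev E) {σ : Equiv.Perm ℕ}
    (hσ : Gperm σ) (φ : V → ℕ) : chi E (σ ∘ φ) = chi E φ := by
  obtain ⟨S, hS⟩ := hσ
  let ε : ℕ → ℚ := fun i => if i ∈ S then -1 else 1
  have hε : ∀ i, ε i * ε i = 1 := by
    intro i; simp only [ε]; split_ifs <;> norm_num
  have hε2 : ∀ i, ε i ^ 2 = 1 := by
    intro i; rw [sq]; exact hε i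
  have h1 : ∀ i j, sg s(σ i, σ j) = sg s(i, j) * (ε i * ε j) := by
    intro i j
    by_cases hij : i = j
    · subst hij
      rw [hε, sg_mk, sg_mk]
      simp
    · rw [sg_mk, sg_mk]
      have := hS i j hij
      simp only [ε]
      by_cases ha : R.Adj i j
      · rw [if_pos ha]
        by_cases hb : R.Adj (σ i) (σ j)
        · rw [if_pos hb]
          have h3 := (this.mp hb).mp ha
          by_cases hi : i ∈ S
          · rw [if_pos hi, if_pos (h3.mp hi)]; norm_num
          · rw [if_neg hi, if_neg (fun h => hi (h3.mpr h))]; norm_num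
        · rw [if_neg hb]
          have h3 : ¬ (i ∈ S ↔ j ∈ S) := fun h => hb (this.mpr ⟨fun _ => h, fun _ => ha⟩)
          by_cases hi : i ∈ S
          · rw [if_pos hi, if_neg (fun h => h3 ⟨fun _ => h, fun _ => hi⟩)]; norm_num
          · rw [if_neg hi, if_pos (by_contra fun h => h3 ⟨fun h' => absurd h' hi, fun h' => absurd h' h⟩)]
            norm_num
      · rw [if_neg ha]
        by_cases hb : R.Adj (σ i) (σ j)
        · rw [if_pos hb]
          have h3 : ¬ (i ∈ S ↔ j ∈ S) := fun h => ha ((this.mp hb).mpr h)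
          by_cases hi : i ∈ S
          · rw [if_pos hi, if_neg (fun h => h3 ⟨fun _ => h, fun _ => hi⟩)]; norm_num
          · rw [if_neg hi, if_pos (by_contra fun h => h3 ⟨fun h' => absurd h' hi, fun h' => absurd h' h⟩)]
            norm_num
        · rw [if_neg hb]
          have h3 : (i ∈ S ↔ j ∈ S) := by
            by_contra h
            exact hb (this.mpr ⟨fun h' => absurd h' ha, fun h' => absurd h' h⟩)
          by_cases hi : i ∈ S
          · rw [if_pos hi, if_pos (h3.mp hi)]; norm_num
          · rw [if_neg hi, if_neg (fun h => hi (h3.mpr h))]; norm_num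
  have h2 : ∀ e ∈ E, sg (Sym2.map (σ ∘ φ) e) = sg (Sym2.map φ e) *
      ∏ v ∈ Finset.univ.filter (fun v => v ∈ e), ε (φ v) := by
    intro e he
    have hd := hE.1 e he
    induction e using Sym2.ind with
    | _ a b =>
      rw [Sym2.mk_isDiag_iff] at hd
      rw [Sym2.map_mk, Sym2.map_mk]
      have : Finset.univ.filter (fun v => v ∈ s(a, b)) = {a, b} := by
        ext v
        simp [Sym2.mem_iff]
      rw [this, Finset.prod_pair hd]
      exact h1 _ _
  unfold chi
  rw [Finset.prod_congr rfl h2, Finset.prod_mul_distrib]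
  have h3 : ∏ e ∈ E, ∏ v ∈ Finset.univ.filter (fun v => v ∈ e), ε (φ v) = 1 := by
    rw [Finset.prod_comm' (s' := fun v => E.filter (fun e => v ∈ e)) (t' := Finset.univ)]
    · refine Finset.prod_eq_one fun v _ => ?_
      rw [Finset.prod_const]
      obtain ⟨k, hk⟩ := hE.2 v
      rw [hk, ← two_mul, pow_mul, hε2, one_pow]
    · intro e v
      simp
  rw [h3, mul_one]

lemma typ_perm {V : Type} [Fintype V] (σ : Equiv.Perm ℕ) (φ : V → ℕ) :
    typ (σ ∘ φ) = Finsupp.equivMapDomain σ (typ φ) := by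
  rw [Finsupp.equivMapDomain_eq_mapDomain]
  unfold typ
  rw [Finsupp.mapDomain_finsetSum]
  refine Finset.sum_congr rfl fun v _ => ?_
  rw [Finsupp.mapDomain_single]
  rfl

lemma fE_inv {V : Type} [Fintype V] {E : Finset (Sym2 V)} (hE : Ev E) {σ : Equiv.Perm ℕ}
    (hσ : Gperm σ) (s : ℕ →₀ ℕ) :
    MvPowerSeries.coeff (Finsupp.equivMapDomain σ s) (fE E) = MvPowerSeries.coeff s (fE E) := by
  rw [coeff_fE, coeff_fE]
  symm
  refine Finset.sum_bij' (fun φ _ => σ ∘ φ) (fun ψ _ => σ.symm ∘ ψ) ?_ ?_ ?_ ?_ ?_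
  · intro φ h
    rw [mem_fib] at h ⊢
    rw [typ_perm, h]
  · intro φ h
    rw [mem_fib] at h ⊢
    rw [typ_perm, h]
    ext i
    simp [Finsupp.equivMapDomain_apply]
  · intro φ _; ext; simp
  · intro φ _; ext; simp
  · intro φ _
    exact (chi_switch hE hσ φ).symm

lemma typ_degree {V : Type} [Fintype V] (φ : V → ℕ) :
    (typ φ).sum (fun _ e => e) = Fintype.card V := by
  unfold typ
  rw [← Finsupp.sum_finsetSum_index (by simp) (by simp)]
  simp

lemma fE_degree {V : Type} [Fintype V] (E : Finset (Sym2 V)) (s : ℕ →₀ ℕ)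
    (h : MvPowerSeries.coeff s (fE E) ≠ 0) : s.sum (fun _ e => e) = Fintype.card V := by
  rw [coeff_fE] at h
  obtain ⟨φ, hφ, -⟩ := Finset.exists_ne_zero_of_sum_ne_zero h
  rw [mem_fib] at hφ
  rw [← hφ, typ_degree]

/-- squarefree exponents -/
def Sf (s : ℕ →₀ ℕ) : Prop := ∀ i, s i ≤ 1

lemma typ_sf_iff {V : Type} [Fintype V] (φ : V → ℕ) : Sf (typ φ) ↔ Function.Injective φ := by
  unfold Sf
  simp only [typ_apply]
  constructor
  · intro h a b hab
    have := h (φ a)
    rw [Finset.card_le_one] at this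
    exact this a (by simp) b (by simp [hab])
  · intro h i
    rw [Finset.card_le_one]
    intro a ha b hb
    simp only [Finset.mem_filter, Finset.mem_univ, true_and] at ha hb
    exact h (ha.trans hb.symm)

/-- the ideal of the frozen statement -/
def KK : Ideal (MvPowerSeries ℕ ℚ) := Ideal.span {f : MvPowerSeries ℕ ℚ |
      ∀ s : ℕ →₀ ℕ, (∀ i, s i ≤ 1) → MvPowerSeries.coeff s f = 0}

lemma mem_KK (f : MvPowerSeries ℕ ℚ) : f ∈ KK ↔ ∀ s, Sf s → MvPowerSeries.coeff s f = 0 := by
  constructor
  · intro h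
    refine Submodule.span_induction (p := fun f _ => ∀ s, Sf s → MvPowerSeries.coeff s f = 0)
      ?_ ?_ ?_ ?_ h
    · intro x hx s hs
      exact hx s hs
    · intro s _; simp
    · intro x y _ _ hx hy s hs
      rw [map_add, hx s hs, hy s hs, add_zero]
    · intro a x _ hx s hs
      rw [smul_eq_mul, MvPowerSeries.coeff_mul]
      refine Finset.sum_eq_zero fun p hp => ?_
      rw [Finset.HasAntidiagonal.mem_antidiagonal] at hp
      have : Sf p.2 := by
        intro i
        have := hs i
        rw [← hp, Finsupp.add_apply] at this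
        omega
      rw [hx _ this, mul_zero]
  · intro h
    exact Ideal.subset_span h

/-- extension property of the random graph -/
lemma ext' (U U' : Finset ℕ) (hd : Disjoint U U') :
    ∃ z : ℕ, z ∉ U ∧ z ∉ U' ∧ (∀ u ∈ U, R.Adj z u) ∧ (∀ u ∈ U', ¬ R.Adj z u) := by
  obtain ⟨z, h1, h2, -, h4, h5⟩ := ext_log U U' hd ((U ∪ U').sup id + 1) (by
    intro x hx
    have h1 : x ≤ (U ∪ U').sup id := Finset.le_sup (f := id) hx
    omega)
  exact ⟨z, h1, h2, h4, h5⟩

/-- universality -/
lemma real_aux {V : Type} (J : Finset (Sym2 V)) (A : Finset V) :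
    ∃ η : V → ℕ, (∀ v ∈ A, ∀ w ∈ A, η v = η w → v = w) ∧
      ∀ v ∈ A, ∀ w ∈ A, v ≠ w → (R.Adj (η v) (η w) ↔ s(v, w) ∈ J) := by
  induction A using Finset.induction_on with
  | empty => exact ⟨fun _ => 0, by simp, by simp⟩
  | insert a A ha ih =>
    obtain ⟨η, h1, h2⟩ := ih
    obtain ⟨z, hz1, hz2, hz3, hz4⟩ := ext' ((A.filter (fun v => s(v, a) ∈ J)).image η)
      ((A.filter (fun v => ¬ s(v, a) ∈ J)).image η) (by
        rw [Finset.disjoint_left]
        intro x hx hx'
        simp only [Finset.mem_image, Finset.mem_filter] at hx hx'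
        obtain ⟨v, ⟨hv, hv'⟩, rfl⟩ := hx
        obtain ⟨w, ⟨hw, hw'⟩, he⟩ := hx'
        have := h1 w hw v hv he
        subst this
        exact hw' hv')
    have hzn : ∀ v ∈ A, η v ≠ z := by
      intro v hv he
      by_cases h : s(v, a) ∈ J
      · exact hz1 (Finset.mem_image.mpr ⟨v, Finset.mem_filter.mpr ⟨hv, h⟩, he⟩)
      · exact hz2 (Finset.mem_image.mpr ⟨v, Finset.mem_filter.mpr ⟨hv, h⟩, he⟩)
    have hadj : ∀ v ∈ A, (R.Adj z (η v) ↔ s(v, a) ∈ J) := by
      intro v hv
      by_cases h : s(v, a) ∈ J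
      · exact ⟨fun _ => h, fun _ =>
          hz3 _ (Finset.mem_image.mpr ⟨v, Finset.mem_filter.mpr ⟨hv, h⟩, rfl⟩)⟩
      · exact ⟨fun h' => absurd h'
          (hz4 _ (Finset.mem_image.mpr ⟨v, Finset.mem_filter.mpr ⟨hv, h⟩, rfl⟩)),
          fun h' => absurd h' h⟩
    have hna : ∀ v ∈ A, v ≠ a := fun v hv he => ha (he ▸ hv)
    refine ⟨Function.update η a z, ?_, ?_⟩
    · intro v hv w hw he
      rw [Finset.mem_insert] at hv hw
      rcases hv with rfl | hv <;> rcases hw with rfl | hw
      · rfl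
      · rw [Function.update_self, Function.update_of_ne (hna w hw)] at he
        exact absurd he.symm (hzn w hw)
      · rw [Function.update_self, Function.update_of_ne (hna v hv)] at he
        exact absurd he (hzn v hv)
      · rw [Function.update_of_ne (hna v hv), Function.update_of_ne (hna w hw)] at he
        exact h1 v hv w hw he
    · intro v hv w hw hvw
      rw [Finset.mem_insert] at hv hw
      rcases hv with rfl | hv <;> rcases hw with rfl | hw
      · exact absurd rfl hvw
      · rw [Function.update_self, Function.update_of_ne (hna w hw), Sym2.eq_swap]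
        exact hadj w hw
      · rw [Function.update_self, Function.update_of_ne (hna v hv), SimpleGraph.adj_comm]
        exact hadj v hv
      · rw [Function.update_of_ne (hna v hv), Function.update_of_ne (hna w hw)]
        exact h2 v hv w hw hvw

lemma real {V : Type} [Fintype V] (J : Finset (Sym2 V)) :
    ∃ η : V → ℕ, Function.Injective η ∧ ∀ v w, v ≠ w → (R.Adj (η v) (η w) ↔ s(v, w) ∈ J) := by
  obtain ⟨η, h1, h2⟩ := real_aux J Finset.univ
  exact ⟨η, fun v w h => h1 v (Finset.mem_univ _) w (Finset.mem_univ _) h,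
    fun v w h => h2 v (Finset.mem_univ _) w (Finset.mem_univ _) h⟩

/-- a chosen realisation -/
def et {V : Type} [Fintype V] (J : Finset (Sym2 V)) : V → ℕ := (real J).choose

lemma et_inj {V : Type} [Fintype V] (J : Finset (Sym2 V)) : Function.Injective (et J) :=
  (real J).choose_spec.1

lemma et_adj {V : Type} [Fintype V] (J : Finset (Sym2 V)) {v w : V} (h : v ≠ w) :
    R.Adj (et J v) (et J w) ↔ s(v, w) ∈ J := (real J).choose_spec.2 v w h

/-- homogeneity of the random graph up to switching -/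
lemma switch_hom {V : Type} [Fintype V] (φ ψ : V → ℕ) (hφ : Function.Injective φ)
    (hψ : Function.Injective ψ) (X : Finset V)
    (h : ∀ v w, v ≠ w → (R.Adj (ψ v) (ψ w) ↔ (R.Adj (φ v) (φ w) ↔ (v ∈ X ↔ w ∈ X)))) :
    ∃ σ : Equiv.Perm ℕ, Gperm σ ∧ σ ∘ φ = ψ := by
  let S : Finset ℕ := X.image φ
  let rV : ℕ → ℕ → Prop := fun i j => i ≠ j ∧ (R.Adj i j ↔ (i ∈ S ↔ j ∈ S))
  have hS : ∀ v, φ v ∈ S ↔ v ∈ X := by
    intro v
    simp only [S, Finset.mem_image]
    constructor
    · rintro ⟨w, hw, he⟩; rw [← hφ he]; exact hw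
    · intro hv; exact ⟨v, hv, rfl⟩
  have symV : ∀ a b, rV a b → rV b a := by
    rintro a b ⟨h1, h2⟩
    refine ⟨h1.symm, ?_⟩
    rw [SimpleGraph.adj_comm, h2]
    tauto
  obtain ⟨e, he1, -, he3⟩ := exists_iso rV (fun _ => 0) (fun a b => R.Adj a b) (fun _ => 0)
    symV (fun a b h => h.symm) (fun a h => h.1 rfl) (fun a h => h.ne rfl)
    (fun _ _ _ => Or.inl rfl) (fun _ _ _ => Or.inl rfl)
    (fun a U U' hd _ => by
      obtain ⟨z, h1, h2, h4, h5⟩ := ext' U U' hd
      exact ⟨z, h1, h2, rfl, h4, h5⟩)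
    (fun a U U' hd _ => by
      -- extension property of the switched graph
      have hdu := Finset.disjoint_left.mp hd
      obtain ⟨z, h1, h2, hlog, h4, h5⟩ := ext_log ((U \ S) ∪ (U' ∩ S)) ((U' \ S) ∪ (U ∩ S)) (by
          rw [Finset.disjoint_left]
          intro x hx hx'
          simp only [Finset.mem_union, Finset.mem_sdiff, Finset.mem_inter] at hx hx'
          have := @hdu x
          tauto) ((U ∪ U' ∪ S).sup id + 1) (by
            intro x hx
            have h1 : x ∈ U ∪ U' ∪ S := by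
              simp only [Finset.mem_union, Finset.mem_sdiff, Finset.mem_inter] at hx ⊢
              tauto
            have h1 : x ≤ (U ∪ U' ∪ S).sup id := Finset.le_sup (f := id) h1
            omega)
      have hbig : ∀ x ∈ U ∪ U' ∪ S, x ≠ z := by
        intro x hx he
        have h6 : x ≤ (U ∪ U' ∪ S).sup id := Finset.le_sup (f := id) hx
        have h7 := Nat.log2_le_self z
        omega
      have hzS : z ∉ S := fun h' => hbig z (Finset.mem_union_right _ h') rfl
      refine ⟨z, fun h' => hbig z (by simp [h']) rfl, fun h' => hbig z (by simp [h']) rfl, rfl, ?_, ?_⟩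
      · intro u hu
        refine ⟨(hbig u (by simp [hu])).symm, ?_⟩
        by_cases huS : u ∈ S
        · have := h5 u (by simp [hu, huS])
          exact ⟨fun h' => absurd h' this, fun h' => absurd (h'.mpr huS) hzS⟩
        · have := h4 u (by simp [hu, huS])
          exact ⟨fun _ => ⟨fun h' => absurd h' hzS, fun h' => absurd h' huS⟩, fun _ => this⟩
      · rintro u hu ⟨-, h'⟩
        by_cases huS : u ∈ S
        · have := h4 u (by simp [hu, huS])
          exact hzS ((h'.mp this).mpr huS)
        · have := h5 u (by simp [hu, huS])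
          exact this (h'.mpr ⟨fun h'' => absurd h'' hzS, fun h'' => absurd h'' huS⟩))
    (Finset.univ.image (fun v => (φ v, ψ v))) (by
      refine ⟨fun _ _ => rfl, ?_⟩
      intro x hx y hy
      simp only [Finset.mem_image, Finset.mem_univ, true_and] at hx hy
      obtain ⟨v, rfl⟩ := hx
      obtain ⟨w, rfl⟩ := hy
      refine ⟨⟨fun h' => by rw [hφ h'], fun h' => by rw [hψ h']⟩, ?_⟩
      by_cases hvw : v = w
      · subst hvw
        exact ⟨fun h' => absurd rfl h'.1, fun h' => absurd rfl h'.ne⟩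
      · change rV (φ v) (φ w) ↔ R.Adj (ψ v) (ψ w)
        rw [h v w hvw]
        simp only [rV, hS]
        exact ⟨fun h' => h'.2, fun h' => ⟨fun h'' => hvw (hφ h''), h'⟩⟩)
  refine ⟨e, ⟨(S : Set ℕ), ?_⟩, ?_⟩
  · intro i j hij
    rw [← he3 i j]
    simp only [rV, Finset.mem_coe]
    exact ⟨fun h' => h'.2, fun h' => ⟨hij, h'⟩⟩
  · ext v
    exact he1 (φ v, ψ v) (Finset.mem_image.mpr ⟨v, Finset.mem_univ _, rfl⟩)

/-- all pairs -/
def PP (V : Type) [Fintype V] : Finset (Sym2 V) := Finset.univ.filter (fun e => ¬ e.IsDiag)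

lemma mem_PP {V : Type} [Fintype V] {e : Sym2 V} : e ∈ PP V ↔ ¬ e.IsDiag := by
  unfold PP; simp

/-- Walsh functions -/
def wal {V : Type} (E J : Finset (Sym2 V)) : ℚ := ∏ e ∈ E, (if e ∈ J then -1 else 1)

lemma wal_comm {V : Type} (E J : Finset (Sym2 V)) : wal E J = wal J E := by
  unfold wal
  rw [Finset.prod_ite_mem, Finset.prod_ite_mem, Finset.inter_comm]

lemma wal_sum {V : Type} [Fintype V] (E E' : Finset (Sym2 V)) (hE : E ⊆ PP V) (hE' : E' ⊆ PP V) :
    ∑ J ∈ (PP V).powerset, wal E J * wal E' J = if E = E' then (2 : ℚ) ^ (PP V).card else 0 := by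
  have h1 : ∀ J ∈ (PP V).powerset, wal E J * wal E' J =
      ∏ e ∈ J, ((if e ∈ E then (-1 : ℚ) else 1) * (if e ∈ E' then -1 else 1)) := by
    intro J _
    rw [wal_comm E, wal_comm E']
    unfold wal
    rw [Finset.prod_mul_distrib]
  rw [Finset.sum_congr rfl h1, ← Finset.prod_one_add]
  split_ifs with h
  · subst h
    have : ∀ e ∈ PP V, 1 + ((if e ∈ E then (-1 : ℚ) else 1) * (if e ∈ E then -1 else 1)) = 2 := by
      intro e _
      split_ifs <;> norm_num
    rw [Finset.prod_congr rfl this, Finset.prod_const]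
  · have : ∃ e, ¬ (e ∈ E ↔ e ∈ E') := by
      by_contra hc
      push Not at hc
      exact h (Finset.ext hc)
    obtain ⟨e, he⟩ := this
    have heP : e ∈ PP V := by
      by_cases h1 : e ∈ E
      · exact hE h1
      · by_cases h2 : e ∈ E'
        · exact hE' h2
        · exact absurd ⟨fun h => absurd h h1, fun h => absurd h h2⟩ he
    refine Finset.prod_eq_zero heP ?_
    by_cases h1 : e ∈ E
    · have h2 : e ∉ E' := fun h2 => he ⟨fun _ => h2, fun _ => h1⟩
      rw [if_pos h1, if_neg h2]; norm_num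
    · have h2 : e ∈ E' := by
        by_contra h2
        exact he ⟨fun h => absurd h h1, fun h => absurd h h2⟩
      rw [if_neg h1, if_pos h2]; norm_num

/-- the pattern of a placement -/
def pat {V : Type} [Fintype V] (φ : V → ℕ) : Finset (Sym2 V) :=
  (PP V).filter (fun e => Sym2.map φ e ∈ R.edgeSet)

lemma pat_sub {V : Type} [Fintype V] (φ : V → ℕ) : pat φ ⊆ PP V := Finset.filter_subset _ _

lemma chi_pat {V : Type} [Fintype V] (E : Finset (Sym2 V)) (hE : E ⊆ PP V) (φ : V → ℕ) :
    chi E φ = wal E (pat φ) := by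
  unfold chi wal
  refine Finset.prod_congr rfl fun e he => ?_
  unfold sg pat
  by_cases h : Sym2.map φ e ∈ R.edgeSet
  · rw [if_pos h, if_pos (Finset.mem_filter.mpr ⟨hE he, h⟩)]
  · have hn : e ∉ (PP V).filter (fun e => Sym2.map φ e ∈ R.edgeSet) := by
      rw [Finset.mem_filter]; exact fun h' => h h'.2
    rw [if_neg h, if_neg hn]

lemma pat_et {V : Type} [Fintype V] (J : Finset (Sym2 V)) (hJ : J ⊆ PP V) : pat (et J) = J := by
  ext e
  induction e using Sym2.ind with
  | _ a b =>
    unfold pat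
    rw [Finset.mem_filter, mem_PP, Sym2.mk_isDiag_iff, Sym2.map_mk, SimpleGraph.mem_edgeSet]
    constructor
    · rintro ⟨h1, h2⟩
      exact (et_adj J h1).mp h2
    · intro h
      have h1 := mem_PP.mp (hJ h)
      rw [Sym2.mk_isDiag_iff] at h1
      exact ⟨h1, (et_adj J h1).mpr h⟩

lemma fib_sum {V W : Type} [Fintype V] [Fintype W] (η : V → ℕ) (hη : Function.Injective η)
    (g : (W → ℕ) → ℚ) : ∑ φ ∈ fib W (typ η), g φ = ∑ θ : W ≃ V, g (η ∘ θ) := by
  symm
  refine Finset.sum_bij (fun θ _ => η ∘ θ) ?_ ?_ ?_ ?_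
  · intro θ _
    rw [mem_fib, typ_comp_equiv]
  · intro θ _ θ' _ h
    ext w
    exact hη (congrFun h w)
  · intro φ hφ
    rw [mem_fib] at hφ
    have hφi : Function.Injective φ := by
      rw [← typ_sf_iff, hφ, typ_sf_iff]; exact hη
    have h1 : ∀ w, ∃ v, η v = φ w := by
      intro w
      have h2 : typ φ (φ w) ≠ 0 := by
        rw [typ_apply]
        exact Finset.card_ne_zero_of_mem (Finset.mem_filter.mpr ⟨Finset.mem_univ w, rfl⟩)
      rw [hφ, typ_apply] at h2
      obtain ⟨v, hv⟩ := Finset.card_ne_zero.mp h2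
      exact ⟨v, (Finset.mem_filter.mp hv).2⟩
    have h1' : ∀ v, ∃ w, φ w = η v := by
      intro v
      have h2 : typ η (η v) ≠ 0 := by
        rw [typ_apply]
        exact Finset.card_ne_zero_of_mem (Finset.mem_filter.mpr ⟨Finset.mem_univ v, rfl⟩)
      rw [← hφ, typ_apply] at h2
      obtain ⟨w, hw⟩ := Finset.card_ne_zero.mp h2
      exact ⟨w, (Finset.mem_filter.mp hw).2⟩
    choose f hf using h1
    choose f' hf' using h1'
    refine ⟨⟨f, f', fun w => hφi (by rw [hf', hf]), fun v => hη (by rw [hf, hf'])⟩,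
      Finset.mem_univ _, ?_⟩
    ext w
    exact hf w
  · intro θ _
    rfl

/-- Fourier functional -/
def Lam {V : Type} [Fintype V] (E : Finset (Sym2 V)) (u : MvPowerSeries ℕ ℚ) : ℚ :=
  ∑ J ∈ (PP V).powerset, wal E J * MvPowerSeries.coeff (typ (et J)) u

lemma rel_sub {V W : Type} [Fintype V] [Fintype W] (θ : V ≃ W) (E : Finset (Sym2 V))
    (hE : E ⊆ PP V) : rel θ E ⊆ PP W := by
  intro e he
  obtain ⟨e', he', rfl⟩ := Finset.mem_image.mp he
  have := mem_PP.mp (hE he')
  rw [mem_PP]
  induction e' using Sym2.ind with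
  | _ a b =>
    rw [Sym2.map_mk, Sym2.mk_isDiag_iff]
    rw [Sym2.mk_isDiag_iff] at this
    exact fun h => this (θ.injective h)

lemma Lam_fE {V W : Type} [Fintype V] [Fintype W] (E : Finset (Sym2 V)) (hE : E ⊆ PP V)
    (E' : Finset (Sym2 W)) (hE' : E' ⊆ PP W) :
    Lam E (fE E') = 2 ^ (PP V).card *
      ((Finset.univ.filter (fun θ : W ≃ V => rel θ E' = E)).card : ℚ) := by
  unfold Lam
  have h1 : ∀ J ∈ (PP V).powerset, wal E J * MvPowerSeries.coeff (typ (et J)) (fE E') =
      ∑ θ : W ≃ V, wal E J * wal (rel θ E') J := by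
    intro J hJ
    rw [Finset.mem_powerset] at hJ
    rw [coeff_fE, fib_sum (et J) (et_inj J), Finset.mul_sum]
    refine Finset.sum_congr rfl fun θ _ => ?_
    rw [← chi_rel, chi_pat _ (rel_sub θ E' hE'), pat_et J hJ]
  rw [Finset.sum_congr rfl h1, Finset.sum_comm]
  have h2 : ∀ θ ∈ (Finset.univ : Finset (W ≃ V)), ∑ J ∈ (PP V).powerset, wal E J * wal (rel θ E') J
      = if rel θ E' = E then (2 : ℚ) ^ (PP V).card else 0 := by
    intro θ _
    rw [wal_sum E _ hE (rel_sub θ E' hE')]
    by_cases h : rel θ E' = E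
    · rw [if_pos h, if_pos h.symm]
    · rw [if_neg h, if_neg (fun h' => h h'.symm)]
  rw [Finset.sum_congr rfl h2, ← Finset.sum_filter, Finset.sum_const, nsmul_eq_mul, mul_comm]

lemma Lam_KK {V : Type} [Fintype V] (E : Finset (Sym2 V)) (u : MvPowerSeries ℕ ℚ) (hu : u ∈ KK) :
    Lam E u = 0 := by
  unfold Lam
  refine Finset.sum_eq_zero fun J _ => ?_
  rw [(mem_KK u).mp hu _ ((typ_sf_iff _).mpr (et_inj J)), mul_zero]

/-- invariance condition of the frozen statement -/
def Inv (f : MvPowerSeries ℕ ℚ) : Prop :=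
  ∀ σ : Equiv.Perm ℕ, Gperm σ → ∀ s : ℕ →₀ ℕ,
    MvPowerSeries.coeff (Finsupp.equivMapDomain σ s) f = MvPowerSeries.coeff s f

/-- the value on a pattern -/
def uh {V : Type} [Fintype V] (f : MvPowerSeries ℕ ℚ) (J : Finset (Sym2 V)) : ℚ :=
  MvPowerSeries.coeff (typ (et J)) f

lemma uh_pat {V : Type} [Fintype V] {f : MvPowerSeries ℕ ℚ} (hf : Inv f) (φ : V → ℕ)
    (hφ : Function.Injective φ) : MvPowerSeries.coeff (typ φ) f = uh f (pat φ) := by
  obtain ⟨σ, hσ, h⟩ := switch_hom φ (et (pat φ)) hφ (et_inj _) ∅ (by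
    intro v w hvw
    rw [et_adj _ hvw]
    unfold pat
    rw [Finset.mem_filter, mem_PP, Sym2.mk_isDiag_iff, Sym2.map_mk, SimpleGraph.mem_edgeSet]
    simp only [Finset.notMem_empty, iff_self, iff_true]
    exact ⟨fun h => h.2, fun h => ⟨hvw, h⟩⟩)
  unfold uh
  rw [← h, typ_perm, hf σ hσ]

lemma uh_switch {V : Type} [Fintype V] {f : MvPowerSeries ℕ ℚ} (hf : Inv f) (J : Finset (Sym2 V))
    (v : V) : uh f (symmDiff J ((PP V).filter (fun e => v ∈ e))) = uh f J := by
  obtain ⟨σ, hσ, h⟩ := switch_hom (et J) (et (symmDiff J ((PP V).filter (fun e => v ∈ e))))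
    (et_inj _) (et_inj _) {v} (by
    intro a b hab
    rw [et_adj _ hab, et_adj _ hab, Finset.mem_symmDiff, Finset.mem_filter, mem_PP,
      Sym2.mk_isDiag_iff, Sym2.mem_iff, Finset.mem_singleton, Finset.mem_singleton]
    by_cases h1 : a = v <;> by_cases h2 : b = v <;> by_cases h3 : s(a, b) ∈ J
    all_goals first
      | (exfalso; exact hab (h1.trans h2.symm))
      | (have h1' : ¬ v = a := fun h => h1 h.symm
         have h2' : ¬ v = b := fun h => h2 h.symm
         simp [h1, h2, h3, hab, h1', h2'])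
      | (have h2' : ¬ v = b := fun h => h2 h.symm
         subst h1
         simp [h2, h3, h2'])
      | (have h1' : ¬ v = a := fun h => h1 h.symm
         subst h2
         simp [h1, h3, h1']))
  unfold uh
  rw [← h, typ_perm, hf σ hσ]

/-- Fourier coefficients -/
def fco {V : Type} [Fintype V] (f : MvPowerSeries ℕ ℚ) (E : Finset (Sym2 V)) : ℚ :=
  (2 ^ (PP V).card)⁻¹ * ∑ J ∈ (PP V).powerset, uh f J * wal E J

lemma fourier {V : Type} [Fintype V] (f : MvPowerSeries ℕ ℚ) (J : Finset (Sym2 V)) (hJ : J ⊆ PP V) :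
    uh f J = ∑ E ∈ (PP V).powerset, fco f E * wal E J := by
  have h1 : ∀ E ∈ (PP V).powerset, fco f E * wal E J =
      ∑ J' ∈ (PP V).powerset, (2 ^ (PP V).card)⁻¹ * uh f J' * (wal J' E * wal J E) := by
    intro E _
    unfold fco
    rw [Finset.mul_sum, Finset.sum_mul]
    refine Finset.sum_congr rfl fun J' _ => ?_
    rw [wal_comm J' E, wal_comm J E]
    ring
  rw [Finset.sum_congr rfl h1, Finset.sum_comm]
  have h2 : ∀ J' ∈ (PP V).powerset,
      ∑ E ∈ (PP V).powerset, (2 ^ (PP V).card : ℚ)⁻¹ * uh f J' * (wal J' E * wal J E) =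
      if J' = J then uh f J' else 0 := by
    intro J' hJ'
    rw [Finset.mem_powerset] at hJ'
    rw [← Finset.mul_sum, wal_sum J' J hJ' hJ]
    split_ifs
    · field_simp
    · simp
  rw [Finset.sum_congr rfl h2, Finset.sum_ite_eq' (PP V).powerset J,
    if_pos (Finset.mem_powerset.mpr hJ)]

lemma wal_symmDiff {V : Type} (E J C : Finset (Sym2 V)) :
    wal E (symmDiff J C) = wal E J * wal E C := by
  unfold wal
  rw [← Finset.prod_mul_distrib]
  refine Finset.prod_congr rfl fun e _ => ?_
  by_cases h1 : e ∈ J <;> by_cases h2 : e ∈ C <;> simp [Finset.mem_symmDiff, h1, h2]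

lemma fco_zero {V : Type} [Fintype V] {f : MvPowerSeries ℕ ℚ} (hf : Inv f) (E : Finset (Sym2 V))
    (hE : E ⊆ PP V) (hn : ¬ Ev E) : fco f E = 0 := by
  have : ∃ v : V, ¬ Even ((E.filter (fun e => v ∈ e)).card) := by
    by_contra h
    push Not at h
    exact hn ⟨fun e he => mem_PP.mp (hE he), h⟩
  obtain ⟨v, hv⟩ := this
  set C := (PP V).filter (fun e => v ∈ e) with hC
  have hw : wal E C = -1 := by
    unfold wal
    rw [Finset.prod_ite_mem, Finset.prod_const]
    have : E ∩ C = E.filter (fun e => v ∈ e) := by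
      ext e
      rw [Finset.mem_inter, hC, Finset.mem_filter, Finset.mem_filter]
      exact ⟨fun h => ⟨h.1, h.2.2⟩, fun h => ⟨h.1, hE h.1, h.2⟩⟩
    rw [this]
    exact Odd.neg_one_pow (Nat.not_even_iff_odd.mp hv)
  have key : ∑ J ∈ (PP V).powerset, uh f J * wal E J = - ∑ J ∈ (PP V).powerset, uh f J * wal E J := by
    rw [← Finset.sum_neg_distrib]
    refine Finset.sum_bij' (fun J _ => symmDiff J C) (fun J _ => symmDiff J C) ?_ ?_ ?_ ?_ ?_
    · intro J hJ
      rw [Finset.mem_powerset] at hJ ⊢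
      intro e he
      rw [Finset.mem_symmDiff] at he
      rcases he with h | h
      · exact hJ h.1
      · exact (Finset.mem_filter.mp h.1).1
    · intro J hJ
      rw [Finset.mem_powerset] at hJ ⊢
      intro e he
      rw [Finset.mem_symmDiff] at he
      rcases he with h | h
      · exact hJ h.1
      · exact (Finset.mem_filter.mp h.1).1
    · intro J _
      exact symmDiff_symmDiff_cancel_right C J
    · intro J _
      exact symmDiff_symmDiff_cancel_right C J
    · intro J _
      rw [uh_switch hf, wal_symmDiff, hw]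
      ring
  have h0 : ∑ J ∈ (PP V).powerset, uh f J * wal E J = 0 := by linarith
  unfold fco
  rw [h0, mul_zero]

/-- the number of relabellings -/
def nfac (V : Type) [Fintype V] : ℚ := ((Finset.univ : Finset (V ≃ V)).card : ℚ)

lemma nfac_ne (V : Type) [Fintype V] : nfac V ≠ 0 := by
  unfold nfac
  have : (Finset.univ : Finset (V ≃ V)).card ≠ 0 := by
    rw [Finset.card_ne_zero]
    exact ⟨Equiv.refl _, Finset.mem_univ _⟩
  exact_mod_cast this

lemma exists_enum {V : Type} [Fintype V] (s : ℕ →₀ ℕ) (hs : Sf s)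
    (hn : s.sum (fun _ e => e) = Fintype.card V) :
    ∃ η : V → ℕ, Function.Injective η ∧ typ η = s := by
  have h1 : s.support.card = Fintype.card V := by
    rw [← hn, Finsupp.sum, Finset.card_eq_sum_ones]
    refine Finset.sum_congr rfl fun i hi => ?_
    have h2 := Finsupp.mem_support_iff.mp hi
    have h3 := hs i
    omega
  let e : V ≃ s.support := Fintype.equivOfCardEq (by rw [Fintype.card_coe, h1])
  refine ⟨fun v => (e v : ℕ), fun a b h => e.injective (Subtype.ext h), ?_⟩
  ext i
  rw [typ_apply]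
  by_cases hi : i ∈ s.support
  · have h2 := Finsupp.mem_support_iff.mp hi
    have h3 := hs i
    have h4 : s i = 1 := by omega
    rw [h4, Finset.card_eq_one]
    refine ⟨e.symm ⟨i, hi⟩, ?_⟩
    ext k
    simp only [Finset.mem_filter, Finset.mem_univ, true_and, Finset.mem_singleton]
    constructor
    · intro h
      rw [Equiv.eq_symm_apply]
      exact Subtype.ext h
    · rintro rfl
      rw [Equiv.apply_symm_apply]
  · have h4 : s i = 0 := Finsupp.notMem_support_iff.mp hi
    rw [h4, Finset.card_eq_zero, Finset.filter_eq_empty_iff]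
    intro k _ h
    apply hi
    rw [← h]
    exact (e k).2

/-- spanning: the degree `n` squarefree part is a combination of the `fE` with `E` even -/
lemma span_deg {V : Type} [Fintype V] {f : MvPowerSeries ℕ ℚ} (hf : Inv f) (s : ℕ →₀ ℕ) (hs : Sf s)
    (hn : s.sum (fun _ e => e) = Fintype.card V) :
    MvPowerSeries.coeff s f = ∑ E ∈ (PP V).powerset.filter Ev,
      (fco f E / nfac V) * MvPowerSeries.coeff s (fE E) := by
  obtain ⟨η, hη, hs'⟩ := exists_enum (V := V) s hs hn
  have hfac : nfac V ≠ 0 := nfac_ne V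
  rw [← hs']
  have h5 : ∀ E ∈ (PP V).powerset.filter Ev,
      (fco f E / nfac V) * MvPowerSeries.coeff (typ η) (fE E) =
      ∑ θ : V ≃ V, (nfac V)⁻¹ * (fco f E * wal E (pat (η ∘ θ))) := by
    intro E hE
    rw [Finset.mem_filter, Finset.mem_powerset] at hE
    rw [coeff_fE, fib_sum η hη, Finset.mul_sum]
    refine Finset.sum_congr rfl fun θ _ => ?_
    rw [chi_pat E hE.1]
    ring
  rw [Finset.sum_congr rfl h5, Finset.sum_comm]
  have h6 : ∀ θ ∈ (Finset.univ : Finset (V ≃ V)),
      ∑ E ∈ (PP V).powerset.filter Ev, (nfac V)⁻¹ * (fco f E * wal E (pat (η ∘ θ)))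
      = (nfac V)⁻¹ * MvPowerSeries.coeff (typ η) f := by
    intro θ _
    rw [← Finset.mul_sum]
    congr 1
    rw [← typ_comp_equiv θ η, uh_pat hf _ (hη.comp θ.injective), fourier f _ (pat_sub _)]
    rw [Finset.sum_filter]
    refine Finset.sum_congr rfl fun E hE => ?_
    split_ifs with h
    · rfl
    · rw [fco_zero hf E (Finset.mem_powerset.mp hE) h, zero_mul]
  rw [Finset.sum_congr rfl h6, Finset.sum_const, nsmul_eq_mul]
  change _ = nfac V * _
  rw [← mul_assoc, mul_inv_cancel₀ hfac, one_mul]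

/-- connectedness, cut form -/
def Conn {V : Type} (E : Finset (Sym2 V)) : Prop :=
  Nonempty V ∧ ∀ W : Set V, W.Nonempty → (∀ v ∈ W, ∀ w, s(v, w) ∈ E → w ∈ W) → W = Set.univ

/-- embeddings onto unions of components -/
def embs {U V : Type} [Fintype U] [Fintype V] (C : Finset (Sym2 U)) (E : Finset (Sym2 V)) :
    Finset (U → V) :=
  Finset.univ.filter (fun η => Function.Injective η ∧
    (∀ v w, v ≠ w → (s(η v, η w) ∈ E ↔ s(v, w) ∈ C)) ∧ ∀ v, ∀ w : V, s(η v, w) ∈ E → ∃ u, η u = w)

lemma mem_embs {U V : Type} [Fintype U] [Fintype V] {C : Finset (Sym2 U)} {E : Finset (Sym2 V)}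
    {η : U → V} : η ∈ embs C E ↔ Function.Injective η ∧
    (∀ v w, v ≠ w → (s(η v, η w) ∈ E ↔ s(v, w) ∈ C)) ∧ ∀ v, ∀ w : V, s(η v, w) ∈ E → ∃ u, η u = w := by
  unfold embs
  rw [Finset.mem_filter]
  exact ⟨fun h => h.2, fun h => ⟨Finset.mem_univ _, h⟩⟩

lemma mem_dU_ll {V W : Type} (E : Finset (Sym2 V)) (E' : Finset (Sym2 W)) (a b : V) :
    s((Sum.inl a : V ⊕ W), Sum.inl b) ∈ dU E E' ↔ s(a, b) ∈ E := by
  unfold dU
  rw [Finset.mem_union, Finset.mem_image, Finset.mem_image]
  constructor
  · rintro (⟨e, he, h⟩ | ⟨e, he, h⟩)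
    · rw [← Sym2.map_mk] at h
      rw [← map_inl_inj h]; exact he
    · rw [← Sym2.map_mk] at h
      exact absurd h.symm (inl_ne_inr _ _)
  · intro h
    exact Or.inl ⟨_, h, Sym2.map_mk _ _ _⟩

lemma mem_dU_rr {V W : Type} (E : Finset (Sym2 V)) (E' : Finset (Sym2 W)) (a b : W) :
    s((Sum.inr a : V ⊕ W), Sum.inr b) ∈ dU E E' ↔ s(a, b) ∈ E' := by
  unfold dU
  rw [Finset.mem_union, Finset.mem_image, Finset.mem_image]
  constructor
  · rintro (⟨e, he, h⟩ | ⟨e, he, h⟩)
    · rw [← Sym2.map_mk] at h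
      exact absurd h (inl_ne_inr _ _)
    · rw [← Sym2.map_mk] at h
      rw [← map_inr_inj h]; exact he
  · intro h
    exact Or.inr ⟨_, h, Sym2.map_mk _ _ _⟩

lemma mem_dU_lr {V W : Type} (E : Finset (Sym2 V)) (E' : Finset (Sym2 W)) (a : V) (b : W) :
    s((Sum.inl a : V ⊕ W), Sum.inr b) ∉ dU E E' := by
  unfold dU
  rw [Finset.mem_union, Finset.mem_image, Finset.mem_image]
  rintro (⟨e, he, h⟩ | ⟨e, he, h⟩)
  · induction e using Sym2.ind with
    | _ c d =>
      rw [Sym2.map_mk, Sym2.eq_iff] at h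
      simp at h
  · induction e using Sym2.ind with
    | _ c d =>
      rw [Sym2.map_mk, Sym2.eq_iff] at h
      simp at h

lemma mem_dU_rl {V W : Type} (E : Finset (Sym2 V)) (E' : Finset (Sym2 W)) (a : V) (b : W) :
    s((Sum.inr b : V ⊕ W), Sum.inl a) ∉ dU E E' := by
  rw [Sym2.eq_swap]
  exact mem_dU_lr E E' a b

lemma mem_rel {V W : Type} (θ : V ≃ W) (E : Finset (Sym2 V)) (a b : V) :
    s(θ a, θ b) ∈ rel θ E ↔ s(a, b) ∈ E := by
  unfold rel
  rw [Finset.mem_image]
  constructor
  · rintro ⟨e, he, h⟩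
    rw [← Sym2.map_mk] at h
    rw [← Sym2.map.injective θ.injective h]; exact he
  · intro h
    exact ⟨_, h, Sym2.map_mk _ _ _⟩

lemma mem_rel' {V W : Type} (θ : V ≃ W) (E : Finset (Sym2 V)) (a b : W) :
    s(a, b) ∈ rel θ E ↔ s(θ.symm a, θ.symm b) ∈ E := by
  rw [← mem_rel θ, θ.apply_symm_apply, θ.apply_symm_apply]

lemma embs_dU {U V W : Type} [Fintype U] [Fintype V] [Fintype W] (C : Finset (Sym2 U))
    (hC : Conn C) (E : Finset (Sym2 V)) (E' : Finset (Sym2 W)) :
    (embs C (dU E E')).card = (embs C E).card + (embs C E').card := by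
  have hdec : embs C (dU E E') =
      (embs C E).image (fun η => Sum.inl ∘ η) ∪ (embs C E').image (fun η => Sum.inr ∘ η) := by
    ext η
    rw [Finset.mem_union, Finset.mem_image, Finset.mem_image]
    constructor
    · intro h
      rw [mem_embs] at h
      obtain ⟨h1, h2, h3⟩ := h
      by_cases hA : ∃ u, ∃ v, η u = Sum.inl v
      · left
        have hA2 : {u | ∃ v, η u = Sum.inl v} = Set.univ := by
          apply hC.2 _ hA
          rintro u ⟨v, hv⟩ u' hu
          by_cases huu : u = u'
          · subst huu; exact ⟨v, hv⟩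
          · have := (h2 u u' huu).mpr hu
            rw [hv] at this
            rcases h4 : η u' with v' | w'
            · exact ⟨v', h4⟩
            · rw [h4] at this
              exact absurd this (mem_dU_lr E E' v w')
        have hA3 : ∀ u, ∃ v, η u = Sum.inl v := fun u => by
          have : u ∈ {u | ∃ v, η u = Sum.inl v} := by rw [hA2]; trivial
          exact this
        choose f hf using hA3
        refine ⟨f, ?_, funext fun u => (hf u).symm⟩
        rw [mem_embs]
        refine ⟨fun a b hab => h1 (by rw [hf, hf, hab]), ?_, ?_⟩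
        · intro v w hvw
          rw [← h2 v w hvw, hf v, hf w, mem_dU_ll]
        · intro v w hvw
          have := h3 v (Sum.inl w) (by rw [hf v, mem_dU_ll]; exact hvw)
          obtain ⟨u, hu⟩ := this
          exact ⟨u, Sum.inl.inj ((hf u).symm.trans hu)⟩
      · right
        have hA3 : ∀ u, ∃ v, η u = Sum.inr v := fun u => by
          rcases h4 : η u with v' | w'
          · exact absurd ⟨u, v', h4⟩ hA
          · exact ⟨w', rfl⟩
        choose f hf using hA3
        refine ⟨f, ?_, funext fun u => (hf u).symm⟩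
        rw [mem_embs]
        refine ⟨fun a b hab => h1 (by rw [hf, hf, hab]), ?_, ?_⟩
        · intro v w hvw
          rw [← h2 v w hvw, hf v, hf w, mem_dU_rr]
        · intro v w hvw
          have := h3 v (Sum.inr w) (by rw [hf v, mem_dU_rr]; exact hvw)
          obtain ⟨u, hu⟩ := this
          exact ⟨u, Sum.inr.inj ((hf u).symm.trans hu)⟩
    · rintro (⟨η, h, rfl⟩ | ⟨η, h, rfl⟩)
      · rw [mem_embs] at h ⊢
        obtain ⟨h1, h2, h3⟩ := h
        refine ⟨Sum.inl_injective.comp h1, ?_, ?_⟩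
        · intro v w hvw
          simp only [Function.comp]
          rw [mem_dU_ll, h2 v w hvw]
        · intro v w hvw
          simp only [Function.comp] at hvw
          rcases w with w | w
          · rw [mem_dU_ll] at hvw
            obtain ⟨u, hu⟩ := h3 v w hvw
            exact ⟨u, congrArg Sum.inl hu⟩
          · exact absurd hvw (mem_dU_lr E E' _ _)
      · rw [mem_embs] at h ⊢
        obtain ⟨h1, h2, h3⟩ := h
        refine ⟨Sum.inr_injective.comp h1, ?_, ?_⟩
        · intro v w hvw
          simp only [Function.comp]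
          rw [mem_dU_rr, h2 v w hvw]
        · intro v w hvw
          simp only [Function.comp] at hvw
          rcases w with w | w
          · exact absurd hvw (mem_dU_rl E E' _ _)
          · rw [mem_dU_rr] at hvw
            obtain ⟨u, hu⟩ := h3 v w hvw
            exact ⟨u, congrArg Sum.inr hu⟩
  rw [hdec, Finset.card_union_of_disjoint, Finset.card_image_of_injective,
    Finset.card_image_of_injective]
  · intro a b h
    ext u
    exact Sum.inr_injective (congrFun h u)
  · intro a b h
    ext u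
    exact Sum.inl_injective (congrFun h u)
  · rw [Finset.disjoint_left]
    intro x hx hx'
    obtain ⟨e, -, rfl⟩ := Finset.mem_image.mp hx
    obtain ⟨e', -, h⟩ := Finset.mem_image.mp hx'
    obtain ⟨u⟩ := hC.1
    have := congrFun h u
    simp at this

lemma embs_rel {U V W : Type} [Fintype U] [Fintype V] [Fintype W] (C : Finset (Sym2 U))
    (θ : V ≃ W) (E : Finset (Sym2 V)) : (embs C (rel θ E)).card = (embs C E).card := by
  symm
  refine Finset.card_bij' (fun η _ => θ ∘ η) (fun η _ => θ.symm ∘ η) ?_ ?_ ?_ ?_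
  · intro η h
    rw [mem_embs] at h ⊢
    obtain ⟨h1, h2, h3⟩ := h
    refine ⟨θ.injective.comp h1, ?_, ?_⟩
    · intro v w hvw
      simp only [Function.comp]
      rw [mem_rel, h2 v w hvw]
    · intro v w hvw
      simp only [Function.comp] at hvw
      rw [mem_rel', θ.symm_apply_apply] at hvw
      obtain ⟨u, hu⟩ := h3 v _ hvw
      exact ⟨u, by simp only [Function.comp]; rw [hu, θ.apply_symm_apply]⟩
  · intro η h
    rw [mem_embs] at h ⊢
    obtain ⟨h1, h2, h3⟩ := h
    refine ⟨θ.symm.injective.comp h1, ?_, ?_⟩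
    · intro v w hvw
      simp only [Function.comp]
      rw [← mem_rel', h2 v w hvw]
    · intro v w hvw
      simp only [Function.comp] at hvw
      rw [← mem_rel θ, θ.apply_symm_apply] at hvw
      obtain ⟨u, hu⟩ := h3 v _ hvw
      exact ⟨u, by simp only [Function.comp]; rw [hu, θ.symm_apply_apply]⟩
  · intro η _; ext; simp
  · intro η _; ext; simp

lemma embs_self {U : Type} [Fintype U] (C : Finset (Sym2 U)) : (embs C C).card ≠ 0 := by
  rw [Finset.card_ne_zero]
  refine ⟨id, ?_⟩
  rw [mem_embs]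
  exact ⟨Function.injective_id, fun v w _ => Iff.rfl, fun v w _ => ⟨w, rfl⟩⟩

lemma embs_conn {U V : Type} [Fintype U] [Fintype V] {C : Finset (Sym2 U)} {E : Finset (Sym2 V)}
    (hC : Conn C) (hE : Conn E) (hC' : C ⊆ PP U) (hE' : E ⊆ PP V) (h : (embs C E).card ≠ 0) :
    ∃ θ : U ≃ V, rel θ C = E := by
  obtain ⟨η, hη⟩ := Finset.card_ne_zero.mp h
  rw [mem_embs] at hη
  obtain ⟨h1, h2, h3⟩ := hη
  have hsurj : Set.range η = Set.univ := by
    apply hE.2
    · obtain ⟨u⟩ := hC.1
      exact ⟨η u, u, rfl⟩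
    · rintro v ⟨u, rfl⟩ w hw
      exact h3 u w hw
  let θ : U ≃ V := Equiv.ofBijective η ⟨h1, Set.range_eq_univ.mp hsurj⟩
  refine ⟨θ, ?_⟩
  ext e
  induction e using Sym2.ind with
  | _ a b =>
    rw [mem_rel']
    by_cases hab : a = b
    · subst hab
      constructor
      · intro h
        have := mem_PP.mp (hC' h)
        rw [Sym2.mk_isDiag_iff] at this
        exact absurd rfl this
      · intro h
        have := mem_PP.mp (hE' h)
        rw [Sym2.mk_isDiag_iff] at this
        exact absurd rfl this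
    · have := h2 (θ.symm a) (θ.symm b) (fun h => hab (θ.symm.injective h))
      rw [← this]
      have e1 : ∀ x, η (θ.symm x) = x := fun x => θ.apply_symm_apply x
      rw [e1, e1]

lemma conn_rel {V W : Type} (θ : V ≃ W) {E : Finset (Sym2 V)} (hE : Conn E) : Conn (rel θ E) := by
  refine ⟨hE.1.map θ, ?_⟩
  intro A hA hcl
  have h := hE.2 (θ ⁻¹' A) (by
    obtain ⟨a, ha⟩ := hA
    exact ⟨θ.symm a, by simpa using ha⟩) (by
    intro v hv w hvw
    exact hcl (θ v) hv (θ w) ((mem_rel θ E v w).mpr hvw))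
  ext a
  constructor
  · intro _; trivial
  · intro _
    have : θ.symm a ∈ θ ⁻¹' A := by rw [h]; trivial
    simpa using this

lemma ev_rel {V W : Type} [Fintype V] [Fintype W] (θ : V ≃ W) {E : Finset (Sym2 V)} (hE : Ev E) :
    Ev (rel θ E) := by
  refine ⟨fun e he => ?_, fun w => ?_⟩
  · have : E ⊆ PP V := fun e he => mem_PP.mpr (hE.1 e he)
    exact mem_PP.mp (rel_sub θ E this he)
  · have h1 : (rel θ E).filter (fun e => w ∈ e) =
        (E.filter (fun e => θ.symm w ∈ e)).image (Sym2.map θ) := by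
      ext e
      unfold rel
      simp only [Finset.mem_filter, Finset.mem_image]
      constructor
      · rintro ⟨⟨e', he', rfl⟩, hw⟩
        refine ⟨e', ⟨he', ?_⟩, rfl⟩
        rw [Sym2.mem_map] at hw
        obtain ⟨a, ha, rfl⟩ := hw
        rw [θ.symm_apply_apply]; exact ha
      · rintro ⟨e', ⟨he', hw⟩, rfl⟩
        refine ⟨⟨e', he', rfl⟩, ?_⟩
        rw [Sym2.mem_map]
        exact ⟨_, hw, θ.apply_symm_apply w⟩
    rw [h1, Finset.card_image_of_injective _ (Sym2.map.injective θ.injective)]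
    exact hE.2 _

/-- finite labelled graphs -/
abbrev FG : Type := Σ n : ℕ, Finset (Sym2 (Fin n))

/-- invariant function of a finite labelled graph -/
def Fg (g : FG) : MvPowerSeries ℕ ℚ := fE g.2

/-- isomorphism -/
def IsoG (g h : FG) : Prop := ∃ θ : Fin g.1 ≃ Fin h.1, rel θ g.2 = h.2

lemma rel_refl {V : Type} (E : Finset (Sym2 V)) : rel (Equiv.refl V) E = E := by
  unfold rel
  simp

lemma rel_trans {U V W : Type} (θ : U ≃ V) (θ' : V ≃ W) (E : Finset (Sym2 U)) :
    rel θ' (rel θ E) = rel (θ.trans θ') E := by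
  unfold rel
  rw [Finset.image_image]
  congr 1
  ext e
  simp only [Function.comp, Sym2.map_map]
  rfl

instance fgSetoid : Setoid FG where
  r := IsoG
  iseqv :=
    { refl := fun g => ⟨Equiv.refl _, rel_refl _⟩
      symm := fun {g h} ⟨θ, hθ⟩ => ⟨θ.symm, by rw [← hθ, rel_trans, Equiv.self_trans_symm, rel_refl]⟩
      trans := fun {g h k} ⟨θ, hθ⟩ ⟨θ', hθ'⟩ => ⟨θ.trans θ', by rw [← rel_trans, hθ, hθ']⟩ }

lemma Fg_iso {g h : FG} (hgh : IsoG g h) : Fg g = Fg h := by
  obtain ⟨θ, hθ⟩ := hgh
  unfold Fg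
  rw [← hθ, fE_rel]

/-- connected even graphs -/
def Good (g : FG) : Prop := Conn g.2 ∧ Ev g.2

lemma good_iso {g h : FG} (hgh : IsoG g h) (hg : Good g) : Good h := by
  obtain ⟨θ, hθ⟩ := hgh
  unfold Good
  rw [← hθ]
  exact ⟨conn_rel θ hg.1, ev_rel θ hg.2⟩

/-- disjoint union -/
def addG (g h : FG) : FG := ⟨g.1 + h.1, rel finSumFinEquiv (dU g.2 h.2)⟩

lemma Fg_add (g h : FG) : Fg (addG g h) = Fg g * Fg h := by
  unfold Fg addG
  rw [fE_rel, fE_mul]

/-- the empty graph -/
def zeroG : FG := ⟨0, ∅⟩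

lemma fE_empty {V : Type} [Fintype V] [IsEmpty V] (E : Finset (Sym2 V)) : fE E = 1 := by
  have hE : E = ∅ := by
    rw [Finset.eq_empty_iff_forall_notMem]
    intro e
    induction e using Sym2.ind with
    | _ a b => exact (IsEmpty.false a).elim
  subst hE
  ext s
  rw [coeff_fE, MvPowerSeries.coeff_one]
  have h0 : ∀ φ : V → ℕ, typ φ = 0 := by
    intro φ
    unfold typ
    exact Finset.sum_of_isEmpty _
  split_ifs with h
  · subst h
    have : fib V (0 : ℕ →₀ ℕ) = {fun v => (IsEmpty.false v).elim} := by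
      ext φ
      rw [mem_fib, Finset.mem_singleton]
      constructor
      · intro _
        ext v
        exact (IsEmpty.false v).elim
      · intro _
        exact h0 φ
    rw [this, Finset.sum_singleton]
    unfold chi
    simp
  · refine Finset.sum_eq_zero fun φ hφ => ?_
    rw [mem_fib, h0] at hφ
    exact absurd hφ.symm h

lemma Fg_zero : Fg zeroG = 1 := by
  unfold Fg zeroG
  exact fE_empty _

/-- disjoint union of a list -/
def listG (l : List FG) : FG := l.foldr addG zeroG

lemma Fg_list (l : List FG) : Fg (listG l) = (l.map Fg).prod := by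
  induction l with
  | nil => exact Fg_zero
  | cons g l ih =>
    change Fg (addG g (listG l)) = _
    rw [Fg_add, ih, List.map_cons, List.prod_cons]

/-- number of embeddings onto components -/
def MM (C g : FG) : ℕ := (embs C.2 g.2).card

lemma MM_add {C : FG} (hC : Conn C.2) (g h : FG) : MM C (addG g h) = MM C g + MM C h := by
  unfold MM addG
  rw [embs_rel, embs_dU _ hC]

lemma MM_zero {C : FG} (hC : Conn C.2) : MM C zeroG = 0 := by
  unfold MM zeroG
  rw [Finset.card_eq_zero, Finset.eq_empty_iff_forall_notMem]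
  intro η _
  obtain ⟨u⟩ := hC.1
  exact (η u).elim0

lemma MM_list {C : FG} (hC : Conn C.2) (l : List FG) : MM C (listG l) = (l.map (MM C)).sum := by
  induction l with
  | nil => exact MM_zero hC
  | cons g l ih =>
    change MM C (addG g (listG l)) = _
    rw [MM_add hC, ih, List.map_cons, List.sum_cons]

lemma MM_iso {C g h : FG} (hgh : IsoG g h) : MM C g = MM C h := by
  obtain ⟨θ, hθ⟩ := hgh
  unfold MM
  rw [← hθ, embs_rel]

/-- loopless -/
def Lo (g : FG) : Prop := g.2 ⊆ PP (Fin g.1)

lemma lo_of_ev {V : Type} [Fintype V] {E : Finset (Sym2 V)} (h : Ev E) : E ⊆ PP V :=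
  fun e he => mem_PP.mpr (h.1 e he)

lemma dU_sub {V W : Type} [Fintype V] [Fintype W] {E : Finset (Sym2 V)} {E' : Finset (Sym2 W)}
    (hE : E ⊆ PP V) (hE' : E' ⊆ PP W) : dU E E' ⊆ PP (V ⊕ W) := by
  intro e he
  rw [mem_PP]
  unfold dU at he
  rw [Finset.mem_union, Finset.mem_image, Finset.mem_image] at he
  rcases he with ⟨e', he', rfl⟩ | ⟨e', he', rfl⟩
  · have := mem_PP.mp (hE he')
    induction e' using Sym2.ind with
    | _ a b =>
      rw [Sym2.mk_isDiag_iff] at this
      rw [Sym2.map_mk, Sym2.mk_isDiag_iff]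
      exact fun h => this (Sum.inl.inj h)
  · have := mem_PP.mp (hE' he')
    induction e' using Sym2.ind with
    | _ a b =>
      rw [Sym2.mk_isDiag_iff] at this
      rw [Sym2.map_mk, Sym2.mk_isDiag_iff]
      exact fun h => this (Sum.inr.inj h)

lemma lo_add {g h : FG} (hg : Lo g) (hh : Lo h) : Lo (addG g h) :=
  rel_sub _ _ (dU_sub hg hh)

lemma lo_list (l : List FG) (h : ∀ g ∈ l, Lo g) : Lo (listG l) := by
  induction l with
  | nil =>
    intro e he
    exact absurd he (Finset.notMem_empty e)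
  | cons g l ih =>
    exact lo_add (h g (List.mem_cons_self)) (ih fun g' hg' => h g' (List.mem_cons_of_mem _ hg'))

/-- index type of the generators -/
def Idx : Type := {q : Quotient fgSetoid // Good q.out}

/-- chosen representative -/
def rep (i : Idx) : FG := i.1.out

lemma rep_good (i : Idx) : Good (rep i) := i.2

lemma rep_inj {i j : Idx} (h : IsoG (rep i) (rep j)) : i = j := by
  apply Subtype.ext
  have h2 : (⟦i.1.out⟧ : Quotient fgSetoid) = ⟦j.1.out⟧ := Quotient.sound h
  rw [Quotient.out_eq, Quotient.out_eq] at h2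
  exact h2

lemma MM_rep (i j : Idx) : MM (rep i) (rep j) = if i = j then MM (rep i) (rep i) else 0 := by
  split_ifs with h
  · rw [h]
  · by_contra h2
    apply h
    exact rep_inj (embs_conn (rep_good i).1 (rep_good j).1 (lo_of_ev (rep_good i).2)
      (lo_of_ev (rep_good j).2) h2)

lemma MM_count (i : Idx) (l : List Idx) :
    MM (rep i) (listG (l.map rep)) = l.count i * MM (rep i) (rep i) := by
  rw [MM_list (rep_good i).1]
  induction l with
  | nil => simp
  | cons j l ih =>
    rw [List.map_cons, List.map_cons, List.sum_cons, ih, MM_rep, List.count_cons]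
    by_cases h : i = j
    · subst h
      simp
      ring
    · have h' : ¬ j = i := fun h' => h h'.symm
      simp [h, h']

/-- every `fE E`, `E` even, is generated by the connected even ones -/
lemma gen {Q : Type} [CommRing Q] [Algebra ℚ Q] (A : Subalgebra ℚ Q)
    (mk : MvPowerSeries ℕ ℚ →+* Q) (hA : ∀ g : FG, Good g → mk (Fg g) ∈ A) :
    ∀ (n : ℕ) (V : Type) [Fintype V] (E : Finset (Sym2 V)), Fintype.card V = n → Ev E →
      mk (fE E) ∈ A := by
  intro n
  induction n using Nat.strong_induction_on with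
  | _ n ih =>
    intro V _ E hn hE
    by_cases hconn : Conn E
    · have : fE E = Fg ⟨Fintype.card V, rel (Fintype.equivFin V) E⟩ := by
        unfold Fg
        rw [fE_rel]
      rw [this]
      exact hA _ ⟨conn_rel _ hconn, ev_rel _ hE⟩
    · rcases isEmpty_or_nonempty V with hV | hV
      · rw [fE_empty, map_one]
        exact A.one_mem
      · have : ∃ W : Set V, W.Nonempty ∧ (∀ v ∈ W, ∀ w, s(v, w) ∈ E → w ∈ W) ∧ W ≠ Set.univ := by
          by_contra h
          push Not at h
          exact hconn ⟨hV, fun W h1 h2 => h W h1 h2⟩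
        obtain ⟨W, hW1, hW2, hW3⟩ := this
        have hW2' : ∀ v w, s(v, w) ∈ E → (v ∈ W ↔ w ∈ W) := by
          intro v w h
          refine ⟨fun hv => hW2 v hv w h, fun hw => hW2 w hw v ?_⟩
          rw [Sym2.eq_swap]; exact h
        let V1 := {a : V // a ∈ W}
        let V2 := {a : V // ¬ a ∈ W}
        let E1 : Finset (Sym2 V1) := Finset.univ.filter (fun e => Sym2.map Subtype.val e ∈ E)
        let E2 : Finset (Sym2 V2) := Finset.univ.filter (fun e => Sym2.map Subtype.val e ∈ E)
        let θ : V1 ⊕ V2 ≃ V := Equiv.sumCompl (fun a => a ∈ W)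
        have hrel : rel θ (dU E1 E2) = E := by
          ext e
          induction e using Sym2.ind with
          | _ a b =>
            rw [mem_rel']
            by_cases ha : a ∈ W <;> by_cases hb : b ∈ W
            · have e1 : θ.symm a = Sum.inl ⟨a, ha⟩ := Equiv.sumCompl_symm_apply_of_pos ha
              have e2 : θ.symm b = Sum.inl ⟨b, hb⟩ := Equiv.sumCompl_symm_apply_of_pos hb
              rw [e1, e2, mem_dU_ll]
              simp only [E1, Finset.mem_filter, Finset.mem_univ, true_and, Sym2.map_mk]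
            · have e1 : θ.symm a = Sum.inl ⟨a, ha⟩ := Equiv.sumCompl_symm_apply_of_pos ha
              have e2 : θ.symm b = Sum.inr ⟨b, hb⟩ := Equiv.sumCompl_symm_apply_of_neg hb
              rw [e1, e2]
              exact ⟨fun h => absurd h (mem_dU_lr _ _ _ _), fun h => absurd ((hW2' _ _ h).mp ha) hb⟩
            · have e1 : θ.symm a = Sum.inr ⟨a, ha⟩ := Equiv.sumCompl_symm_apply_of_neg ha
              have e2 : θ.symm b = Sum.inl ⟨b, hb⟩ := Equiv.sumCompl_symm_apply_of_pos hb
              rw [e1, e2]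
              exact ⟨fun h => absurd h (mem_dU_rl _ _ _ _), fun h => absurd ((hW2' _ _ h).mpr hb) ha⟩
            · have e1 : θ.symm a = Sum.inr ⟨a, ha⟩ := Equiv.sumCompl_symm_apply_of_neg ha
              have e2 : θ.symm b = Sum.inr ⟨b, hb⟩ := Equiv.sumCompl_symm_apply_of_neg hb
              rw [e1, e2, mem_dU_rr]
              simp only [E2, Finset.mem_filter, Finset.mem_univ, true_and, Sym2.map_mk]
        have hfE : fE E = fE E1 * fE E2 := by
          conv_lhs => rw [← hrel]
          rw [fE_rel, fE_mul]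
        have hval1 : Function.Injective (Sym2.map (Subtype.val : V1 → V)) :=
          Sym2.map.injective Subtype.val_injective
        have hval2 : Function.Injective (Sym2.map (Subtype.val : V2 → V)) :=
          Sym2.map.injective Subtype.val_injective
        have hE1 : Ev E1 := by
          refine ⟨?_, ?_⟩
          · intro e he hd
            have h1 := (Finset.mem_filter.mp he).2
            induction e using Sym2.ind with
            | _ a b =>
              rw [Sym2.mk_isDiag_iff] at hd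
              subst hd
              exact hE.1 _ h1 (by rw [Sym2.map_mk, Sym2.mk_isDiag_iff])
          · intro v
            have : (E.filter (fun e => v.1 ∈ e)) = (E1.filter (fun e => v ∈ e)).image
                (Sym2.map Subtype.val) := by
              ext e
              simp only [Finset.mem_filter, Finset.mem_image, E1, Finset.mem_univ, true_and]
              constructor
              · rintro ⟨h1, h2⟩
                induction e using Sym2.ind with
                | _ a b =>
                  have h3 := hW2' a b h1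
                  have h4 : a ∈ W ∧ b ∈ W := by
                    rw [Sym2.mem_iff] at h2
                    rcases h2 with h2 | h2
                    · have : a ∈ W := h2 ▸ v.2
                      exact ⟨this, h3.mp this⟩
                    · have : b ∈ W := h2 ▸ v.2
                      exact ⟨h3.mpr this, this⟩
                  refine ⟨s(⟨a, h4.1⟩, ⟨b, h4.2⟩), ⟨by rw [Sym2.map_mk]; exact h1, ?_⟩, by
                    rw [Sym2.map_mk]⟩
                  rw [Sym2.mem_iff] at h2 ⊢
                  rcases h2 with h2 | h2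
                  · left; exact Subtype.ext h2
                  · right; exact Subtype.ext h2
              · rintro ⟨e', ⟨h1, h2⟩, rfl⟩
                exact ⟨h1, Sym2.mem_map.mpr ⟨v, h2, rfl⟩⟩
            have h5 := hE.2 v.1
            rw [this, Finset.card_image_of_injective _ hval1] at h5
            convert h5
        have hE2 : Ev E2 := by
          refine ⟨?_, ?_⟩
          · intro e he hd
            have h1 := (Finset.mem_filter.mp he).2
            induction e using Sym2.ind with
            | _ a b =>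
              rw [Sym2.mk_isDiag_iff] at hd
              subst hd
              exact hE.1 _ h1 (by rw [Sym2.map_mk, Sym2.mk_isDiag_iff])
          · intro v
            have : (E.filter (fun e => v.1 ∈ e)) = (E2.filter (fun e => v ∈ e)).image
                (Sym2.map Subtype.val) := by
              ext e
              simp only [Finset.mem_filter, Finset.mem_image, E2, Finset.mem_univ, true_and]
              constructor
              · rintro ⟨h1, h2⟩
                induction e using Sym2.ind with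
                | _ a b =>
                  have h3 := hW2' a b h1
                  have h4 : ¬ a ∈ W ∧ ¬ b ∈ W := by
                    rw [Sym2.mem_iff] at h2
                    rcases h2 with h2 | h2
                    · have : ¬ a ∈ W := h2 ▸ v.2
                      exact ⟨this, fun h => this (h3.mpr h)⟩
                    · have : ¬ b ∈ W := h2 ▸ v.2
                      exact ⟨fun h => this (h3.mp h), this⟩
                  refine ⟨s(⟨a, h4.1⟩, ⟨b, h4.2⟩), ⟨by rw [Sym2.map_mk]; exact h1, ?_⟩, by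
                    rw [Sym2.map_mk]⟩
                  rw [Sym2.mem_iff] at h2 ⊢
                  rcases h2 with h2 | h2
                  · left; exact Subtype.ext h2
                  · right; exact Subtype.ext h2
              · rintro ⟨e', ⟨h1, h2⟩, rfl⟩
                exact ⟨h1, Sym2.mem_map.mpr ⟨v, h2, rfl⟩⟩
            have h5 := hE.2 v.1
            rw [this, Finset.card_image_of_injective _ hval2] at h5
            convert h5
        have hc1 : Fintype.card V1 < n := by
          rw [← hn]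
          have : ∃ a, a ∉ W := by
            by_contra h
            push Not at h
            exact hW3 (Set.eq_univ_of_forall h)
          obtain ⟨a, ha⟩ := this
          exact Fintype.card_subtype_lt (x := a) ha
        have hc2 : Fintype.card V2 < n := by
          rw [← hn]
          obtain ⟨a, ha⟩ := hW1
          exact Fintype.card_subtype_lt (x := a) (fun h => h ha)
        rw [hfE, map_mul]
        exact A.mul_mem (ih _ hc1 V1 E1 rfl hE1) (ih _ hc2 V2 E2 rfl hE2)

lemma Lam_self_ne {V : Type} [Fintype V] (E : Finset (Sym2 V)) (hE : E ⊆ PP V) :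
    Lam E (fE E) ≠ 0 := by
  rw [Lam_fE E hE E hE]
  have h4 : (Finset.univ.filter (fun θ : V ≃ V => rel θ E = E)).card ≠ 0 := by
    rw [Finset.card_ne_zero]
    exact ⟨Equiv.refl _, Finset.mem_filter.mpr ⟨Finset.mem_univ _, rel_refl _⟩⟩
  have h5 : ((Finset.univ.filter (fun θ : V ≃ V => rel θ E = E)).card : ℚ) ≠ 0 := by
    exact_mod_cast h4
  exact mul_ne_zero (by positivity) h5

lemma Lam_eq_zero {V W : Type} [Fintype V] [Fintype W] (E : Finset (Sym2 V)) (hE : E ⊆ PP V)
    (E' : Finset (Sym2 W)) (hE' : E' ⊆ PP W) (h : ∀ θ : W ≃ V, ¬ rel θ E' = E) :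
    Lam E (fE E') = 0 := by
  rw [Lam_fE E hE E' hE', Finset.filter_false_of_mem (fun θ _ => h θ)]
  simp

/-- the even expansion in degree `card V` -/
def part (V : Type) [Fintype V] (f : MvPowerSeries ℕ ℚ) : MvPowerSeries ℕ ℚ :=
  ∑ E ∈ (PP V).powerset.filter Ev, (fco f E / nfac V) • fE E

lemma coeff_part {V : Type} [Fintype V] {f : MvPowerSeries ℕ ℚ} (hf : Inv f) (s : ℕ →₀ ℕ)
    (hs : Sf s) (hn : s.sum (fun _ e => e) = Fintype.card V) :
    MvPowerSeries.coeff s (part V f) = MvPowerSeries.coeff s f := by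
  rw [span_deg hf s hs hn]
  unfold part
  rw [map_sum]
  refine Finset.sum_congr rfl fun E _ => ?_
  rw [map_smul, smul_eq_mul]

lemma coeff_part_zero {V : Type} [Fintype V] (f : MvPowerSeries ℕ ℚ) (s : ℕ →₀ ℕ)
    (hn : s.sum (fun _ e => e) ≠ Fintype.card V) :
    MvPowerSeries.coeff s (part V f) = 0 := by
  unfold part
  rw [map_sum]
  refine Finset.sum_eq_zero fun E _ => ?_
  have : MvPowerSeries.coeff s (fE E) = 0 := by
    by_contra h
    exact hn (fE_degree _ _ h)
  rw [map_smul, this, smul_zero]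

lemma part_mem {Q : Type} [CommRing Q] [Algebra ℚ Q] (A : Subalgebra ℚ Q)
    (mk : MvPowerSeries ℕ ℚ →+* Q) (hA : ∀ g : FG, Good g → mk (Fg g) ∈ A)
    (V : Type) [Fintype V] (f : MvPowerSeries ℕ ℚ) : mk (part V f) ∈ A := by
  unfold part
  rw [map_sum]
  refine A.sum_mem fun E hE => ?_
  rw [Algebra.smul_def, map_mul]
  refine A.mul_mem ?_ (gen A mk hA _ V E rfl (Finset.mem_filter.mp hE).2)
  have : (mk.comp (algebraMap ℚ (MvPowerSeries ℕ ℚ))) = algebraMap ℚ Q := Subsingleton.elim _ _
  have h2 : mk (algebraMap ℚ (MvPowerSeries ℕ ℚ) (fco f E / nfac V)) =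
      algebraMap ℚ Q (fco f E / nfac V) := by
    rw [← this]; rfl
  rw [h2]
  exact A.algebraMap_mem _

end

end Pool.Agent.Helper419.TwoGraph
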